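import Pool.Agent.H.MP_ac3185_nt.R.Defs

/-! Infinite places of the intermediate fields. -/

set_option autoImplicit false

open NumberField

namespace Pool.Agent.H.MP_ac3185_nt

universe u

variable {K : Type u} [Field K] [NumberField K]

/-- The permutation representation of a group on the functions on a set. -/
def permRep (G X : Type*) [Group G] [MulAction G X] : Representation ℚ G (X → ℚ) where
  toFun g := { toFun := fun f x => f (g⁻¹ • x), map_add' := fun _ _ => rfl,
               map_smul' := fun _ _ => rfl }
  map_one' := by
    ext f x
    show _ = _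
    simp
  map_mul' a b := by
    refine LinearMap.ext fun f => funext fun x => ?_
    show f ((a * b)⁻¹ • x) = f (b⁻¹ • a⁻¹ • x)
    rw [mul_inv_rev, mul_smul]

/-- The dimension of the space of fixed vectors is the number of orbits. -/
theorem finrank_permRep (G X : Type*) [Group G] [MulAction G X] [Finite X] (H : Subgroup G) :
    Module.finrank ℚ (fixedVec (permRep G X) (H : Set G)) =
      Nat.card (MulAction.orbitRel.Quotient H X) := by
  classical
  have hact : ∀ (f : X → ℚ) (g : G) (x : X), permRep G X g f x = f (g⁻¹ • x) := fun _ _ _ => rfl
  have hfix : ∀ f ∈ fixedVec (permRep G X) (H : Set G), ∀ x y : X,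
      (MulAction.orbitRel H X) x y → f x = f y := by
    intro f hf x y hxy
    rw [MulAction.orbitRel_apply] at hxy
    obtain ⟨h, hh⟩ := hxy
    have h1 := congrFun (hf (h : G) h.2) x
    rw [hact] at h1
    rw [← h1, ← hh]
    congr 1
    show (h : G)⁻¹ • ((h : G) • y) = y
    rw [inv_smul_smul]
  let e : fixedVec (permRep G X) (H : Set G) ≃ₗ[ℚ] (MulAction.orbitRel.Quotient H X → ℚ) :=
    { toFun := fun f q => Quotient.lift f.1 (fun x y hxy => hfix f.1 f.2 x y hxy) q
      map_add' := fun f g => by
        funext q
        induction q using Quotient.inductionOn with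
        | _ x => rfl
      map_smul' := fun a f => by
        funext q
        induction q using Quotient.inductionOn with
        | _ x => rfl
      invFun := fun F => ⟨fun x => F (Quotient.mk _ x), fun h hh => by
        funext x
        rw [hact]
        congr 1
        apply Quotient.sound
        show (MulAction.orbitRel H X) (h⁻¹ • x) x
        rw [MulAction.orbitRel_apply]
        exact ⟨⟨h⁻¹, H.inv_mem hh⟩, rfl⟩⟩
      left_inv := fun f => rfl
      right_inv := fun F => by
        funext q
        induction q using Quotient.inductionOn with
        | _ x => rfl }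
  have : Finite (MulAction.orbitRel.Quotient H X) := Quotient.finite _
  have := Fintype.ofFinite (MulAction.orbitRel.Quotient H X)
  rw [e.finrank_eq, Module.finrank_fintype_fun_eq_card, Nat.card_eq_fintype_card]

/-- The infinite places of `L ⊆ F` are the orbits of `relGal F L` on the infinite places of `F`.
Proof: view `F` as an extension of `L` (`IntermediateField.inclusion`), it is Galois over `L`;
`InfinitePlace.orbitRelEquiv`; the groups `F ≃ₐ[L] F` and `relGal F L` consist of the same maps. -/
theorem card_infinitePlace (F : IntermediateField K (AlgebraicClosure K)) [FiniteDimensional K F]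
    [IsGalois K F] (L : IntermediateField K (AlgebraicClosure K)) (hL : L ≤ F) :
    Nat.card (InfinitePlace L) =
      Nat.card (MulAction.orbitRel.Quotient (relGal F L) (InfinitePlace F)) := by
  let _ : Algebra L F := (IntermediateField.inclusion hL).toRingHom.toAlgebra
  have hmap : ∀ x : L, ((algebraMap L F x : F) : AlgebraicClosure K) = x := fun x => rfl
  have : IsScalarTower K L F := IsScalarTower.of_algebraMap_eq fun x => rfl
  have : IsGalois L F := IsGalois.tower_top_of_isGalois K L F
  have key : ∀ w w' : InfinitePlace F, (MulAction.orbitRel (F ≃ₐ[L] F) (InfinitePlace F)) w w' ↔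
      (MulAction.orbitRel (relGal F L) (InfinitePlace F)) w w' := by
    intro w w'
    rw [MulAction.orbitRel_apply, MulAction.orbitRel_apply]
    constructor
    · rintro ⟨σ, hσ⟩
      have hmem : σ.restrictScalars K ∈ relGal F L := by
        intro x hx
        have h1 := σ.commutes ⟨x, hx⟩
        exact h1
      exact ⟨⟨σ.restrictScalars K, hmem⟩, hσ⟩
    · rintro ⟨⟨g, hg⟩, hgw⟩
      exact ⟨AlgEquiv.ofRingEquiv (f := g.toRingEquiv)
        (fun x => hg (algebraMap L F x) x.2), hgw⟩
  rw [← Nat.card_congr (InfinitePlace.orbitRelEquiv (k := L) (K := F))]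
  exact Nat.card_congr (Quotient.congr (Equiv.refl _) key)

/-- The number of infinite places in an even relation is even. Proof: the relation for
`M = (InfinitePlace F → ℚ)`. -/
theorem infinite_even (F : IntermediateField K (AlgebraicClosure K)) [FiniteDimensional K F]
    [IsGalois K F] {J : Type*} [Fintype J] (L : J → IntermediateField K (AlgebraicClosure K))
    (hL : ∀ j, L j ≤ F) (hE : EvenRelation F L) : Even (∑ j, Nat.card (InfinitePlace (L j))) := by
  have : NumberField F := NumberField.of_module_finite K F
  have h := hE (InfinitePlace F → ℚ) (permRep (F ≃ₐ[K] F) (InfinitePlace F))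
  have h1 : ∀ j, Nat.card (InfinitePlace (L j)) = Module.finrank ℚ
      (fixedVec (permRep (F ≃ₐ[K] F) (InfinitePlace F))
        (relGal F (L j) : Set (F ≃ₐ[K] F))) := by
    intro j
    rw [card_infinitePlace F (L j) (hL j), finrank_permRep]
  rw [Finset.sum_congr rfl fun j _ => h1 j]
  exact h

end Pool.Agent.H.MP_ac3185_nt
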