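import Pool.Agent.H.MP_ac3185_nt.R.FinA
import Pool.Agent.H.MP_ac3185_nt.R.InfP

/-! The products of root numbers in an even relation. -/

set_option autoImplicit false

open CategoryTheory AlgebraicGeometry NumberField IsDedekindDomain
open scoped MonObj Pointwise

namespace Pool.Agent.H.MP_ac3185_nt

universe u

variable {K : Type u} [Field K] [NumberField K]

/-- Rearranging a product over the fibres of a map. -/
theorem find_fib {α β : Type*} (π : α → β) (f : α → ℤ) (hf : {a | f a ≠ 1}.Finite) :
    {b | ∏ᶠ a : {a // π a = b}, f a.1 ≠ 1}.Finite ∧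
    ∏ᶠ a, f a = ∏ᶠ b, ∏ᶠ a : {a // π a = b}, f a.1 := by
  classical
  obtain ⟨S, hS⟩ : ∃ S : Finset α, ∀ a, a ∈ S ↔ f a ≠ 1 :=
    ⟨hf.toFinset, fun a => by simp⟩
  have inner : ∀ b, ∏ᶠ a : {a // π a = b}, f a.1 = ∏ a ∈ S.filter (fun a => π a = b), f a := by
    intro b
    rw [finprod_subtype_eq_finprod_cond (f := f) (fun a => π a = b)]
    apply finprod_cond_eq_prod_of_cond_iff
    intro x hx
    rw [Finset.mem_filter, hS]
    exact ⟨fun h => ⟨hx, h⟩, fun h => h.2⟩
  have hsub : ∀ b, ∏ᶠ a : {a // π a = b}, f a.1 ≠ 1 → b ∈ S.image π := by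
    intro b hb
    by_contra h
    apply hb
    rw [inner b]
    apply Finset.prod_eq_one
    intro a ha
    rw [Finset.mem_filter] at ha
    exact absurd (Finset.mem_image.2 ⟨a, ha.1, ha.2⟩) h
  refine ⟨(S.image π).finite_toSet.subset fun b hb => hsub b hb, ?_⟩
  have e1 : ∏ᶠ a, f a = ∏ a ∈ S, f a := by
    apply finprod_eq_prod_of_mulSupport_subset
    intro a ha
    exact Finset.mem_coe.2 ((hS a).2 ha)
  have e2 : ∏ᶠ b, ∏ᶠ a : {a // π a = b}, f a.1 =
      ∏ b ∈ S.image π, ∏ᶠ a : {a // π a = b}, f a.1 := by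
    apply finprod_eq_prod_of_mulSupport_subset
    intro b hb
    exact Finset.mem_coe.2 (hsub b hb)
  rw [e1, e2, Finset.prod_congr rfl fun b _ => inner b]
  exact (Finset.prod_fiberwise_of_maps_to (fun a ha => Finset.mem_image_of_mem π ha) f).symm

/-- Rearranging a product over the places of `L`. Proof: every place `w` of `L` divides exactly one
place `v` of `K` (the comap of a nonzero prime of an integral extension is a nonzero prime); the
support is finite. -/
theorem finprod_places (L : IntermediateField K (AlgebraicClosure K)) [FiniteDimensional K L]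
    (f : HeightOneSpectrum (𝓞 L) → ℤ) (hf : {w | f w ≠ 1}.Finite) :
    {v : HeightOneSpectrum (𝓞 K) |
      ∏ᶠ w : {w : HeightOneSpectrum (𝓞 L) // Divides L w v}, f w.1 ≠ 1}.Finite ∧
    ∏ᶠ w, f w = ∏ᶠ v : HeightOneSpectrum (𝓞 K),
      ∏ᶠ w : {w : HeightOneSpectrum (𝓞 L) // Divides L w v}, f w.1 := by
  have hint : Algebra.IsIntegral (𝓞 K) (𝓞 L) := inferInstance
  have hdiv : ∀ (w : HeightOneSpectrum (𝓞 L)) (v : HeightOneSpectrum (𝓞 K)),
      Divides L w v ↔ w.under (𝓞 K) = v := by
    intro w v
    rw [HeightOneSpectrum.ext_iff]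
    exact Iff.rfl
  have h := find_fib (fun w : HeightOneSpectrum (𝓞 L) => w.under (𝓞 K)) f hf
  have h3 : ∀ v : HeightOneSpectrum (𝓞 K),
      ∏ᶠ w : {w : HeightOneSpectrum (𝓞 L) // Divides L w v}, f w.1 =
      ∏ᶠ w : {w : HeightOneSpectrum (𝓞 L) // w.under (𝓞 K) = v}, f w.1 := by
    intro v
    rw [finprod_subtype_eq_finprod_cond (f := f) (fun w => Divides L w v),
      finprod_subtype_eq_finprod_cond (f := f) (fun w => w.under (𝓞 K) = v)]
    exact finprod_congr fun w => finprod_congr_Prop (propext (hdiv w v)) (fun _ => rfl)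
  rw [finprod_congr h3]
  refine ⟨h.1.subset fun v hv => ?_, h.2⟩
  rw [Set.mem_ofPred_eq, h3 v] at hv
  exact hv

/-- The product of the global root numbers in an even relation. Proof: `infinite_even` for the
infinite places; `finprod_places` (support finite by `hW.almost`) and `finprod_prod_comm`-type lemma for
the finite places, and the place by place products. -/
theorem signOver_product (F : IntermediateField K (AlgebraicClosure K))
    [FiniteDimensional K F] [IsGalois K F] (A : Over (Spec (.of K))) [GrpObj A] [IsAbVar A]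
    (W : LocalSigns K) (hW : IsRootNumbers A W) (g : ℕ) {J : Type*} [Fintype J]
    (L : J → IntermediateField K (AlgebraicClosure K)) (hL : ∀ j, L j ≤ F)
    (hE : EvenRelation F L)
    (hp : ∀ v : HeightOneSpectrum (𝓞 K),
      ∏ j, ∏ᶠ w : {w : HeightOneSpectrum (𝓞 (L j)) // Divides (L j) w v}, W (L j) w.1 = 1) :
    ∏ j, signOver W g (L j) = 1 := by
  have hfd : ∀ j, FiniteDimensional K (L j) := fun j =>
    FiniteDimensional.of_injective (IntermediateField.inclusion (hL j)).toLinearMap
      (IntermediateField.inclusion (hL j)).injective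
  have h1 := infinite_even F L hL hE
  have h2 : ∀ j, ∏ᶠ w, W (L j) w = ∏ᶠ v : HeightOneSpectrum (𝓞 K),
      ∏ᶠ w : {w : HeightOneSpectrum (𝓞 (L j)) // Divides (L j) w v}, W (L j) w.1 := fun j =>
    (finprod_places (L j) (W (L j)) (hW.almost (L j))).2
  unfold signOver
  rw [Finset.prod_mul_distrib, Finset.prod_pow_eq_pow_sum, ← Finset.mul_sum,
    (h1.mul_left g).neg_one_pow, one_mul, Finset.prod_congr rfl fun j _ => h2 j,
    ← finprod_prod_comm]
  · rw [finprod_congr hp]
    exact finprod_one
  · intro j _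
    exact (finprod_places (L j) (W (L j)) (hW.almost (L j))).1

end Pool.Agent.H.MP_ac3185_nt
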