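import Pool.Agent.H.MP_ac3185_nt.R.Mult

/-! Even relations. -/

set_option autoImplicit false

namespace Pool.Agent.H.MP_ac3185_nt

/-- The action of `G` on a stable subspace. -/
noncomputable def cord_res {k G M : Type*} [Field k] [Group G] [AddCommGroup M] [Module k M]
    (ρ : Representation k G M) (W : Submodule k M) (hW : ∀ g, ∀ x ∈ W, ρ g x ∈ W) :
    Representation k G W where
  toFun g := (ρ g).restrict (hW g)
  map_one' := by
    ext x
    simp [LinearMap.restrict_apply]
  map_mul' a b := by
    ext x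
    simp [LinearMap.restrict_apply]

theorem cord_res_apply {k G M : Type*} [Field k] [Group G] [AddCommGroup M] [Module k M]
    (ρ : Representation k G M) (W : Submodule k M) (hW : ∀ g, ∀ x ∈ W, ρ g x ∈ W) (g : G) (x : W) :
    ((cord_res ρ W hW g x : W) : M) = ρ g x := rfl

theorem cord_central {Q : Type*} [Group Q] [Finite Q] (hQ : IsPGroup 2 Q)
    (hne : ∃ a : Q, a * a ≠ 1) :
    ∃ z : Q, z ∈ Subgroup.closure {x : Q | ∃ a, x = a * a} ∧ z ≠ 1 ∧ z * z = 1 ∧
      ∀ g, g * z = z * g := by
  classical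
  set Φ : Subgroup Q := Subgroup.closure {x : Q | ∃ a, x = a * a} with hΦ
  have hconj : ∀ g : Q, ∀ x ∈ Φ, g * x * g⁻¹ ∈ Φ := by
    intro g x hx
    induction hx using Subgroup.closure_induction with
    | mem x hx =>
      obtain ⟨a, rfl⟩ := hx
      refine Subgroup.subset_closure ⟨g * a * g⁻¹, ?_⟩
      group
    | one => simp
    | mul x y _ _ hx hy =>
      have : g * (x * y) * g⁻¹ = (g * x * g⁻¹) * (g * y * g⁻¹) := by group
      rw [this]
      exact Φ.mul_mem hx hy
    | inv x _ hx =>
      have : g * x⁻¹ * g⁻¹ = (g * x * g⁻¹)⁻¹ := by group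
      rw [this]
      exact Φ.inv_mem hx
  let act : MulAction Q Φ :=
    { smul := fun g x => ⟨g * x * g⁻¹, hconj g x x.2⟩
      one_smul := fun x => by
        apply Subtype.ext
        show (1 : Q) * x * 1⁻¹ = x
        simp
      mul_smul := fun a b x => by
        apply Subtype.ext
        show (a * b) * (x : Q) * (a * b)⁻¹ = a * (b * x * b⁻¹) * a⁻¹
        group }
  have hcard : 2 ∣ Nat.card Φ := by
    rcases (hQ.to_subgroup Φ).card_eq_or_dvd with h | h
    · exfalso
      obtain ⟨a, ha⟩ := hne
      have hbot : Φ = ⊥ := Subgroup.card_eq_one.mp h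
      have : a * a ∈ Φ := Subgroup.subset_closure ⟨a, rfl⟩
      rw [hbot, Subgroup.mem_bot] at this
      exact ha this
    · exact h
  have h1 : (1 : Φ) ∈ MulAction.fixedPoints Q Φ := by
    intro g
    apply Subtype.ext
    show g * (1 : Q) * g⁻¹ = 1
    simp
  have : Fact (Nat.Prime 2) := ⟨Nat.prime_two⟩
  obtain ⟨b, hb, hb1⟩ := hQ.exists_fixed_point_of_prime_dvd_card_of_fixed_point Φ hcard h1
  have hbc : ∀ g : Q, g * (b : Q) = b * g := by
    intro g
    have h := congrArg (Subtype.val) (hb g)
    have h2 : g * (b : Q) * g⁻¹ = b := h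
    calc g * (b : Q) = (g * (b : Q) * g⁻¹) * g := by group
      _ = b * g := by rw [h2]
  have hb1' : (b : Q) ≠ 1 := fun h => hb1 (Subtype.ext h.symm)
  obtain ⟨m, hm⟩ := (IsPGroup.iff_orderOf (p := 2)).mp hQ (b : Q)
  have hm0 : m ≠ 0 := by
    rintro rfl
    rw [pow_zero, orderOf_eq_one_iff] at hm
    exact hb1' hm
  obtain ⟨n, rfl⟩ := Nat.exists_eq_succ_of_ne_zero hm0
  refine ⟨(b : Q) ^ (2 ^ n), Φ.pow_mem b.2 _, ?_, ?_, ?_⟩
  · intro h
    have h2 := orderOf_dvd_of_pow_eq_one h
    rw [hm] at h2
    have h3 := Nat.le_of_dvd (by positivity) h2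
    have h4 : 2 ^ (n + 1) = 2 * 2 ^ n := by ring
    have h5 : 0 < 2 ^ n := by positivity
    simp only [Nat.succ_eq_add_one] at h3
    omega
  · rw [← pow_add]
    have : 2 ^ n + 2 ^ n = orderOf (b : Q) := by rw [hm, Nat.succ_eq_add_one]; ring
    rw [this, pow_orderOf_eq_one]
  · intro g
    have hc : Commute g (b : Q) := hbc g
    exact (hc.pow_right _).eq

section grp

variable {G M : Type*} [Group G] [Finite G] [AddCommGroup M] [Module ℚ M] [FiniteDimensional ℚ M]

theorem cord_eps_sq {G : Type*} [Group G] (ε : G →* ℤˣ) (g : G)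
    (hg : g ∈ Subgroup.closure {x : G | ∃ a, x = a * a}) : ε g = 1 := by
  induction hg using Subgroup.closure_induction with
  | mem x hx =>
    obtain ⟨a, rfl⟩ := hx
    rw [map_mul]
    exact Int.units_mul_self _
  | one => exact map_one ε
  | mul x y _ _ hx hy => rw [map_mul, hx, hy, one_mul]
  | inv x _ hx => rw [map_inv, hx, inv_one]

theorem cord_all_squares (ρ : Representation ℚ G M) (h2 : ∀ a, ρ (a * a) = 1) :
    Module.finrank ℚ M = ∑ᶠ ε : G →* ℤˣ, Module.finrank ℚ (epsPart ρ ε) := by
  classical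
  have hc : ∀ a b, ρ (a * b) = ρ (b * a) := by
    intro a b
    have e1 : ρ (a * b) * ρ (a * b) = 1 := by rw [← map_mul]; exact h2 _
    have e2 : ρ (b * a) * ρ (a * b) = 1 := by
      rw [← map_mul]
      have : b * a * (a * b) = b * (a * a) * b := by group
      rw [this, map_mul, map_mul, h2, mul_one, ← map_mul, h2]
    have hinv : IsUnit (ρ (a * b)) := by
      refine ⟨⟨ρ (a * b), ρ (a * b), e1, e1⟩, rfl⟩
    exact hinv.mul_right_cancel (e1.trans e2.symm)
  have h := finrank_involutions ρ hc h2 (⊥ : Subgroup G)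
  have htop : fixedVec ρ ((⊥ : Subgroup G) : Set G) = ⊤ := by
    rw [eq_top_iff]
    intro x _
    rw [mem_fixedVec]
    intro g hg
    have : g = 1 := by simpa using hg
    rw [this, map_one]
    rfl
  rw [htop, finrank_top] at h
  rw [h]
  apply finsum_congr
  intro ε
  rw [if_pos]
  intro s hs
  rw [Subgroup.mem_bot] at hs
  rw [hs, map_one]

theorem cord_det_closure (ρ : Representation ℚ G M) (g : G)
    (hg : g ∈ Subgroup.closure {x : G | ∃ a, x = a * a}) : LinearMap.det (ρ g) = 1 := by
  have hdet : ∀ a : G, LinearMap.det (ρ a) * LinearMap.det (ρ a) = 1 := by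
    intro a
    have h1 : LinearMap.det (ρ a) ^ Nat.card G = 1 := by
      rw [← map_pow, ← map_pow, pow_card_eq_one', map_one, map_one]
    have h2 : |LinearMap.det (ρ a)| = 1 := by
      have h3 : |LinearMap.det (ρ a)| ^ Nat.card G = 1 := by rw [← abs_pow, h1, abs_one]
      exact (pow_eq_one_iff_of_nonneg (abs_nonneg _) (Nat.card_pos (α := G)).ne').mp h3
    rw [← abs_mul_abs_self, h2, one_mul]
  induction hg using Subgroup.closure_induction with
  | mem x hx =>
    obtain ⟨a, rfl⟩ := hx
    rw [map_mul, map_mul]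
    exact hdet a
  | one => rw [map_one, map_one]
  | mul x y _ _ hx hy => rw [map_mul, map_mul, hx, hy, one_mul]
  | inv x _ hx =>
    have h : LinearMap.det (ρ x⁻¹) * LinearMap.det (ρ x) = 1 := by
      rw [← map_mul, ← map_mul, inv_mul_cancel, map_one, map_one]
    rw [hx, mul_one] at h
    exact h

theorem cord_det (ρ : Representation ℚ G M) (g : G)
    (hg : g ∈ Subgroup.closure {x : G | ∃ a, x = a * a}) (hneg : ρ g = -1) :
    Even (Module.finrank ℚ M) := by
  have hd1 := cord_det_closure ρ g hg
  rw [hneg] at hd1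
  have h3 : LinearMap.det (-1 : Module.End ℚ M) = (-1) ^ Module.finrank ℚ M := by
    have : (-1 : Module.End ℚ M) = (-1 : ℚ) • (1 : Module.End ℚ M) := by simp
    rw [this, LinearMap.det_smul, map_one, mul_one]
  rw [h3] at hd1
  by_contra hodd
  rw [Nat.not_even_iff_odd] at hodd
  rw [hodd.neg_one_pow] at hd1
  norm_num at hd1

/-- A central element of order two of the image, in the group generated by the squares. -/
theorem cord_lift (hG : IsPGroup 2 G) (ρ : Representation ℚ G M) (hne : ∃ a, ρ (a * a) ≠ 1) :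
    ∃ g : G, g ∈ Subgroup.closure {x : G | ∃ a, x = a * a} ∧ ρ g ≠ 1 ∧ ρ g * ρ g = 1 ∧
      ∀ h, ρ h * ρ g = ρ g * ρ h := by
  classical
  let N : Subgroup G := MonoidHom.ker ρ
  obtain ⟨a, ha⟩ := hne
  have hQ : IsPGroup 2 (G ⧸ N) := hG.to_quotient N
  have hne' : ∃ b : G ⧸ N, b * b ≠ 1 := by
    refine ⟨(a : G ⧸ N), fun h => ha ?_⟩
    have : ((a * a : G) : G ⧸ N) = 1 := h
    rw [QuotientGroup.eq_one_iff] at this
    exact this
  obtain ⟨z, hz, hz1, hz2, hzc⟩ := cord_central hQ hne'
  have hmap : Subgroup.closure {x : G ⧸ N | ∃ a, x = a * a} =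
      (Subgroup.closure {x : G | ∃ a, x = a * a}).map (QuotientGroup.mk' N) := by
    rw [MonoidHom.map_closure]
    congr 1
    ext x
    constructor
    · rintro ⟨b, rfl⟩
      obtain ⟨c, rfl⟩ := QuotientGroup.mk_surjective b
      exact ⟨c * c, ⟨c, rfl⟩, rfl⟩
    · rintro ⟨y, ⟨c, rfl⟩, rfl⟩
      exact ⟨(c : G ⧸ N), rfl⟩
  rw [hmap] at hz
  obtain ⟨g, hg, rfl⟩ := hz
  have key : ∀ x : G, ((x : G ⧸ N) = 1) → ρ x = 1 := by
    intro x hx
    rw [QuotientGroup.eq_one_iff] at hx
    exact hx
  refine ⟨g, hg, ?_, ?_, ?_⟩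
  · intro h
    apply hz1
    show ((g : G) : G ⧸ N) = 1
    rw [QuotientGroup.eq_one_iff]
    exact h
  · rw [← map_mul]
    exact key _ hz2
  · intro h
    have h1 : ((h * g * (g * h)⁻¹ : G) : G ⧸ N) = 1 := by
      have h2 := hzc (h : G ⧸ N)
      have h3 : ((h : G) : G ⧸ N) * ((g : G) : G ⧸ N) = ((g : G) : G ⧸ N) * ((h : G) : G ⧸ N) := h2
      rw [QuotientGroup.mk_mul, QuotientGroup.mk_inv, QuotientGroup.mk_mul, QuotientGroup.mk_mul, h3]
      exact mul_inv_cancel _
    have h4 := key _ h1
    have h5 : ρ (h * g * (g * h)⁻¹) * ρ (g * h) = ρ (h * g) := by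
      rw [← map_mul]
      congr 1
      group
    rw [h4, one_mul, map_mul, map_mul] at h5
    exact h5.symm

/-- The rational representations of a finite `2`-group.

Proof. Induction on the order of `G`. If all squares are `1` then `G` is commutative: use
`finrank_involutions` with `S = ⊥`. Otherwise the subgroup `Φ` generated by the squares is normal and
not trivial, so it contains a central element `z ≠ 1` with `z² = 1` (`IsPGroup` theory: a nontrivial
normal subgroup of a `p`-group meets the centre nontrivially). `M` is the direct sum of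
`M₁ = ker (ρ z - 1)` and `M₂ = ker (ρ z + 1)`, both stable under `G`. The dimension of `M₂` is even: the
determinant of the action on `M₂` is a homomorphism from `G` to the rational numbers of finite order,
i.e. to `±1`, so it is trivial on squares and on `z`, and `det (ρ z | M₂) = (-1) ^ finrank M₂`. Every `ε`
is trivial on `z`, so `epsPart ρ ε ⊆ M₁`; `M₁` is a representation of `G / ⟨z⟩`; the characters `ε` of
`G / ⟨z⟩` are those of `G`. -/
theorem finrank_two_group (hG : IsPGroup 2 G) (ρ : Representation ℚ G M) :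
    Module.finrank ℚ M ≡
      ∑ᶠ ε : G →* ℤˣ, Module.finrank ℚ (epsPart ρ ε) [MOD 2] := by
  classical
  induction hn : Module.finrank ℚ M using Nat.strong_induction_on generalizing M with
  | _ n ih =>
  subst hn
  by_cases h2 : ∀ a, ρ (a * a) = 1
  · rw [← cord_all_squares ρ h2]
  · push_neg at h2
    obtain ⟨g, hg, hg1, hg2, hgc⟩ := cord_lift hG ρ h2
    have hgg : ∀ x, ρ g (ρ g x) = x := fun x => by
      have := congrArg (fun f : Module.End ℚ M => f x) hg2
      exact this
    have hcomm : ∀ h x, ρ h (ρ g x) = ρ g (ρ h x) := fun h x => by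
      have := congrArg (fun f : Module.End ℚ M => f x) (hgc h)
      exact this
    let M1 : Submodule ℚ M := LinearMap.ker (ρ g - 1)
    let M2 : Submodule ℚ M := LinearMap.ker (ρ g + 1)
    have m1 : ∀ x, x ∈ M1 ↔ ρ g x = x := fun x => by
      show (ρ g - 1) x = 0 ↔ _
      rw [LinearMap.sub_apply, Module.End.one_apply, sub_eq_zero]
    have m2 : ∀ x, x ∈ M2 ↔ ρ g x = -x := fun x => by
      show (ρ g + 1) x = 0 ↔ _
      rw [LinearMap.add_apply, Module.End.one_apply, add_eq_zero_iff_eq_neg]
    have st1 : ∀ h, ∀ x ∈ M1, ρ h x ∈ M1 := by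
      intro h x hx
      rw [m1] at hx ⊢
      rw [← hcomm, hx]
    have st2 : ∀ h, ∀ x ∈ M2, ρ h x ∈ M2 := by
      intro h x hx
      rw [m2] at hx ⊢
      rw [← hcomm, hx, map_neg]
    have hcompl : IsCompl M1 M2 := by
      constructor
      · rw [Submodule.disjoint_def]
        intro x h1 h2'
        rw [m1] at h1
        rw [m2, h1] at h2'
        have h3 : (2 : ℚ) • x = 0 := by
          rw [two_smul]
          nth_rewrite 2 [h2']
          exact add_neg_cancel x
        exact (smul_eq_zero.mp h3).resolve_left (by norm_num)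
      · rw [codisjoint_iff, eq_top_iff]
        intro x _
        rw [Submodule.mem_sup]
        refine ⟨(1 / 2 : ℚ) • (x + ρ g x), ?_, (1 / 2 : ℚ) • (x - ρ g x), ?_, ?_⟩
        · rw [m1, map_smul, map_add, hgg, add_comm]
        · rw [m2, map_smul, map_sub, hgg, ← smul_neg, neg_sub]
        · rw [← smul_add]
          have : x + ρ g x + (x - ρ g x) = (2 : ℚ) • x := by rw [two_smul]; abel
          rw [this, smul_smul]
          norm_num
    have hsum := Submodule.finrank_add_eq_of_isCompl hcompl
    -- the second part is not zero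
    have hM2 : 0 < Module.finrank ℚ M2 := by
      by_contra h0
      have h0' : Module.finrank ℚ M2 = 0 := by omega
      rw [Submodule.finrank_eq_zero] at h0'
      apply hg1
      ext x
      have hx : x - ρ g x ∈ M2 := by
        rw [m2, map_sub, hgg, neg_sub]
      rw [h0', Submodule.mem_bot, sub_eq_zero] at hx
      exact hx.symm
    have hev : Even (Module.finrank ℚ M2) := by
      apply cord_det (cord_res ρ M2 st2) g hg
      ext x
      rw [cord_res_apply]
      have := (m2 x).mp x.2
      rw [this]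
      simp
    have hih := ih (Module.finrank ℚ M1) (by omega) (cord_res ρ M1 st1) rfl
    have heps : ∀ ε : G →* ℤˣ, Module.finrank ℚ (epsPart (cord_res ρ M1 st1) ε) =
        Module.finrank ℚ (epsPart ρ ε) := by
      intro ε
      have hle : epsPart ρ ε ≤ M1 := by
        intro x hx
        have h1 : ρ g x = ((ε g : ℤ) : ℚ) • x := hx g
        rw [m1, h1, cord_eps_sq ε g hg]
        simp
      have heq : epsPart (cord_res ρ M1 st1) ε = (epsPart ρ ε).comap M1.subtype := by
        ext x
        constructor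
        · intro hx d
          have h1 := congrArg (fun y : M1 => (y : M)) (hx d)
          exact h1
        · intro hx d
          apply Subtype.ext
          exact hx d
      rw [heq]
      exact (Submodule.comapSubtypeEquivOfLe hle).finrank_eq
    have hfs : (∑ᶠ ε : G →* ℤˣ, Module.finrank ℚ (epsPart (cord_res ρ M1 st1) ε)) =
        ∑ᶠ ε : G →* ℤˣ, Module.finrank ℚ (epsPart ρ ε) := finsum_congr heps
    rw [hfs] at hih
    rw [← hsum]
    obtain ⟨t, ht⟩ := hev
    rw [ht]
    have e1 : Module.finrank ℚ M1 + (t + t) ≡ Module.finrank ℚ M1 [MOD 2] := by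
      unfold Nat.ModEq
      omega
    exact e1.trans hih

end grp

end Pool.Agent.H.MP_ac3185_nt
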