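import Pool.Agent.H.MP_ac3185_nt.R.CorB
import Pool.Agent.H.MP_ac3185_nt.R.CorD

/-! Even relations. -/

set_option autoImplicit false

namespace Pool.Agent.H.MP_ac3185_nt

section grp

variable {G M : Type*} [Group G] [Finite G] [AddCommGroup M] [Module ℚ M] [FiniteDimensional ℚ M]

/-- Groups with a normal `2`-complement. Proof: `finrank_odd_order` for the restriction to `N` gives
`finrank M ≡ finrank (fixedVec ρ N)`; this space is a representation of the `2`-group `G ⧸ N`; every `ε` is
trivial on `N` (odd order); `finrank_two_group`. -/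
theorem finrank_two_nilpotent (N : Subgroup G) [N.Normal] (hN : Odd (Nat.card N))
    (hG : IsPGroup 2 (G ⧸ N)) (ρ : Representation ℚ G M) :
    Module.finrank ℚ M ≡
      ∑ᶠ ε : G →* ℤˣ, Module.finrank ℚ (epsPart ρ ε) [MOD 2] := by
  classical
  let σ : Representation ℚ N M := MonoidHom.comp ρ N.subtype
  have h1 := finrank_odd_order hN σ
  let W : Submodule ℚ M := fixedVec ρ (N : Set G)
  have hW1 : fixedVec σ (Set.univ : Set N) = W := by
    ext x
    constructor
    · intro hx n hn
      exact hx ⟨n, hn⟩ (Set.mem_univ _)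
    · intro hx n _
      exact hx n n.2
  rw [hW1] at h1
  have hW : ∀ g, ∀ x ∈ W, ρ g x ∈ W := by
    intro g x hx n hn
    have h2 : g⁻¹ * n * g ∈ N := by
      have := Subgroup.Normal.conj_mem (inferInstance : N.Normal) n hn g⁻¹
      simpa using this
    have h3 : ρ (g⁻¹ * n * g) x = x := hx _ h2
    have h4 : ρ n (ρ g x) = ρ g (ρ (g⁻¹ * n * g) x) := by
      have e : ρ n * ρ g = ρ g * ρ (g⁻¹ * n * g) := by
        rw [← map_mul, ← map_mul]
        congr 1
        group
      exact congrArg (fun f : Module.End ℚ M => f x) e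
    rw [h4, h3]
  let τ : Representation ℚ G W := cord_res ρ W hW
  have hτ : ∀ n ∈ N, τ n = 1 := by
    intro n hn
    ext x
    exact x.2 n hn
  let θ : Representation ℚ (G ⧸ N) W := QuotientGroup.lift N τ hτ
  have hθ : ∀ g : G, θ (g : G ⧸ N) = τ g := fun g => rfl
  have h2 := finrank_two_group hG θ
  have hodd : ∀ ε : G →* ℤˣ, ∀ n ∈ N, ε n = 1 := by
    intro ε n hn
    have e1 : ε n ^ Nat.card N = 1 := by
      rw [← map_pow]
      have e2 : (⟨n, hn⟩ : N) ^ Nat.card N = 1 := pow_card_eq_one'
      have e3 : n ^ Nat.card N = 1 := congrArg Subtype.val e2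
      rw [e3, map_one]
    obtain ⟨t, ht⟩ := hN
    rw [ht, pow_add, pow_mul, pow_one, sq, Int.units_mul_self, one_pow, one_mul] at e1
    exact e1
  have h3 : (∑ᶠ ε : (G ⧸ N) →* ℤˣ, Module.finrank ℚ (epsPart θ ε)) =
      ∑ᶠ ε : G →* ℤˣ, Module.finrank ℚ (epsPart ρ ε) := by
    refine finsum_eq_of_bijective (fun ε => ε.comp (QuotientGroup.mk' N)) ⟨?_, ?_⟩ ?_
    · intro a b hab
      ext g
      have := congrArg (fun f : G →* ℤˣ => f g) hab
      exact congrArg Units.val this
    · intro ε
      refine ⟨QuotientGroup.lift N ε (hodd ε), ?_⟩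
      ext g
      rfl
    · intro ε
      have hle : epsPart ρ (ε.comp (QuotientGroup.mk' N)) ≤ W := by
        intro x hx n hn
        have e1 : ρ n x = (((ε.comp (QuotientGroup.mk' N)) n : ℤ) : ℚ) • x := hx n
        rw [e1, hodd _ n hn]
        simp
      have heq : epsPart θ ε = (epsPart ρ (ε.comp (QuotientGroup.mk' N))).comap W.subtype := by
        ext x
        constructor
        · intro hx d
          exact congrArg (fun y : W => (y : M)) (hx (d : G ⧸ N))
        · intro hx d
          obtain ⟨g, rfl⟩ := QuotientGroup.mk_surjective d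
          apply Subtype.ext
          exact hx g
      rw [heq]
      exact (Submodule.comapSubtypeEquivOfLe hle).finrank_eq
  rw [h3] at h2
  exact h1.trans h2

end grp

end Pool.Agent.H.MP_ac3185_nt
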