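import Mathlib

/-! Linear algebra: dimensions of eigenspaces modulo 2. -/

set_option autoImplicit false

namespace Pool.Agent.H.MP_ac3185_nt

section

variable {k M : Type*} [Field k] [AddCommGroup M] [Module k M]

/-- `J² = m` with `m` not a square makes the dimension even. Proof: `Module.finrank` of a space that
is not finite dimensional is `0`. Otherwise with `n = finrank`, `det J ^ 2 = det (m • 1) = m ^ n`; if
`n = 2 t + 1` then `m = (det J / m ^ t) ^ 2` (and `m ≠ 0`, as `0` is a square). -/
theorem even_of_sq (m : k) (hm : ¬ IsSquare m) (J : Module.End k M) (hJ : ∀ x, J (J x) = m • x) :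
    Even (Module.finrank k M) := by
  by_cases hfin : FiniteDimensional k M
  · have h0 : m ≠ 0 := by
      rintro rfl
      exact hm ⟨0, by simp⟩
    have h1 : J * J = m • (1 : Module.End k M) := by
      ext x
      exact hJ x
    have h2 : LinearMap.det J * LinearMap.det J = m ^ Module.finrank k M := by
      rw [← map_mul, h1, LinearMap.det_smul, map_one, mul_one]
    by_contra hodd
    rw [Nat.not_even_iff_odd] at hodd
    obtain ⟨t, ht⟩ := hodd
    apply hm
    refine ⟨LinearMap.det J / m ^ t, ?_⟩
    rw [div_mul_div_comm, h2, ht]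
    have h3 : m ^ t ≠ 0 := pow_ne_zero _ h0
    field_simp
    ring
  · rw [Module.finrank_of_infinite_dimensional hfin]
    exact Even.zero

/-- `p* = (-1)^((p-1)/2) p`. -/
def pstar (p : ℕ) : ℤ := (-1) ^ ((p - 1) / 2) * p

/-- The Gauss sum of an operator `S` (of period `p`). -/
noncomputable def gaussOp (p : ℕ) [Fact p.Prime] (S : Module.End k M) : Module.End k M :=
  ∑ a : ZMod p, ((quadraticChar (ZMod p) a : ℤ) : k) • S ^ a.val

/-- The square of the Gauss sum.

Proof. Let `Φ = 1 + X + ... + X^(p-1)` in `ℚ[X]` (`Polynomial.cyclotomic p ℚ`,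
`Polynomial.cyclotomic_prime`) and `G = ∑ a, χ a X^(a.val)` in `ℚ[X]`. For a primitive `p`-th root of
unity `ζ` in `CyclotomicField p ℚ` (or in `ℂ`) `G(ζ)` is the Gauss sum of the quadratic character with
the primitive additive character `a ↦ ζ ^ a.val` (`ZMod.toCircle`/`AddChar.zmodChar`,
`gaussSum_sq`), so `G(ζ)² = χ(-1) p = p*` (`quadraticChar_neg_one`, `ZMod.χ₄`,
`ZMod.χ₄_eq_neg_one_pow`). Since `Φ` is the minimal polynomial of `ζ` over `ℚ`, `Φ` divides
`G² - p*` in `ℚ[X]`. Map to `k[X]` (characteristic `0`) and apply `aeval S`, using `Φ(S) = 0`. -/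
theorem gaussOp_sq [CharZero k] (p : ℕ) [Fact p.Prime] (hp : p ≠ 2) (S : Module.End k M)
    (hS : ∑ i ∈ Finset.range p, S ^ i = 0) :
    gaussOp p S * gaussOp p S = ((pstar p : ℤ) : k) • (1 : Module.End k M) := by
  classical
  have hpp : p.Prime := Fact.out
  have hodd : p % 2 = 1 := hpp.mod_two_eq_one_iff_ne_two.2 hp
  have hchar : ringChar (ZMod p) ≠ 2 := by
    rw [ZMod.ringChar_zmod_n]
    exact hp
  have hζ : IsPrimitiveRoot (Complex.exp (2 * ↑Real.pi * Complex.I / ↑p)) p :=
    Complex.isPrimitiveRoot_exp p hpp.ne_zero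
  generalize Complex.exp (2 * ↑Real.pi * Complex.I / ↑p) = ζ at hζ
  let Gz : Polynomial ℤ := ∑ a : ZMod p,
    Polynomial.C (quadraticChar (ZMod p) a) * Polynomial.X ^ a.val
  have h1 : Polynomial.aeval ζ Gz =
      gaussSum ((quadraticChar (ZMod p)).ringHomComp (Int.castRingHom ℂ))
        (AddChar.zmodChar p hζ.pow_eq_one) := by
    simp only [Gz, gaussSum, map_sum, map_mul, Polynomial.aeval_C, map_pow, Polynomial.aeval_X,
      AddChar.zmodChar_apply, MulChar.ringHomComp_apply]
    rfl
  have h2 : Polynomial.aeval ζ Gz ^ 2 = ((pstar p : ℤ) : ℂ) := by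
    rw [h1, gaussSum_sq ((MulChar.ringHomComp_ne_one_iff (Int.cast_injective (α := ℂ))).2
      (quadraticChar_ne_one hchar)) ((quadraticChar_isQuadratic (ZMod p)).comp _)
      (AddChar.zmodChar_primitive_of_primitive_root p hζ)]
    rw [MulChar.ringHomComp_apply, quadraticChar_neg_one hchar, ZMod.card,
      ZMod.χ₄_eq_neg_one_pow hodd]
    have h3 : (p - 1) / 2 = p / 2 := by omega
    simp [pstar, h3]
  have h3 : Polynomial.cyclotomic p ℤ ∣ Gz ^ 2 - Polynomial.C (pstar p) := by
    rw [Polynomial.cyclotomic_eq_minpoly hζ hpp.pos]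
    refine minpoly.isIntegrallyClosed_dvd (hζ.isIntegral hpp.pos) ?_
    rw [map_sub, map_pow, h2, Polynomial.aeval_C]
    simp
  obtain ⟨Q, hQ⟩ := h3
  have h4 : Polynomial.aeval S (Polynomial.cyclotomic p ℤ) = 0 := by
    rw [Polynomial.cyclotomic_prime]
    simpa using hS
  have h5 : Polynomial.aeval S Gz = gaussOp p S := by
    simp only [Gz, gaussOp, map_sum, map_mul, Polynomial.aeval_C, map_pow, Polynomial.aeval_X]
    refine Finset.sum_congr rfl fun a _ => ?_
    rw [Int.cast_smul_eq_zsmul, ← Algebra.smul_def]
  have h6 := congrArg (Polynomial.aeval S) hQ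
  rw [map_mul, h4, zero_mul, map_sub, map_pow, h5, Polynomial.aeval_C, sub_eq_zero, pow_two] at h6
  rw [h6, Int.cast_smul_eq_zsmul, Algebra.algebraMap_eq_smul_one]

/-- An operator with `S^p = 1` (`p` an odd prime, `p*` not a square): the dimension is congruent
to the dimension of the space of fixed vectors.

Proof. (Finite dimensional case.) `M` is the direct sum of `ker (S - 1)` and
`N = ker (1 + S + ... + S^(p-1))` (`p • x = (∑ S^i) x + ∑ (x - S^i x)`; the first summand is fixed by
`S`, the second one lies in `N`; the intersection is `0` as `p ≠ 0` in `k`). `N` is stable under `S`;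
apply `gaussOp_sq` and `even_of_sq` to the restriction of `S` to `N`. -/
theorem finrank_parity_prime [CharZero k] [FiniteDimensional k M] (p : ℕ) [Fact p.Prime]
    (hp : p ≠ 2) (hk : ¬ IsSquare ((pstar p : ℤ) : k)) (S : Module.End k M) (hS : S ^ p = 1) :
    Module.finrank k M ≡ Module.finrank k (LinearMap.ker (S - 1)) [MOD 2] := by
  have h1 := LinearMap.finrank_range_add_finrank_ker (S - 1)
  have hst : ∀ x ∈ LinearMap.range (S - 1), S x ∈ LinearMap.range (S - 1) := by
    rintro _ ⟨y, rfl⟩
    exact ⟨S y, by simp⟩
  have hsum : (∑ i ∈ Finset.range p, S ^ i) * (S - 1) = 0 := by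
    rw [geom_sum_mul, hS, sub_self]
  have h2 : ∑ i ∈ Finset.range p, (S.restrict hst) ^ i = 0 := by
    ext ⟨x, y, rfl⟩
    have h3 := congrArg (fun F : Module.End k M => F y) hsum
    simp only [LinearMap.sum_apply, Module.End.mul_apply, LinearMap.zero_apply] at h3
    simp only [LinearMap.sum_apply, LinearMap.zero_apply, Submodule.coe_sum, Submodule.coe_zero]
    rw [← h3]
    refine Finset.sum_congr rfl fun i _ => ?_
    rw [Module.End.pow_restrict i hst]
    rfl
  have h3 := gaussOp_sq p hp (S.restrict hst) h2
  have h4 : Even (Module.finrank k (LinearMap.range (S - 1))) := by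
    refine even_of_sq _ hk (gaussOp p (S.restrict hst)) fun x => ?_
    have h5 := congrArg (fun F : Module.End k (LinearMap.range (S - 1)) => F x) h3
    simpa using h5
  obtain ⟨t, ht⟩ := h4
  rw [← h1, ht]
  unfold Nat.ModEq
  omega

/-- the kernel of `T² - 1` and the restriction of `T` to a stable subspace containing it -/
theorem lin_ker_restrict [FiniteDimensional k M] (T : Module.End k M) (N : Submodule k M)
    (hN : ∀ x ∈ N, T x ∈ N) (hle : LinearMap.ker (T ^ 2 - 1) ≤ N) :
    Module.finrank k (LinearMap.ker ((T.restrict hN) ^ 2 - 1)) =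
      Module.finrank k (LinearMap.ker (T ^ 2 - 1)) := by
  have h1 : (LinearMap.ker ((T.restrict hN) ^ 2 - 1)).map N.subtype = LinearMap.ker (T ^ 2 - 1) := by
    ext x
    simp only [Submodule.mem_map, LinearMap.mem_ker]
    constructor
    · rintro ⟨⟨y, hy⟩, h2, rfl⟩
      have h3 := congrArg Subtype.val h2
      simp only [pow_two, LinearMap.sub_apply, Module.End.mul_apply, Module.End.one_apply,
        LinearMap.restrict_apply] at h3 ⊢
      exact h3
    · intro h2
      refine ⟨⟨x, hle h2⟩, ?_, rfl⟩
      apply Subtype.ext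
      simp only [pow_two, LinearMap.sub_apply, Module.End.mul_apply, Module.End.one_apply,
        LinearMap.restrict_apply] at h2 ⊢
      exact h2
  rw [← h1]
  exact (Submodule.equivMapOfInjective N.subtype (Submodule.injective_subtype N) _).finrank_eq

theorem lin_parity.{u, v} {k : Type u} [Field k] [CharZero k] (h4 : ¬ IsSquare (-1 : k)) (n : ℕ)
    (hn : 0 < n) (hp : ∀ p : ℕ, p.Prime → p ≠ 2 → p ∣ n → ¬ IsSquare ((pstar p : ℤ) : k))
    (M : Type v) [AddCommGroup M] [Module k M] [FiniteDimensional k M]
    (T : Module.End k M) (hT : T ^ n = 1) :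
    Module.finrank k M ≡ Module.finrank k (LinearMap.ker (T ^ 2 - 1)) [MOD 2] := by
  induction n using Nat.strong_induction_on generalizing M with
  | _ n ih =>
    -- the general step
    have step : ∀ m : ℕ, m ∣ n → 0 < m → m < n →
        Module.finrank k M ≡ Module.finrank k (LinearMap.ker (T ^ m - 1)) [MOD 2] →
        LinearMap.ker (T ^ 2 - 1) ≤ LinearMap.ker (T ^ m - 1) →
        Module.finrank k M ≡ Module.finrank k (LinearMap.ker (T ^ 2 - 1)) [MOD 2] := by
      intro m hmn hm hlt h1 h2
      have hN : ∀ x ∈ LinearMap.ker (T ^ m - 1), T x ∈ LinearMap.ker (T ^ m - 1) := by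
        intro x hx
        rw [LinearMap.mem_ker] at hx ⊢
        have h3 : (T ^ m - 1) * T = T * (T ^ m - 1) := by
          rw [sub_mul, mul_sub, ← pow_succ, ← pow_succ', one_mul, mul_one]
        have h5 := congrArg (fun F : Module.End k M => F x) h3
        simp only [Module.End.mul_apply] at h5
        rw [h5, hx, map_zero]
      have h3 : (T.restrict hN) ^ m = 1 := by
        rw [Module.End.pow_restrict m hN]
        ext ⟨x, hx⟩
        rw [LinearMap.mem_ker, LinearMap.sub_apply, sub_eq_zero] at hx
        exact hx
      have h5 := ih m hlt hm (fun p h6 h7 h8 => hp p h6 h7 (h8.trans hmn)) _ (T.restrict hN) h3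
      rw [lin_ker_restrict T _ hN h2] at h5
      exact h1.trans h5
    by_cases hodd : ∃ p : ℕ, p.Prime ∧ p ≠ 2 ∧ p ∣ n
    · obtain ⟨p, hpp, hp2, m, rfl⟩ := hodd
      have : Fact p.Prime := ⟨hpp⟩
      have hm : 0 < m := Nat.pos_of_mul_pos_left hn
      have hS : (T ^ m) ^ p = 1 := by
        rw [← pow_mul, mul_comm m p, hT]
      refine step m ⟨p, mul_comm _ _⟩ hm ?_
        (finrank_parity_prime p hp2 (hp p hpp hp2 ⟨m, rfl⟩) (T ^ m) hS) ?_
      · have := hpp.two_le
        nlinarith
      · intro x hx
        rw [LinearMap.mem_ker, LinearMap.sub_apply, sub_eq_zero] at hx ⊢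
        have h1 : ∀ j : ℕ, (T ^ (2 * j)) x = x := by
          intro j
          induction j with
          | zero => simp
          | succ j ihj =>
            have : 2 * (j + 1) = 2 * j + 2 := by ring
            rw [this, pow_add, Module.End.mul_apply, hx, Module.End.one_apply, ihj]
        have hpo : p % 2 = 1 := hpp.mod_two_eq_one_iff_ne_two.2 hp2
        have h2 : p * m = m + 2 * ((p - 1) / 2 * m) := by
          have h3 : p = 1 + 2 * ((p - 1) / 2) := by omega
          calc p * m = (1 + 2 * ((p - 1) / 2)) * m := by rw [← h3]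
            _ = m + 2 * ((p - 1) / 2 * m) := by ring
        have h3 : (T ^ (p * m)) x = x := by
          rw [hT]
          rfl
        rw [h2, pow_add, Module.End.mul_apply, h1] at h3
        exact h3
    · by_cases h2n : n ∣ 2
      · have h1 : T ^ 2 = 1 := by
          obtain ⟨m, hm⟩ := h2n
          rw [hm, pow_mul, hT, one_pow]
        rw [h1, sub_self, LinearMap.ker_zero, finrank_top]
      · have h4n : 4 ∣ n := by
          obtain ⟨r, hr⟩ : ∃ r, n = 2 ^ r := by
            refine ⟨n.factorization 2, ?_⟩
            refine Nat.eq_of_factorization_eq hn.ne' (by positivity) fun q => ?_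
            rw [Nat.Prime.factorization_pow Nat.prime_two]
            by_cases hq : q = 2
            · subst hq
              simp
            · rw [Finsupp.single_eq_of_ne (by simpa using hq)]
              by_cases hqp : q.Prime
              · exact Nat.factorization_eq_zero_of_not_dvd fun hd => hodd ⟨q, hqp, hq, hd⟩
              · exact Nat.factorization_eq_zero_of_not_prime n hqp
          rcases r with _ | _ | r
          · exact absurd (by rw [hr]; norm_num) h2n
          · exact absurd (by rw [hr]; norm_num) h2n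
          · exact ⟨2 ^ r, by rw [hr]; ring⟩
        obtain ⟨m, rfl⟩ := h4n
        have hm : 0 < m := by omega
        have hS : T ^ (2 * m) * T ^ (2 * m) = 1 := by
          rw [← pow_add, ← hT]
          congr 1
          ring
        refine step (2 * m) ⟨2, by ring⟩ (by omega) (by omega) ?_ ?_
        · have h1 := LinearMap.finrank_range_add_finrank_ker (T ^ (2 * m) - 1)
          have hst : ∀ x ∈ LinearMap.range (T ^ (2 * m) - 1),
              (T ^ m) x ∈ LinearMap.range (T ^ (2 * m) - 1) := by
            rintro _ ⟨y, rfl⟩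
            refine ⟨(T ^ m) y, ?_⟩
            have h3 : (T ^ (2 * m) - 1) * T ^ m = T ^ m * (T ^ (2 * m) - 1) := by
              rw [sub_mul, mul_sub, ← pow_add, ← pow_add, one_mul, mul_one, add_comm]
            exact congrArg (fun F : Module.End k M => F y) h3
          have h5 : Even (Module.finrank k (LinearMap.range (T ^ (2 * m) - 1))) := by
            refine even_of_sq (-1) h4 ((T ^ m).restrict hst) ?_
            rintro ⟨x, y, rfl⟩
            apply Subtype.ext
            have h6 : T ^ m * T ^ m * (T ^ (2 * m) - 1) = (-1 : k) • (T ^ (2 * m) - 1) := by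
              rw [← pow_add, ← two_mul, mul_sub, hS, mul_one, neg_one_smul, neg_sub]
            exact congrArg (fun F : Module.End k M => F y) h6
          obtain ⟨t, ht⟩ := h5
          rw [← h1, ht]
          unfold Nat.ModEq
          omega
        · intro x hx
          rw [LinearMap.mem_ker, LinearMap.sub_apply, sub_eq_zero] at hx ⊢
          have h1 : ∀ j : ℕ, (T ^ (2 * j)) x = x := by
            intro j
            induction j with
            | zero => simp
            | succ j ihj =>
              have : 2 * (j + 1) = 2 * j + 2 := by ring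
              rw [this, pow_add, Module.End.mul_apply, hx, Module.End.one_apply, ihj]
          rw [h1]
          rfl

/-- An operator of finite order: the dimension is congruent to the dimension of `ker (T ^ 2 - 1)`.

Proof. Strong induction on `n` (for all spaces of a fixed universe). If an odd prime `p` divides
`n`, then `S = T^(n/p)` has `S^p = 1`, so `finrank M ≡ finrank (ker (S - 1))` by
`finrank_parity_prime`; `N = ker (S - 1)` is stable under `T` and `T^(n/p) = 1` on `N`; by induction
`finrank N ≡ finrank (ker (T|N ^ 2 - 1))`. And `ker (T^2 - 1)` is contained in `N`: if `T² x = x`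
then `S² x = x` and `S^p x = x`, so `S x = x` as `p` is odd. If `n` is a power of `2` and `4 ∣ n`, then `M`
is the direct sum of `ker (T^(n/2) - 1)` and `ker (T^(n/2) + 1)`; on the second one `J = T^(n/4)` has
`J^2 = -1`, so its dimension is even (`even_of_sq`), `ker (T^2 - 1)` is contained in the first one,
and induction applies to the first one. If `n` divides `2` then `ker (T^2 - 1) = M`. -/
theorem finrank_parity_op [CharZero k] [FiniteDimensional k M] (h4 : ¬ IsSquare (-1 : k)) (n : ℕ)
    (hn : 0 < n) (hp : ∀ p : ℕ, p.Prime → p ≠ 2 → p ∣ n → ¬ IsSquare ((pstar p : ℤ) : k))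
    (T : Module.End k M) (hT : T ^ n = 1) :
    Module.finrank k M ≡ Module.finrank k (LinearMap.ker (T ^ 2 - 1)) [MOD 2] := by
  exact lin_parity h4 n hn hp M T hT

end

end Pool.Agent.H.MP_ac3185_nt
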