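import Pool.Agent.H.MP_ac3185_nt.R.Fix
import Pool.Agent.H.MP_ac3185_nt.R.Lin

/-! Dimensions of the spaces of fixed vectors of a commutative action, modulo 2. -/

set_option autoImplicit false

namespace Pool.Agent.H.MP_ac3185_nt

variable {k D M : Type*} [Field k] [Group D] [AddCommGroup M] [Module k M]

/-- The `ε`-part of a representation, for a character `ε` with values `±1`. -/
def epsPart (ρ : Representation k D M) (ε : D →* ℤˣ) : Submodule k M where
  carrier := {x | ∀ d, ρ d x = ((ε d : ℤ) : k) • x}
  zero_mem' := fun d => by simp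
  add_mem' := fun {x y} hx hy d => by rw [map_add, hx d, hy d, smul_add]
  smul_mem' := fun a x hx d => by rw [map_smul, hx d, smul_comm]

/-- The joint eigenspace of a family of operators for a family of signs. -/
def mult_joint {ι : Type*} (T : ι → Module.End k M) (σ : ι → ℤˣ) : Submodule k M where
  carrier := {x | ∀ i, T i x = ((σ i : ℤ) : k) • x}
  zero_mem' := fun i => by simp
  add_mem' := fun {x y} hx hy i => by rw [map_add, hx i, hy i, smul_add]
  smul_mem' := fun a x hx i => by rw [map_smul, hx i, smul_comm]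

theorem mult_split [CharZero k] [FiniteDimensional k M] (T : Module.End k M)
    (hT : ∀ x, T (T x) = x) (N : Submodule k M) (hN : ∀ x ∈ N, T x ∈ N) :
    Module.finrank k N = Module.finrank k ↥(N ⊓ LinearMap.ker (T - 1)) +
      Module.finrank k ↥(N ⊓ LinearMap.ker (T + 1)) := by
  have h := Submodule.finrank_sup_add_finrank_inf_eq (N ⊓ LinearMap.ker (T - 1))
    (N ⊓ LinearMap.ker (T + 1))
  have h1 : (N ⊓ LinearMap.ker (T - 1)) ⊔ (N ⊓ LinearMap.ker (T + 1)) = N := by
    apply le_antisymm
    · exact sup_le inf_le_left inf_le_left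
    · intro x hx
      have e : x = (2 : k)⁻¹ • (x + T x) + (2 : k)⁻¹ • (x - T x) := by
        rw [← smul_add, add_add_sub_cancel, ← two_smul k x, smul_smul,
          inv_mul_cancel₀ (two_ne_zero), one_smul]
      rw [e]
      refine Submodule.add_mem_sup ⟨N.smul_mem _ (N.add_mem hx (hN x hx)), ?_⟩
        ⟨N.smul_mem _ (N.sub_mem hx (hN x hx)), ?_⟩
      · rw [SetLike.mem_coe, LinearMap.mem_ker, LinearMap.sub_apply, Module.End.one_apply, map_smul, map_add, hT,
          add_comm (T x) x, sub_self]
      · rw [SetLike.mem_coe, LinearMap.mem_ker, LinearMap.add_apply, Module.End.one_apply, map_smul, map_sub, hT,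
          ← smul_add, sub_add_sub_cancel, sub_self, smul_zero]
  have h2 : (N ⊓ LinearMap.ker (T - 1)) ⊓ (N ⊓ LinearMap.ker (T + 1)) = ⊥ := by
    rw [eq_bot_iff]
    rintro x ⟨⟨-, hx1⟩, ⟨-, hx2⟩⟩
    have e1 : T x - x = 0 := hx1
    have e2 : T x + x = 0 := hx2
    have e3 : (2 : k) • x = 0 := by
      rw [two_smul]
      calc x + x = (T x + x) - (T x - x) := by abel
        _ = 0 := by rw [e1, e2, sub_zero]
    rcases smul_eq_zero.1 e3 with h | h
    · exact absurd h two_ne_zero
    · exact h
  rw [h1, h2, finrank_bot, add_zero] at h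
  exact h

theorem mult_sum_units (f : ℤˣ → ℕ) : ∑ᶠ a, f a = f 1 + f (-1) := by
  rw [finsum_eq_sum_of_fintype, UnitsInt.univ, Finset.sum_pair (by decide)]

theorem mult_finite [CharZero k] [FiniteDimensional k M] (ι : Type*) [Finite ι] :
    ∀ (T : ι → Module.End k M), (∀ i j x, T i (T j x) = T j (T i x)) → (∀ i x, T i (T i x) = x) →
      ∀ N : Submodule k M, (∀ i, ∀ x ∈ N, T i x ∈ N) →
        Module.finrank k N = ∑ᶠ σ : ι → ℤˣ, Module.finrank k ↥(N ⊓ mult_joint T σ) := by
  refine Finite.induction_empty_option (P := fun ι => ∀ (T : ι → Module.End k M),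
    (∀ i j x, T i (T j x) = T j (T i x)) → (∀ i x, T i (T i x) = x) →
      ∀ N : Submodule k M, (∀ i, ∀ x ∈ N, T i x ∈ N) →
        Module.finrank k N = ∑ᶠ σ : ι → ℤˣ, Module.finrank k ↥(N ⊓ mult_joint T σ)) ?_ ?_ ?_ ι
  · intro α β e h T hc h2 N hN
    rw [h (fun a => T (e a)) (fun i j x => hc _ _ x) (fun i x => h2 _ x) N (fun i => hN _)]
    rw [← finsum_comp_equiv (e.arrowCongr (Equiv.refl ℤˣ))]
    refine finsum_congr fun σ => ?_
    have : mult_joint (fun a => T (e a)) σ =
        mult_joint T (e.arrowCongr (Equiv.refl ℤˣ) σ) := by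
      ext x
      constructor
      · intro hx b
        have := hx (e.symm b)
        simpa using this
      · intro hx a
        have := hx (e a)
        simpa using this
    rw [this]
  · intro T hc h2 N hN
    rw [finsum_unique]
    have : ∀ σ, mult_joint T σ = ⊤ := by
      intro σ
      rw [eq_top_iff]
      intro x _ i
      exact i.elim
    rw [this, inf_top_eq]
  · intro α _ ih T hc h2 N hN
    rw [mult_split (T none) (h2 none) N (hN none)]
    rw [ih (fun a => T (some a)) (fun i j x => hc _ _ x) (fun i x => h2 _ x)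
      (N ⊓ LinearMap.ker (T none - 1)) (fun i x hx => ⟨hN _ x hx.1, ?_⟩),
      ih (fun a => T (some a)) (fun i j x => hc _ _ x) (fun i x => h2 _ x)
      (N ⊓ LinearMap.ker (T none + 1)) (fun i x hx => ⟨hN _ x hx.1, ?_⟩)]
    · rw [← finsum_comp_equiv (Equiv.piOptionEquivProd (β := fun _ : Option α => ℤˣ)).symm]
      rw [finsum_curry _ (Set.toFinite _)]
      rw [mult_sum_units]
      congr 1
      · refine finsum_congr fun σ => ?_
        have : N ⊓ LinearMap.ker (T none - 1) ⊓ mult_joint (fun a => T (some a)) σ =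
            N ⊓ mult_joint T ((Equiv.piOptionEquivProd (β := fun _ : Option α => ℤˣ)).symm
              (1, σ)) := by
          ext x
          constructor
          · rintro ⟨⟨h1, h3⟩, h4⟩
            refine ⟨h1, ?_⟩
            rintro (_ | a)
            · have h5 : T none x - x = 0 := h3
              simpa using sub_eq_zero.1 h5
            · simpa using h4 a
          · rintro ⟨h1, h3⟩
            refine ⟨⟨h1, ?_⟩, fun a => ?_⟩
            · have := h3 none
              simpa [sub_eq_zero] using this
            · simpa using h3 (some a)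
        rw [this]
      · refine finsum_congr fun σ => ?_
        have : N ⊓ LinearMap.ker (T none + 1) ⊓ mult_joint (fun a => T (some a)) σ =
            N ⊓ mult_joint T ((Equiv.piOptionEquivProd (β := fun _ : Option α => ℤˣ)).symm
              (-1, σ)) := by
          ext x
          constructor
          · rintro ⟨⟨h1, h3⟩, h4⟩
            refine ⟨h1, ?_⟩
            rintro (_ | a)
            · have h5 : T none x + x = 0 := h3
              simpa using eq_neg_of_add_eq_zero_left h5
            · simpa using h4 a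
          · rintro ⟨h1, h3⟩
            refine ⟨⟨h1, ?_⟩, fun a => ?_⟩
            · have := h3 none
              have h5 : T none x = -x := by simpa using this
              show T none x + x = 0
              rw [h5, neg_add_cancel]
            · simpa using h3 (some a)
        rw [this]
    · have h5 : T none x + x = 0 := hx.2
      show T none (T (some i) x) + T (some i) x = 0
      rw [hc, ← map_add, h5, map_zero]
    · have h5 : T none x - x = 0 := hx.2
      show T none (T (some i) x) - T (some i) x = 0
      rw [hc, sub_eq_zero.1 h5, sub_self]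

theorem mult_comm {ρ : Representation k D M} (hc : ∀ a b, ρ (a * b) = ρ (b * a)) (a b : D) (x : M) :
    ρ a (ρ b x) = ρ b (ρ a x) := by
  have h := LinearMap.congr_fun (hc a b) x
  rwa [map_mul, map_mul, Module.End.mul_apply, Module.End.mul_apply] at h

theorem mult_stable {ρ : Representation k D M} (hc : ∀ a b, ρ (a * b) = ρ (b * a)) (H : Set D)
    (d : D) : ∀ x ∈ fixedVec ρ H, ρ d x ∈ fixedVec ρ H := by
  intro x hx h hh
  rw [mult_comm hc, hx h hh]

theorem mult_hom [CharZero k] {ρ : Representation k D M} {σ : D → ℤˣ} {x : M} (hx : x ≠ 0)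
    (h : ∀ d, ρ d x = ((σ d : ℤ) : k) • x) : ∃ ε : D →* ℤˣ, ⇑ε = σ := by
  have key : ∀ a b : ℤˣ, ((a : ℤ) : k) • x = ((b : ℤ) : k) • x → a = b := by
    intro a b hab
    have h1 := smul_left_injective k hx hab
    exact Units.ext (Int.cast_injective h1)
  refine ⟨⟨⟨σ, ?_⟩, ?_⟩, rfl⟩
  · apply key
    rw [← h, map_one, Module.End.one_apply, Units.val_one, Int.cast_one, one_smul]
  · intro a b
    apply key
    rw [← h, map_mul, Module.End.mul_apply, h b, map_smul, h a, smul_smul, Units.val_mul,
      Int.cast_mul, mul_comm]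

theorem mult_zero [CharZero k] (ρ : Representation k D M) (N : Submodule k M) (σ : D → ℤˣ)
    (hσ : σ ∉ Set.range (fun ε : D →* ℤˣ => (⇑ε : D → ℤˣ))) :
    Module.finrank k ↥(N ⊓ mult_joint (fun d => ρ d) σ) = 0 := by
  have : N ⊓ mult_joint (fun d => ρ d) σ = ⊥ := by
    rw [eq_bot_iff]
    rintro x ⟨-, hx⟩
    by_contra hne
    obtain ⟨ε, hε⟩ := mult_hom (ρ := ρ) (σ := σ) hne hx
    exact hσ ⟨ε, hε⟩
  rw [this, finrank_bot]

theorem mult_val [CharZero k] (ρ : Representation k D M) (S : Subgroup D) (ε : D →* ℤˣ) :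
    Module.finrank k ↥(fixedVec ρ (S : Set D) ⊓ mult_joint (fun d => ρ d) ⇑ε) =
      (open Classical in if ∀ s ∈ S, ε s = 1 then Module.finrank k (epsPart ρ ε) else 0) := by
  split_ifs with h
  · have : fixedVec ρ (S : Set D) ⊓ mult_joint (fun d => ρ d) ⇑ε = epsPart ρ ε := by
      apply le_antisymm
      · exact fun x hx => hx.2
      · intro x hx
        refine ⟨fun s hs => ?_, hx⟩
        rw [hx s, h s hs, Units.val_one, Int.cast_one, one_smul]
    rw [this]
  · push Not at h
    obtain ⟨s, hs, hne⟩ := h
    have hs1 : ε s = -1 := (Int.units_eq_one_or (ε s)).resolve_left hne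
    have : fixedVec ρ (S : Set D) ⊓ mult_joint (fun d => ρ d) ⇑ε = ⊥ := by
      rw [eq_bot_iff]
      rintro x ⟨hx1, hx2⟩
      have e1 : ρ s x = x := hx1 s hs
      have e2 : ρ s x = ((ε s : ℤ) : k) • x := hx2 s
      rw [e1, hs1] at e2
      have e3 : (2 : k) • x = 0 := by
        have e4 : x = -x := by simpa using e2
        rw [two_smul]
        nth_rewrite 2 [e4]
        rw [add_neg_cancel]
      rcases smul_eq_zero.1 e3 with h | h
      · exact absurd h two_ne_zero
      · exact h
    rw [this, finrank_bot]

/-- Commuting involutions can be diagonalised simultaneously; dimensions of fixed vectors.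

Proof. Strong induction on `finrank k M`. If every `ρ d` is the scalar `1` or `-1` (and `M ≠ 0`) then
`ρ d = ε d` for a homomorphism `ε : D →* ℤˣ` (characteristic `0`, so `1 ≠ -1`), `M = epsPart ρ ε`, the
other parts are `0`, and `fixedVec ρ S` is `M` if `ε = 1` on `S` and `0` otherwise. If some `ρ d` is
not a scalar `±1` then `M` is the direct sum of the nonzero proper subspaces `ker (ρ d - 1)` and
`ker (ρ d + 1)`, which are stable under `D` because the operators commute
(`ρ a ρ b = ρ (a b) = ρ (b a)`), and both `fixedVec` and `epsPart` are the direct sums of the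
corresponding subspaces of the two parts. (`M = 0` is trivial.) -/
theorem finrank_involutions [Finite D] [CharZero k] [FiniteDimensional k M]
    (ρ : Representation k D M) (hc : ∀ a b, ρ (a * b) = ρ (b * a)) (h2 : ∀ a, ρ (a * a) = 1)
    (S : Subgroup D) :
    Module.finrank k (fixedVec ρ (S : Set D)) =
      ∑ᶠ ε : D →* ℤˣ, (open Classical in
        if ∀ s ∈ S, ε s = 1 then Module.finrank k (epsPart ρ ε) else 0) := by
  have hinv : ∀ a x, ρ a (ρ a x) = x := by
    intro a x
    have h := LinearMap.congr_fun (h2 a) x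
    rwa [map_mul, Module.End.mul_apply, Module.End.one_apply] at h
  rw [mult_finite D (fun d => ρ d) (fun a b x => mult_comm hc a b x) hinv
    (fixedVec ρ (S : Set D)) (mult_stable hc _)]
  rw [← finsum_mem_univ, finsum_mem_inter_support_eq
    (fun σ : D → ℤˣ => Module.finrank k ↥(fixedVec ρ (S : Set D) ⊓ mult_joint (fun d => ρ d) σ))
    Set.univ (Set.range (fun ε : D →* ℤˣ => (⇑ε : D → ℤˣ))) ?_,
    finsum_mem_range DFunLike.coe_injective]
  · exact finsum_congr fun ε => mult_val ρ S ε
  · ext σ
    constructor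
    · rintro ⟨-, h⟩
      refine ⟨?_, h⟩
      by_contra hσ
      exact h (mult_zero ρ _ σ hσ)
    · rintro ⟨-, h⟩
      exact ⟨Set.mem_univ _, h⟩

theorem mult_op [Finite D] [CharZero k] [FiniteDimensional k M] (h4 : ¬ IsSquare (-1 : k))
    (hp : ∀ p : ℕ, p.Prime → p ≠ 2 → p ∣ Nat.card D → ¬ IsSquare ((pstar p : ℤ) : k))
    {ρ : Representation k D M} (hc : ∀ a b, ρ (a * b) = ρ (b * a)) (H : Set D) (d : D) :
    Module.finrank k (fixedVec ρ H) ≡ Module.finrank k (fixedVec ρ (insert (d * d) H)) [MOD 2] := by
  have hst := mult_stable hc H d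
  have hpow : ∀ n : ℕ, ∀ x : fixedVec ρ H,
      ((((ρ d).restrict hst) ^ n) x : M) = ρ (d ^ n) x := by
    intro n
    induction n with
    | zero => intro x; simp
    | succ n ih =>
      intro x
      rw [pow_succ, Module.End.mul_apply, ih, pow_succ, map_mul, Module.End.mul_apply,
        LinearMap.coe_restrict_apply]
  have hT : ((ρ d).restrict hst) ^ (Nat.card D) = 1 := by
    ext x
    rw [hpow, pow_card_eq_one', map_one]
    rfl
  have h := finrank_parity_op h4 (Nat.card D) Nat.card_pos hp ((ρ d).restrict hst) hT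
  have e : Submodule.map (fixedVec ρ H).subtype
      (LinearMap.ker (((ρ d).restrict hst) ^ 2 - 1)) = fixedVec ρ (insert (d * d) H) := by
    ext x
    constructor
    · rintro ⟨y, hy, rfl⟩
      have h1 : (((ρ d).restrict hst) ^ 2) y - y = 0 := hy
      have h2 : ((((ρ d).restrict hst) ^ 2) y : M) = y := congrArg Subtype.val (sub_eq_zero.1 h1)
      rw [hpow, pow_two] at h2
      rintro g (hg | hg)
      · rw [hg]
        exact h2
      · exact y.2 g hg
    · intro hx
      refine ⟨⟨x, fun g hg => hx g (Or.inr hg)⟩, ?_, rfl⟩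
      show (((ρ d).restrict hst) ^ 2) _ - _ = 0
      rw [sub_eq_zero]
      apply Subtype.ext
      rw [hpow, pow_two]
      exact hx _ (Or.inl rfl)
  rw [← e, Submodule.finrank_map_subtype_eq]
  exact h

/-- Restriction to the vectors fixed by all squares does not change the parity of the dimension.

Proof. For a finite set `E` of elements of `D` (start with `∅`, end with all of `D`) let
`X_E = {x ∈ fixedVec ρ S | ∀ d ∈ E, ρ (d * d) x = x}`. All `X_E` are stable under `D` because the
operators commute. If `d ∉ E` then `X_(E ∪ {d})` is the kernel of `T ^ 2 - 1` for the restriction `T` of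
`ρ d` to `X_E`, and `T ^ (Nat.card D) = 1`; apply `finrank_parity_op`. -/
theorem finrank_squares [Finite D] [CharZero k] [FiniteDimensional k M] (h4 : ¬ IsSquare (-1 : k))
    (hp : ∀ p : ℕ, p.Prime → p ≠ 2 → p ∣ Nat.card D → ¬ IsSquare ((pstar p : ℤ) : k))
    (ρ : Representation k D M) (hc : ∀ a b, ρ (a * b) = ρ (b * a)) (S : Subgroup D) :
    Module.finrank k (fixedVec ρ (S : Set D)) ≡
      Module.finrank k (fixedVec ρ ((S : Set D) ∪ {x | ∃ d, x = d * d})) [MOD 2] := by
  have key : ∀ E : Set D, E.Finite → Module.finrank k (fixedVec ρ (S : Set D)) ≡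
      Module.finrank k (fixedVec ρ ((S : Set D) ∪ (fun d => d * d) '' E)) [MOD 2] := by
    intro E hE
    induction E, hE using Set.Finite.induction_on with
    | empty => rw [Set.image_empty, Set.union_empty]
    | @insert a s _ _ ih =>
      rw [Set.image_insert_eq, Set.union_insert]
      exact ih.trans (mult_op h4 hp hc _ a)
  have h := key Set.univ Set.finite_univ
  have e : (fun d : D => d * d) '' Set.univ = {x | ∃ d, x = d * d} := by
    ext x
    constructor
    · rintro ⟨d, -, rfl⟩
      exact ⟨d, rfl⟩
    · rintro ⟨d, rfl⟩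
      exact ⟨d, trivial, rfl⟩
  rwa [e] at h

/-- The restriction of a commutative action to a space of fixed vectors. -/
def mult_res {ρ : Representation k D M} (hc : ∀ a b, ρ (a * b) = ρ (b * a)) (H : Set D) :
    Representation k D (fixedVec ρ H) where
  toFun d := (ρ d).restrict (mult_stable hc H d)
  map_one' := by
    ext x
    rw [LinearMap.coe_restrict_apply, map_one]
    rfl
  map_mul' a b := by
    ext x
    rw [LinearMap.coe_restrict_apply, map_mul]
    rfl

theorem mult_res_apply {ρ : Representation k D M} (hc : ∀ a b, ρ (a * b) = ρ (b * a)) (H : Set D)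
    (d : D) (x : fixedVec ρ H) : ((mult_res hc H d x : fixedVec ρ H) : M) = ρ d x := rfl

/-- The parity of the dimensions of the spaces of fixed vectors of a commutative action.

Proof. `M' = fixedVec ρ {x | ∃ d, x = d * d}` is stable under `D` (the operators commute); let `ρ'` be
the representation on `M'` and `u ε = finrank (epsPart ρ' ε)`. By `finrank_squares` the dimension of
`fixedVec ρ S` is congruent to the one of `fixedVec ρ (S ∪ squares)`, which is isomorphic to
`fixedVec ρ' S`; apply `finrank_involutions` to `ρ'`. -/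
theorem exists_mult [Finite D] [CharZero k] [FiniteDimensional k M] (h4 : ¬ IsSquare (-1 : k))
    (hp : ∀ p : ℕ, p.Prime → p ≠ 2 → p ∣ Nat.card D → ¬ IsSquare ((pstar p : ℤ) : k))
    (ρ : Representation k D M) (hc : ∀ a b, ρ (a * b) = ρ (b * a)) :
    ∃ u : (D →* ℤˣ) → ℕ, ∀ S : Subgroup D,
      Module.finrank k (fixedVec ρ (S : Set D)) ≡
        ∑ᶠ ε : D →* ℤˣ, (open Classical in if ∀ s ∈ S, ε s = 1 then u ε else 0) [MOD 2] := by
  have h1 : ∀ a b, mult_res hc {x | ∃ d, x = d * d} (a * b) =
      mult_res hc {x | ∃ d, x = d * d} (b * a) := by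
    intro a b
    ext x
    rw [mult_res_apply, mult_res_apply, hc]
  have h2 : ∀ a, mult_res hc {x | ∃ d, x = d * d} (a * a) = 1 := by
    intro a
    ext x
    rw [mult_res_apply]
    exact x.2 _ ⟨a, rfl⟩
  refine ⟨fun ε => Module.finrank k (epsPart (mult_res hc {x | ∃ d, x = d * d}) ε), fun S => ?_⟩
  have h3 := finrank_squares h4 hp ρ hc S
  have h5 := finrank_involutions (mult_res hc {x | ∃ d, x = d * d}) h1 h2 S
  have e : Submodule.map (fixedVec ρ {x | ∃ d, x = d * d}).subtype
      (fixedVec (mult_res hc {x | ∃ d, x = d * d}) (S : Set D)) =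
      fixedVec ρ ((S : Set D) ∪ {x | ∃ d, x = d * d}) := by
    ext x
    constructor
    · rintro ⟨y, hy, rfl⟩
      rintro g (hg | hg)
      · exact congrArg Subtype.val (hy g hg)
      · exact y.2 g hg
    · intro hx
      exact ⟨⟨x, fun g hg => hx g (Or.inr hg)⟩, fun g hg => Subtype.ext (hx g (Or.inl hg)), rfl⟩
  rw [← e, Submodule.finrank_map_subtype_eq, h5] at h3
  exact h3

end Pool.Agent.H.MP_ac3185_nt
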