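import Pool.Agent.H.MP_ac3185_nt.Proj
import Pool.Agent.H.MP_ac3185_nt.R.Mult

/-! The local computation in a semistable representation (pure algebra). -/

set_option autoImplicit false

namespace Pool.Agent.H.MP_ac3185_nt

section

variable {k V Γ G : Type*} [Field k] [AddCommGroup V] [Module k V] [Group Γ] [Group G]

/-- Powers of a unipotent operator: `(f - 1)² = 0` implies `f^n = 1 + n (f - 1)`. -/
theorem unip_pow (f : Module.End k V) (hf : IsUnip f) (n : ℕ) (x : V) :
    (f ^ n) x = x + n • (f x - x) := by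
  induction n with
  | zero => simp
  | succ n ih =>
    rw [pow_succ', Module.End.mul_apply, ih, map_add, map_nsmul, hf x, succ_nsmul]
    abel

/-- The operators of a subgroup of finite index of a group `I` of unipotent operators have the same
fixed vectors. Proof: for `g ∈ I` the power `g ^ Nat.card G` lies in the kernel of `π`, so in `Δ`; use
`unip_pow` and characteristic `0`. -/
theorem fixedBy_finiteIndex [CharZero k] [Finite G] (ρ : Representation k Γ V) (π : Γ →* G)
    (I : Subgroup Γ) (hI : ∀ g ∈ I, IsUnip (ρ g)) (Δ : Subgroup Γ) (hΔ : π.ker ≤ Δ) :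
    fixedBy ((fun g => ρ g) '' ((I : Set Γ) ∩ Δ)) = fixedBy ((fun g => ρ g) '' (I : Set Γ)) := by
  apply le_antisymm
  · intro x hx
    rw [mem_fixedBy] at hx ⊢
    rintro _ ⟨g, hg, rfl⟩
    have hN : (Nat.card G : k) ≠ 0 := by
      rw [Nat.cast_ne_zero]
      exact Nat.card_pos.ne'
    have h1 : g ^ Nat.card G ∈ Δ := by
      apply hΔ
      rw [MonoidHom.mem_ker, map_pow]
      exact pow_card_eq_one'
    have h2 := hx _ ⟨g ^ Nat.card G, ⟨I.pow_mem hg _, h1⟩, rfl⟩
    have h3 := unip_pow (ρ g) (hI g hg) (Nat.card G) x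
    simp only [map_pow] at h2
    rw [h2] at h3
    have h4 : Nat.card G • (ρ g x - x) = 0 := by
      have := h3.symm
      simpa using this
    rw [← Nat.cast_smul_eq_nsmul k, smul_eq_zero] at h4
    rcases h4 with h4 | h4
    · exact absurd h4 hN
    · exact sub_eq_zero.1 h4
  · intro x hx
    rw [mem_fixedBy] at hx ⊢
    rintro _ ⟨g, hg, rfl⟩
    exact hx _ ⟨g, hg.1, rfl⟩

end

end Pool.Agent.H.MP_ac3185_nt
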