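import Pool.Agent.H.MP_ac3185_nt.R.AbsA

/-! The local computation in a semistable representation (pure algebra). -/

set_option autoImplicit false

namespace Pool.Agent.H.MP_ac3185_nt

section

universe u

variable {k Γ G : Type*} {V : Type u} [Field k] [AddCommGroup V] [Module k V] [Group Γ] [Group G]

theorem absb_quotRank_congr (S S' T : Set (V →ₗ[k] V)) (h : fixedBy S = fixedBy S') :
    quotRank S T = quotRank S' T := by
  have hp : preInv S T = preInv S' T := by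
    ext x
    simp only [mem_preInv, h]
  unfold quotRank quotInv
  rw [hp, h]

/-- The representation of the finite group `D.map π`.

Proof. Let `U = V ⧸ fixedBy (ρ '' I)`. Because `I` is normal in `D` (`d g d⁻¹ = (d g d⁻¹ g⁻¹) g`) the
group `D` acts on `U`; let `X ⊆ U` be the subspace of the vectors fixed by `D ∩ ker π` (stable under
`D`, since `ker π` is normal). The action of `D` on `X` factors through `D.map π ≅ D / (D ∩ ker π)`. It is
commutative: the commutator `c` of `a, b ∈ D` lies in `I`, `ρ c` is unipotent on `V`, hence on `X`, and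
`c ^ Nat.card G ∈ ker π ∩ D` acts trivially on `X`; by `unip_pow` `c` acts trivially on `X`. For `Δ ≥ ker π`:
`quotInv (ρ '' (I ∩ Δ)) (ρ '' (D ∩ Δ))` is, by `fixedBy_finiteIndex`, the space of the vectors of `U`
fixed by `D ∩ Δ ⊇ D ∩ ker π`, i.e. the vectors of `X` fixed by the elements of `D.map π` which lie in
`Δ.map π` (if `π d = π δ` with `δ ∈ Δ` then `d ∈ Δ` as `ker π ≤ Δ`). -/
theorem exists_abs_rep [CharZero k] [FiniteDimensional k V] [Finite G] (ρ : Representation k Γ V)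
    (π : Γ →* G) (D I : Subgroup Γ) (hI : ∀ g ∈ I, IsUnip (ρ g)) (hID : I ≤ D)
    (hc : ∀ a ∈ D, ∀ b ∈ D, a * b * a⁻¹ * b⁻¹ ∈ I) :
    ∃ (X : Type u) (_ : AddCommGroup X) (_ : Module k X) (_ : FiniteDimensional k X)
      (τ : Representation k (D.map π) X), (∀ a b, τ (a * b) = τ (b * a)) ∧
      ∀ Δ : Subgroup Γ, π.ker ≤ Δ →
        quotRank ((fun g => ρ g) '' ((I : Set Γ) ∩ Δ)) ((fun g => ρ g) '' ((D : Set Γ) ∩ Δ)) =
          Module.finrank k (fixedVec τ {d : D.map π | (d : G) ∈ Δ.map π}) := by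
  classical
  obtain ⟨S, hS⟩ : ∃ S : Set (V →ₗ[k] V), S = (fun g => ρ g) '' (I : Set Γ) := ⟨_, rfl⟩
  obtain ⟨T, hT⟩ : ∃ T : Set (V →ₗ[k] V), T = (fun g => ρ g) '' ((D : Set Γ) ∩ π.ker) := ⟨_, rfl⟩
  have hmul : ∀ a b x, ρ (a * b) x = ρ a (ρ b x) := fun a b x => by
    rw [map_mul]; rfl
  have hconj : ∀ d ∈ D, ∀ g ∈ I, d⁻¹ * g * d ∈ I := by
    intro d hd g hg
    have h := I.mul_mem (hc d⁻¹ (D.inv_mem hd) g (hID hg)) hg
    have e : d⁻¹ * g * d⁻¹⁻¹ * g⁻¹ * g = d⁻¹ * g * d := by group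
    rwa [e] at h
  have hfix : ∀ d : D, ∀ x, x ∈ fixedBy S → ρ d x ∈ fixedBy S := by
    intro d x hx
    rw [hS] at hx ⊢
    rintro _ ⟨g, hg, rfl⟩
    have hx' : ρ ((d : Γ)⁻¹ * g * d) x = x := hx _ ⟨_, hconj d d.2 g hg, rfl⟩
    show ρ g (ρ d x) = ρ d x
    rw [← hmul]
    have e : g * (d : Γ) = d * ((d : Γ)⁻¹ * g * d) := by group
    rw [e, hmul, hx']
  have hpre : ∀ d : D, ∀ x, x ∈ preInv S T → ρ d x ∈ preInv S T := by
    intro d x hx f hf
    rw [hT] at hf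
    obtain ⟨t, ht, rfl⟩ := hf
    have ht' : (d : Γ)⁻¹ * t * d ∈ (D : Set Γ) ∩ π.ker := by
      refine ⟨D.mul_mem (D.mul_mem (D.inv_mem d.2) ht.1) d.2, ?_⟩
      have h1 : π t = 1 := ht.2
      show π ((d : Γ)⁻¹ * t * d) = 1
      rw [map_mul, map_mul, h1, map_inv, mul_one, inv_mul_cancel]
    have hx' := hx (ρ ((d : Γ)⁻¹ * t * d)) (by rw [hT]; exact ⟨_, ht', rfl⟩)
    show ρ t (ρ d x) - ρ d x ∈ fixedBy S
    have e : t * (d : Γ) = d * ((d : Γ)⁻¹ * t * d) := by group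
    rw [← hmul, e, hmul, ← map_sub]
    exact hfix d _ hx'
  let Q : D → (V ⧸ fixedBy S) →ₗ[k] (V ⧸ fixedBy S) := fun d =>
    (fixedBy S).mapQ (fixedBy S) (ρ d) (fun x hx => hfix d x hx)
  have hQ : ∀ (d : D) x, Q d ((fixedBy S).mkQ x) = (fixedBy S).mkQ (ρ d x) := fun d x => rfl
  have hQmem : ∀ d, ∀ y ∈ quotInv S T, Q d y ∈ quotInv S T := by
    rintro d _ ⟨x, hx, rfl⟩
    exact ⟨ρ d x, hpre d x hx, rfl⟩
  let R : D → quotInv S T →ₗ[k] quotInv S T := fun d => (Q d).restrict (hQmem d)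
  have hRv : ∀ (d : D) (y : quotInv S T), ((R d y : quotInv S T) : V ⧸ fixedBy S) = Q d y :=
    fun d y => rfl
  -- the action is trivial on the vectors with `ρ d x - x` fixed
  have hRfix : ∀ (d : D) (y : quotInv S T) (x : V), (y : V ⧸ fixedBy S) = (fixedBy S).mkQ x →
      (R d y = y ↔ ρ d x - x ∈ fixedBy S) := by
    intro d y x hy
    rw [← Subtype.coe_inj, hRv, hy, hQ, ← sub_eq_zero, ← map_sub, Submodule.mkQ_apply,
      Submodule.Quotient.mk_eq_zero]
  have hRker : ∀ d : D, π d = 1 → R d = LinearMap.id := by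
    intro d hd
    ext1 y
    obtain ⟨x, hx, hxy⟩ := y.2
    rw [LinearMap.id_apply, hRfix d y x hxy.symm]
    exact hx _ (by rw [hT]; exact ⟨d, ⟨d.2, hd⟩, rfl⟩)
  have hRI : ∀ d : D, (d : Γ) ∈ I → R d = LinearMap.id := by
    intro d hd
    ext1 y
    obtain ⟨x, hx, hxy⟩ := y.2
    rw [LinearMap.id_apply, hRfix d y x hxy.symm]
    have h1 : ρ ((d : Γ) ^ Nat.card G) x - x ∈ fixedBy S := by
      refine hx _ ?_
      rw [hT]
      refine ⟨_, ⟨D.pow_mem d.2 _, ?_⟩, rfl⟩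
      show π ((d : Γ) ^ Nat.card G) = 1
      rw [map_pow, pow_card_eq_one']
    rw [map_pow, unip_pow (ρ (d : Γ)) (hI _ hd), add_sub_cancel_left, ← Nat.cast_smul_eq_nsmul k] at h1
    have h2 : ((Nat.card G : ℕ) : k) ≠ 0 := by
      rw [Nat.cast_ne_zero]
      exact Nat.card_pos.ne'
    exact ((fixedBy S).smul_mem_iff h2).1 h1
  have hRm : ∀ a b, R (a * b) = R a * R b := by
    intro a b
    ext1 y
    apply Subtype.ext
    obtain ⟨x, hx, hxy⟩ := y.2
    show Q (a * b) y = Q a (Q b y)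
    rw [← hxy, hQ, hQ, hQ]
    congr 1
    exact hmul a b x
  have hRe : ∀ a b : D, π a = π b → R a = R b := by
    intro a b hab
    have h4 : π ((b⁻¹ * a : D) : Γ) = 1 := by
      rw [Subgroup.coe_mul, Subgroup.coe_inv, map_mul, map_inv, hab, inv_mul_cancel]
    have h3 := hRm b (b⁻¹ * a)
    rw [mul_inv_cancel_left, hRker _ h4] at h3
    exact h3
  have hRc : ∀ a b, R (a * b) = R (b * a) := by
    intro a b
    have hmem : ((a * b * a⁻¹ * b⁻¹ : D) : Γ) ∈ I := hc a a.2 b b.2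
    have e : a * b = (a * b * a⁻¹ * b⁻¹) * (b * a) := by group
    rw [e, hRm, hRI _ hmem]
    rfl
  -- lifts
  have hlift : ∀ s : D.map π, ∃ d : D, π d = s := by
    rintro ⟨s, d, hd, rfl⟩
    exact ⟨⟨d, hd⟩, rfl⟩
  choose σ hσ using hlift
  let τ : Representation k (D.map π) (quotInv S T) :=
    { toFun := fun s => R (σ s)
      map_one' := hRker _ (by rw [hσ]; rfl)
      map_mul' := fun s t => by
        rw [← hRm]
        apply hRe
        rw [hσ, Subgroup.coe_mul, Subgroup.coe_mul, map_mul, hσ, hσ] }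
  have hτ : ∀ s, τ s = R (σ s) := fun s => rfl
  refine ⟨quotInv S T, inferInstance, inferInstance, inferInstance, τ, ?_, ?_⟩
  · intro a b
    rw [hτ, hτ]
    have h1 : R (σ (a * b)) = R (σ a * σ b) := hRe _ _ (by
      rw [hσ, Subgroup.coe_mul, Subgroup.coe_mul, map_mul, hσ, hσ])
    have h2 : R (σ (b * a)) = R (σ b * σ a) := hRe _ _ (by
      rw [hσ, Subgroup.coe_mul, Subgroup.coe_mul, map_mul, hσ, hσ])
    rw [h1, h2, hRc]
  · intro Δ hΔ
    have hW : fixedBy ((fun g => ρ g) '' ((I : Set Γ) ∩ Δ)) = fixedBy S := by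
      rw [hS]
      exact fixedBy_finiteIndex ρ π I hI Δ hΔ
    rw [absb_quotRank_congr _ S _ hW, ← Submodule.finrank_map_subtype_eq]
    have key : quotInv S ((fun g => ρ g) '' ((D : Set Γ) ∩ Δ)) =
        (fixedVec τ {d : D.map π | (d : G) ∈ Δ.map π}).map (quotInv S T).subtype := by
      apply le_antisymm
      · rintro _ ⟨x, hx, rfl⟩
        have hxT : x ∈ preInv S T := by
          intro f hf
          rw [hT] at hf
          obtain ⟨t, ht, rfl⟩ := hf
          exact hx _ ⟨t, ⟨ht.1, hΔ ht.2⟩, rfl⟩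
        refine ⟨⟨(fixedBy S).mkQ x, x, hxT, rfl⟩, ?_, rfl⟩
        intro d hd
        rw [hτ, hRfix _ _ x rfl]
        obtain ⟨δ, hδ, hδd⟩ := hd
        refine hx _ ⟨_, ⟨(σ d).2, ?_⟩, rfl⟩
        have hk : δ⁻¹ * (σ d : Γ) ∈ π.ker := by
          show π (δ⁻¹ * (σ d : Γ)) = 1
          rw [map_mul, map_inv, hσ, hδd, inv_mul_cancel]
        have := Δ.mul_mem hδ (hΔ hk)
        rwa [mul_inv_cancel_left] at this
      · rintro _ ⟨y, hy, rfl⟩
        obtain ⟨x, hx, hxy⟩ := y.2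
        refine ⟨x, ?_, hxy⟩
        rintro _ ⟨t, ht, rfl⟩
        have hm : (π t) ∈ D.map π := ⟨t, ht.1, rfl⟩
        have h1 := hy ⟨π t, hm⟩ ⟨t, ht.2, rfl⟩
        rw [hτ, hRe (σ ⟨π t, hm⟩) ⟨t, ht.1⟩ (hσ _), hRfix _ y x hxy.symm] at h1
        exact h1
    rw [quotRank, key]

end

end Pool.Agent.H.MP_ac3185_nt
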