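import Pool.Agent.H.MP_ac3185_nt.R.AbsB

/-! The local computation in a semistable representation (pure algebra). -/

set_option autoImplicit false

namespace Pool.Agent.H.MP_ac3185_nt

section

variable {k V Γ G : Type*} [Field k] [AddCommGroup V] [Module k V] [Group Γ] [Group G]

theorem absc_conj (ρ : Representation k Γ V) (J Δ : Subgroup Γ) (σ : Γ) (e : V ≃ₗ[k] V)
    (he : ∀ x, e x = ρ σ⁻¹ x) :
    (∀ f ∈ (fun g => ρ g) '' ({g | σ⁻¹ * g * σ ∈ J} ∩ (Δ : Set Γ)),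
      ∃ f' ∈ (fun g => ρ g) '' ((J : Set Γ) ∩ (Δ.comap (MulAut.conj σ).toMonoidHom : Subgroup Γ)),
        ∀ x, f' (e x) = e (f x)) ∧
    (∀ f' ∈ (fun g => ρ g) '' ((J : Set Γ) ∩ (Δ.comap (MulAut.conj σ).toMonoidHom : Subgroup Γ)),
      ∃ f ∈ (fun g => ρ g) '' ({g | σ⁻¹ * g * σ ∈ J} ∩ (Δ : Set Γ)),
        ∀ x, f' (e x) = e (f x)) := by
  have hmul : ∀ a b x, ρ (a * b) x = ρ a (ρ b x) := fun a b x => by
    rw [map_mul]; rfl
  constructor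
  · rintro _ ⟨g, ⟨hg1, hg2⟩, rfl⟩
    refine ⟨_, ⟨σ⁻¹ * g * σ, ⟨hg1, ?_⟩, rfl⟩, fun x => ?_⟩
    · show σ * (σ⁻¹ * g * σ) * σ⁻¹ ∈ Δ
      have e1 : σ * (σ⁻¹ * g * σ) * σ⁻¹ = g := by group
      rw [e1]
      exact hg2
    · show ρ (σ⁻¹ * g * σ) (e x) = e (ρ g x)
      rw [he, he, ← hmul, ← hmul]
      have e1 : σ⁻¹ * g * σ * σ⁻¹ = σ⁻¹ * g := by group
      rw [e1]
  · rintro _ ⟨g, ⟨hg1, hg2⟩, rfl⟩
    refine ⟨_, ⟨σ * g * σ⁻¹, ⟨?_, hg2⟩, rfl⟩, fun x => ?_⟩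
    · show σ⁻¹ * (σ * g * σ⁻¹) * σ ∈ J
      have e1 : σ⁻¹ * (σ * g * σ⁻¹) * σ = g := by group
      rw [e1]
      exact hg1
    · show ρ g (e x) = e (ρ (σ * g * σ⁻¹) x)
      rw [he, he, ← hmul, ← hmul]
      have e1 : σ⁻¹ * (σ * g * σ⁻¹) = g * σ⁻¹ := by group
      rw [e1]

/-- The local computation.

Proof. By conjugation with `ρ σ⁻¹` (`quotInv_finrank` with `e = ρ σ⁻¹` as a linear equivalence,
`Carries`) the left side is the `quotRank` for `I ∩ Δ'` and `D ∩ Δ'` with `Δ' = σ⁻¹ Δ σ ≥ ker π`. Use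
`exists_abs_rep`; `{d | d ∈ Δ'.map π}` is the carrier of a subgroup `S` of `D.map π`, namely of the `d` with
`π σ * d * (π σ)⁻¹ ∈ Δ.map π`. Apply `exists_mult` (the order of `D.map π` divides the one of `G`). -/
theorem abs_local [CharZero k] [FiniteDimensional k V] [Finite G] (h4 : ¬ IsSquare (-1 : k))
    (hp : ∀ p : ℕ, p.Prime → p ≠ 2 → p ∣ Nat.card G → ¬ IsSquare ((pstar p : ℤ) : k))
    (ρ : Representation k Γ V) (π : Γ →* G) (D I : Subgroup Γ) (hI : ∀ g ∈ I, IsUnip (ρ g))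
    (hID : I ≤ D) (hc : ∀ a ∈ D, ∀ b ∈ D, a * b * a⁻¹ * b⁻¹ ∈ I) :
    ∃ w : (D.map π →* ℤˣ) → ℕ, ∀ Δ : Subgroup Γ, π.ker ≤ Δ → ∀ σ : Γ,
      quotRank ((fun g => ρ g) '' ({g | σ⁻¹ * g * σ ∈ I} ∩ (Δ : Set Γ)))
        ((fun g => ρ g) '' ({g | σ⁻¹ * g * σ ∈ D} ∩ (Δ : Set Γ))) ≡
      ∑ᶠ ε : D.map π →* ℤˣ, (open Classical in
        if ∀ d : D.map π, π σ * d * (π σ)⁻¹ ∈ Δ.map π → ε d = 1 then w ε else 0) [MOD 2] := by
  classical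
  obtain ⟨X, _, _, _, τ, hτ, hX⟩ := exists_abs_rep ρ π D I hI hID hc
  obtain ⟨u, hu⟩ := exists_mult (D := D.map π) h4
    (fun p hp1 hp2 hp3 => hp p hp1 hp2 (hp3.trans (Subgroup.card_subgroup_dvd_card _))) τ hτ
  refine ⟨u, fun Δ hΔ σ => ?_⟩
  have hmul : ∀ a b x, ρ (a * b) x = ρ a (ρ b x) := fun a b x => by
    rw [map_mul]; rfl
  let e : V ≃ₗ[k] V := LinearEquiv.ofLinearMap (ρ σ⁻¹) (ρ σ)
    (by
      ext x
      show ρ σ⁻¹ (ρ σ x) = x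
      rw [← hmul, inv_mul_cancel, map_one]
      rfl)
    (by
      ext x
      show ρ σ (ρ σ⁻¹ x) = x
      rw [← hmul, mul_inv_cancel, map_one]
      rfl)
  have he : ∀ x, e x = ρ σ⁻¹ x := fun x => rfl
  obtain ⟨h1, h2⟩ := absc_conj ρ I Δ σ e he
  obtain ⟨h3, h5⟩ := absc_conj ρ D Δ σ e he
  have hq : quotRank ((fun g => ρ g) '' ({g | σ⁻¹ * g * σ ∈ I} ∩ (Δ : Set Γ)))
        ((fun g => ρ g) '' ({g | σ⁻¹ * g * σ ∈ D} ∩ (Δ : Set Γ))) =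
      quotRank ((fun g => ρ g) '' ((I : Set Γ) ∩ (Δ.comap (MulAut.conj σ).toMonoidHom : Subgroup Γ)))
        ((fun g => ρ g) '' ((D : Set Γ) ∩ (Δ.comap (MulAut.conj σ).toMonoidHom : Subgroup Γ))) :=
    quotInv_finrank e h1 h2 h3 h5
  have hker : π.ker ≤ Δ.comap (MulAut.conj σ).toMonoidHom := by
    intro g hg
    show σ * g * σ⁻¹ ∈ Δ
    refine hΔ ?_
    have hg' : π g = 1 := hg
    show π (σ * g * σ⁻¹) = 1
    rw [map_mul, map_mul, hg', mul_one, map_inv, mul_inv_cancel]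
  have hmem : ∀ d : D.map π, (d : G) ∈ (Δ.comap (MulAut.conj σ).toMonoidHom).map π ↔
      π σ * d * (π σ)⁻¹ ∈ Δ.map π := by
    intro d
    constructor
    · rintro ⟨g, hg, hgd⟩
      refine ⟨σ * g * σ⁻¹, hg, ?_⟩
      rw [map_mul, map_mul, map_inv, hgd]
    · rintro ⟨δ, hδ, hδd⟩
      refine ⟨σ⁻¹ * δ * σ, ?_, ?_⟩
      · show σ * (σ⁻¹ * δ * σ) * σ⁻¹ ∈ Δ
        have e1 : σ * (σ⁻¹ * δ * σ) * σ⁻¹ = δ := by group
        rw [e1]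
        exact hδ
      · rw [map_mul, map_mul, map_inv, hδd]
        group
  rw [hq, hX _ hker]
  have hS : (((Δ.comap (MulAut.conj σ).toMonoidHom).map π).subgroupOf (D.map π) : Set (D.map π)) =
      {d : D.map π | (d : G) ∈ (Δ.comap (MulAut.conj σ).toMonoidHom).map π} := by
    ext d
    exact Subgroup.mem_subgroupOf
  have h6 := hu (((Δ.comap (MulAut.conj σ).toMonoidHom).map π).subgroupOf (D.map π))
  rw [hS] at h6
  refine h6.trans ?_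
  have h7 : ∀ ε : D.map π →* ℤˣ,
      (∀ s ∈ ((Δ.comap (MulAut.conj σ).toMonoidHom).map π).subgroupOf (D.map π), ε s = 1) ↔
        ∀ d : D.map π, π σ * d * (π σ)⁻¹ ∈ Δ.map π → ε d = 1 := by
    intro ε
    refine forall_congr' fun d => ?_
    rw [Subgroup.mem_subgroupOf, hmem]
  refine Nat.ModEq.symm ?_
  rw [finsum_congr fun ε => if_congr (h7 ε) rfl rfl]

end

end Pool.Agent.H.MP_ac3185_nt
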