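import Mathlib

/-! Automorphisms of algebraic extensions of finite fields commute. -/

set_option autoImplicit false

namespace Pool.Agent.H.MP_ac3185_nt

/-- Two automorphisms over `k` of an algebraic extension of a finite field `k` commute. Proof: for
`x` let `q = Fintype.card k`; the finite extension `k(x)`, and the normal closure, are finite fields and
every automorphism over `k` of a finite field is a power of `y ↦ y ^ q`; so `a x = x ^ (q ^ i)` and
`b x = x ^ (q ^ j)` for suitable `i, j` (also: `a x` is a root of the minimal polynomial of `x`, whose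
roots are the `x ^ (q ^ i)`), and `a (b x) = (a x) ^ (q ^ j) = x ^ (q ^ (i + j)) = b (a x)`. -/
theorem finiteField_commute {k κ : Type*} [Field k] [Finite k] [Field κ] [Algebra k κ]
    [Algebra.IsAlgebraic k κ] (a b : κ ≃ₐ[k] κ) (x : κ) : a (b x) = b (a x) := by
  let L := IntermediateField.adjoin k ({x} : Set κ)
  have hx : IsIntegral k x := Algebra.IsIntegral.isIntegral x
  have : FiniteDimensional k L := IntermediateField.adjoin.finiteDimensional hx
  have : Finite L := Module.finite_of_finite k
  have : IsGalois k L := inferInstance
  have hc : IsMulCommutative (L ≃ₐ[k] L) := IsCyclic.isMulCommutative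
  let y : L := ⟨x, IntermediateField.mem_adjoin_simple_self k x⟩
  have hy : algebraMap L κ y = x := rfl
  have h1 : ∀ (c : κ ≃ₐ[k] κ) (z : L), algebraMap L κ (c.restrictNormal L z) = c (algebraMap L κ z) :=
    fun c z => AlgEquiv.restrictNormal_commutes c L z
  have h2 : (a.restrictNormal L) * (b.restrictNormal L) = (b.restrictNormal L) * (a.restrictNormal L) :=
    isMulCommutative_iff.1 hc _ _
  rw [← hy, ← h1 b, ← h1 a, ← h1 a, ← h1 b]
  exact congrArg _ (DFunLike.congr_fun h2 y)

end Pool.Agent.H.MP_ac3185_nt
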