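import Pool.Agent.H.MP_ac3185_nt.R.PlA
import Pool.Agent.H.MP_ac3185_nt.R.CommA

/-! Commutators of elements of a decomposition group lie in the inertia group. -/

set_option autoImplicit false

open NumberField IsDedekindDomain
open scoped Pointwise

namespace Pool.Agent.H.MP_ac3185_nt

universe u

variable {K : Type u} [Field K] [NumberField K]

theorem commb_fix {F : Type u} [Field F] {L : Type u} [Field L] [Algebra F L] (g : L ≃ₐ[F] L)
    (r : 𝓞 F) : g • (algebraMap (𝓞 F) (𝓞 L) r) = algebraMap (𝓞 F) (𝓞 L) r := by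
  apply RingOfIntegers.ext
  exact g.commutes (r : F)

theorem commb_smul {F : Type u} [Field F] {L : Type u} [Field L] [Algebra F L] (g : L ≃ₐ[F] L)
    (r : 𝓞 F) (x : 𝓞 L) : g • (r • x) = r • (g • x) := by
  rw [Algebra.smul_def, smul_mul', commb_fix, ← Algebra.smul_def]

theorem commb_stab (𝔓 : Ideal (𝓞 (AlgebraicClosure K)))
    (a : AlgebraicClosure K ≃ₐ[K] AlgebraicClosure K) (ha : a ∈ decompGrp K 𝔓) :
    a ∈ MulAction.stabilizer (AlgebraicClosure K ≃ₐ[K] AlgebraicClosure K) 𝔓 := by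
  rw [MulAction.mem_stabilizer_iff]
  ext x
  rw [Ideal.mem_pointwise_smul_iff_inv_smul_mem]
  exact (inv_mem ha) x

/-- Commutators of elements of the decomposition group lie in the inertia group.

Proof. `a` and `b` induce automorphisms `a', b'` of the residue field `κ = 𝓞 (Kbar) ⧸ 𝔓` (a field: the
ring is integral over the Dedekind domain `𝓞 K` and `𝔓` lies above the maximal ideal `v`) over the finite
field `𝓞 K ⧸ v`, over which `κ` is algebraic. They commute by `finiteField_commute`. So for `y` in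
`𝓞 (Kbar)` and `x = a⁻¹ b⁻¹ y`: `a b x ≡ b a x` modulo `𝔓`, i.e. `a b a⁻¹ b⁻¹ y ≡ y`. -/
theorem commutator_mem (v : HeightOneSpectrum (𝓞 K)) (𝔓 : Ideal (𝓞 (AlgebraicClosure K)))
    (h𝔓 : Above 𝔓 v) (a b : AlgebraicClosure K ≃ₐ[K] AlgebraicClosure K)
    (ha : a ∈ decompGrp K 𝔓) (hb : b ∈ decompGrp K 𝔓) :
    a * b * a⁻¹ * b⁻¹ ∈ inertiaGrp K 𝔓 := by
  obtain ⟨hP, hcomap⟩ := h𝔓
  have hv : v.asIdeal.IsMaximal := v.isMaximal
  have hlies : 𝔓.LiesOver v.asIdeal := ⟨hcomap.symm⟩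
  have hmax : 𝔓.IsMaximal :=
    Ideal.isMaximal_of_isIntegral_of_isMaximal_comap (R := 𝓞 K) 𝔓 (by rw [hcomap]; exact hv)
  letI : Field (𝓞 (AlgebraicClosure K) ⧸ 𝔓) := Ideal.Quotient.field 𝔓
  letI : Field (𝓞 K ⧸ v.asIdeal) := Ideal.Quotient.field v.asIdeal
  haveI : SMulCommClass (AlgebraicClosure K ≃ₐ[K] AlgebraicClosure K) (𝓞 K)
      (𝓞 (AlgebraicClosure K)) := ⟨fun g r x => commb_smul g r x⟩
  haveI : Finite (𝓞 K ⧸ v.asIdeal) := inferInstance
  haveI hint : Algebra.IsIntegral (𝓞 K ⧸ v.asIdeal) (𝓞 (AlgebraicClosure K) ⧸ 𝔓) :=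
    inferInstance
  haveI halg : Algebra.IsAlgebraic (𝓞 K ⧸ v.asIdeal) (𝓞 (AlgebraicClosure K) ⧸ 𝔓) :=
    Algebra.IsIntegral.isAlgebraic
  let G := AlgebraicClosure K ≃ₐ[K] AlgebraicClosure K
  let α := Ideal.Quotient.stabilizerHom 𝔓 v.asIdeal G ⟨a, commb_stab 𝔓 a ha⟩
  let β := Ideal.Quotient.stabilizerHom 𝔓 v.asIdeal G ⟨b, commb_stab 𝔓 b hb⟩
  intro y
  set x : 𝓞 (AlgebraicClosure K) := (a⁻¹ * b⁻¹) • y with hx
  have h1 : galInt (a * b * a⁻¹ * b⁻¹) y = a • b • x := by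
    show (a * b * a⁻¹ * b⁻¹) • y = _
    rw [hx, smul_smul, smul_smul, mul_assoc (a * b)]
  have h2 : y = b • a • x := by
    rw [hx, smul_smul, smul_smul]
    have : b * a * (a⁻¹ * b⁻¹) = 1 := by group
    rw [this, one_smul]
  have h3 : α (β (Ideal.Quotient.mk 𝔓 x)) = β (α (Ideal.Quotient.mk 𝔓 x)) :=
    finiteField_commute α β (Ideal.Quotient.mk 𝔓 x)
  have h4 : Ideal.Quotient.mk 𝔓 (a • b • x) = Ideal.Quotient.mk 𝔓 (b • a • x) := h3
  have h5 := Ideal.Quotient.eq.1 h4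
  rw [← h2] at h5
  rw [h1]
  exact h5

end Pool.Agent.H.MP_ac3185_nt
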