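import Mathlib

/-! Even relations. -/

set_option autoImplicit false

namespace Pool.Agent.H.MP_ac3185_nt

section mat

variable {ι : Type*} [Fintype ι] [DecidableEq ι]

/-- the eigenvalues of a matrix of finite order are roots of unity -/
theorem cora_root (A : Matrix ι ι ℂ) (n : ℕ) (hA : A ^ n = 1) (r : ℂ)
    (hr : r ∈ A.charpoly.roots) : r ^ n = 1 := by
  have h1 : r ∈ spectrum ℂ A := by
    rw [Matrix.mem_spectrum_iff_isRoot_charpoly]
    exact Polynomial.isRoot_of_mem_roots hr
  rcases subsingleton_or_nontrivial (Matrix ι ι ℂ) with h2 | h2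
  · rw [spectrum.of_subsingleton] at h1
    exact absurd h1 (Set.notMem_empty _)
  · have h3 := spectrum.pow_mem_pow A n h1
    rw [hA, spectrum.one_eq] at h3
    exact h3

theorem cora_int (A : Matrix ι ι ℚ) (n : ℕ) (hn : 0 < n) (hA : A ^ n = 1) :
    ∃ z : ℤ, A.trace = z := by
  have h1 : IsIntegral ℤ A.trace := by
    have hinj : Function.Injective (algebraMap ℚ ℂ) := (algebraMap ℚ ℂ).injective
    rw [← isIntegral_algebraMap_iff hinj]
    have e : algebraMap ℚ ℂ A.trace = (A.map (algebraMap ℚ ℂ)).trace := by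
      simp [Matrix.trace]
    have hA' : (A.map (algebraMap ℚ ℂ)) ^ n = 1 := by
      have h2 := congrArg (fun B : Matrix ι ι ℚ => B.map (algebraMap ℚ ℂ)) hA
      simp only [Matrix.map_pow] at h2
      rw [h2]
      simp
    rw [e, Matrix.trace_eq_sum_roots_charpoly]
    refine IsIntegral.multiset_sum fun r hr => ?_
    refine IsIntegral.of_pow hn ?_
    rw [cora_root _ n hA' r hr]
    exact isIntegral_one
  obtain ⟨z, hz⟩ := (IsIntegrallyClosed.isIntegral_iff (R := ℤ) (K := ℚ)).1 h1
  exact ⟨z, by rw [← hz]; simp⟩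

theorem cora_inv (A B : Matrix ι ι ℚ) (n : ℕ) (hn : 0 < n) (hA : A ^ n = 1) (hAB : A * B = 1) :
    B.trace = A.trace := by
  set P : Matrix ι ι ℚ := ∑ i ∈ Finset.range n, (A ^ i).transpose * A ^ i with hP
  have h1 : A.transpose * P * A = P := by
    have e1 : A.transpose * P * A = ∑ i ∈ Finset.range n, (A ^ (i + 1)).transpose * A ^ (i + 1) := by
      rw [hP, Finset.mul_sum, Finset.sum_mul]
      refine Finset.sum_congr rfl fun i _ => ?_
      rw [pow_succ, Matrix.transpose_mul]
      simp only [Matrix.mul_assoc]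
    have e2 := Finset.sum_range_succ (fun i => (A ^ i).transpose * A ^ i) n
    have e3 := Finset.sum_range_succ' (fun i => (A ^ i).transpose * A ^ i) n
    rw [e2] at e3
    rw [e1]
    rw [hA, pow_zero] at e3
    exact (add_right_cancel e3).symm
  have h2 : IsUnit P.det := by
    rw [isUnit_iff_ne_zero]
    intro h0
    obtain ⟨v, hv, hv0⟩ := Matrix.exists_mulVec_eq_zero_iff.2 h0
    have h3 : ∑ i ∈ Finset.range n, (A ^ i).mulVec v ⬝ᵥ (A ^ i).mulVec v = 0 := by
      have h4 : v ⬝ᵥ P.mulVec v = 0 := by rw [hv0, dotProduct_zero]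
      rw [← h4, hP, Matrix.sum_mulVec, dotProduct_sum]
      refine Finset.sum_congr rfl fun i _ => ?_
      rw [← Matrix.mulVec_mulVec, Matrix.dotProduct_mulVec v, Matrix.vecMul_transpose]
    have h5 := (Finset.sum_eq_zero_iff_of_nonneg (fun i _ => by
      exact Finset.sum_nonneg fun j _ => mul_self_nonneg _)).1 h3 0 (Finset.mem_range.2 hn)
    rw [pow_zero, Matrix.one_mulVec] at h5
    exact hv (dotProduct_self_eq_zero.1 h5)
  have h3 : A.transpose * P = P * B := by
    calc A.transpose * P = A.transpose * P * (A * B) := by rw [hAB, Matrix.mul_one]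
      _ = (A.transpose * P * A) * B := by simp only [Matrix.mul_assoc]
      _ = P * B := by rw [h1]
  have h4 : B = P⁻¹ * (A.transpose * P) := by
    rw [h3, ← Matrix.mul_assoc, Matrix.nonsing_inv_mul P h2, Matrix.one_mul]
  rw [h4, Matrix.trace_mul_comm, Matrix.mul_assoc, Matrix.mul_nonsing_inv P h2, Matrix.mul_one,
    Matrix.trace_transpose]

end mat

section grp

variable {G M : Type*} [Group G] [Finite G] [AddCommGroup M] [Module ℚ M] [FiniteDimensional ℚ M]

/-- The trace of an element of finite order of a rational representation is an integer, and the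
inverse has the same trace.

Proof. The average over the group generated by `T` of any inner product (with a basis) is an inner
product for which `T` is orthogonal, so `T⁻¹` is the adjoint of `T` and has the same trace. The trace
is the sum of the roots of the characteristic polynomial in an algebraic closure
(`LinearMap.trace_eq_sum_roots_charpoly`-type lemma), which are roots of unity; so it is integral over
`ℤ` and rational, hence an integer (`IsIntegrallyClosed`). -/
theorem trace_finite_order (T : M ≃ₗ[ℚ] M) (n : ℕ) (hn : 0 < n) (hT : T ^ n = 1) :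
    (∃ z : ℤ, LinearMap.trace ℚ M T = z) ∧
      LinearMap.trace ℚ M (T⁻¹ : M ≃ₗ[ℚ] M) = LinearMap.trace ℚ M T := by
  classical
  let b := Module.finBasis ℚ M
  have hT' : (T : M →ₗ[ℚ] M) ^ n = 1 := by
    ext x
    have h1 : ∀ k : ℕ, ((T : M →ₗ[ℚ] M) ^ k) x = (T ^ k) x := by
      intro k
      induction k with
      | zero => rfl
      | succ k ih =>
        rw [pow_succ', pow_succ']
        show T (((T : M →ₗ[ℚ] M) ^ k) x) = T ((T ^ k) x)
        rw [ih]
    rw [h1, hT]
    rfl
  have hA : (LinearMap.toMatrix b b (T : M →ₗ[ℚ] M)) ^ n = 1 := by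
    rw [LinearMap.toMatrix_pow, hT', LinearMap.toMatrix_one]
  have hAB : (LinearMap.toMatrix b b (T : M →ₗ[ℚ] M)) *
      (LinearMap.toMatrix b b ((T⁻¹ : M ≃ₗ[ℚ] M) : M →ₗ[ℚ] M)) = 1 := by
    rw [← LinearMap.toMatrix_mul]
    have h2 : (T : M →ₗ[ℚ] M) * ((T⁻¹ : M ≃ₗ[ℚ] M) : M →ₗ[ℚ] M) = 1 := by
      ext x
      exact T.apply_symm_apply x
    rw [h2, LinearMap.toMatrix_one]
  rw [LinearMap.trace_eq_matrix_trace ℚ b, LinearMap.trace_eq_matrix_trace ℚ b]
  exact ⟨cora_int _ n hn hA, cora_inv _ _ n hn hA hAB⟩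

end grp

end Pool.Agent.H.MP_ac3185_nt
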