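import Mathlib

/-! The vectors fixed by a set of elements of a group. -/

set_option autoImplicit false

namespace Pool.Agent.H.MP_ac3185_nt

/-- The vectors of a representation `M` of a group which are fixed by a set `H` of elements. -/
def fixedVec {k G M : Type*} [Field k] [Group G] [AddCommGroup M] [Module k M]
    (ρ : Representation k G M) (H : Set G) : Submodule k M where
  carrier := {x | ∀ h ∈ H, ρ h x = x}
  zero_mem' := fun h _ => map_zero (ρ h)
  add_mem' := fun {x y} hx hy h hh => by rw [map_add, hx h hh, hy h hh]
  smul_mem' := fun a x hx h hh => by rw [map_smul, hx h hh]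

theorem mem_fixedVec {k G M : Type*} [Field k] [Group G] [AddCommGroup M] [Module k M]
    (ρ : Representation k G M) (H : Set G) (x : M) : x ∈ fixedVec ρ H ↔ ∀ h ∈ H, ρ h x = x := Iff.rfl

end Pool.Agent.H.MP_ac3185_nt
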