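import Pool.Agent.H.MP_ac3185_nt.R.CorA
import Pool.Agent.H.MP_ac3185_nt.R.Fix

/-! Even relations. -/

set_option autoImplicit false

namespace Pool.Agent.H.MP_ac3185_nt

section grp

variable {G M : Type*} [Group G] [Finite G] [AddCommGroup M] [Module ℚ M] [FiniteDimensional ℚ M]

omit [Finite G] [FiniteDimensional ℚ M] in
theorem corb_inv_mul (ρ : Representation ℚ G M) (g : G) (x : M) : ρ g⁻¹ (ρ g x) = x := by
  have h : ρ (g⁻¹ * g) x = x := by
    rw [inv_mul_cancel, map_one]
    rfl
  rw [map_mul] at h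
  exact h

omit [Finite G] [FiniteDimensional ℚ M] in
theorem corb_mul_inv (ρ : Representation ℚ G M) (g : G) (x : M) : ρ g (ρ g⁻¹ x) = x := by
  have h : ρ (g * g⁻¹) x = x := by
    rw [mul_inv_cancel, map_one]
    rfl
  rw [map_mul] at h
  exact h

omit [Finite G] [FiniteDimensional ℚ M] in
theorem corb_mul (ρ : Representation ℚ G M) (g g' : G) (x : M) : ρ (g * g') x = ρ g (ρ g' x) := by
  rw [map_mul]
  rfl

/-- The operator of an element as a linear equivalence. -/
noncomputable def corb_T (ρ : Representation ℚ G M) (g : G) : M ≃ₗ[ℚ] M :=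
  LinearEquiv.ofLinearMap (ρ g) (ρ g⁻¹) (LinearMap.ext fun x => corb_mul_inv ρ g x)
    (LinearMap.ext fun x => corb_inv_mul ρ g x)

omit [Finite G] [FiniteDimensional ℚ M] in
theorem corb_T_pow (ρ : Representation ℚ G M) (g : G) (n : ℕ) (x : M) :
    (corb_T ρ g ^ n) x = ρ (g ^ n) x := by
  induction n generalizing x with
  | zero =>
    rw [pow_zero, pow_zero, map_one]
    rfl
  | succ n ih =>
    rw [pow_succ, pow_succ, corb_mul]
    exact ih (corb_T ρ g x)

theorem corb_trace (ρ : Representation ℚ G M) (g : G) :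
    (∃ z : ℤ, LinearMap.trace ℚ M (ρ g) = z) ∧
      LinearMap.trace ℚ M (ρ g⁻¹) = LinearMap.trace ℚ M (ρ g) := by
  have h1 : corb_T ρ g ^ Nat.card G = 1 := by
    apply LinearEquiv.ext
    intro x
    rw [corb_T_pow, pow_card_eq_one', map_one]
    rfl
  exact trace_finite_order (corb_T ρ g) (Nat.card G) Nat.card_pos h1

omit [Finite G] [FiniteDimensional ℚ M] in
/-- The average over the group is a projection onto the fixed vectors. -/
theorem corb_proj [Fintype G] (ρ : Representation ℚ G M) :
    LinearMap.IsProj (fixedVec ρ (Set.univ : Set G))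
      ((Fintype.card G : ℚ)⁻¹ • ∑ g : G, ρ g) := by
  have hc : (Fintype.card G : ℚ) ≠ 0 := by
    exact_mod_cast Fintype.card_ne_zero
  constructor
  · intro x g _
    rw [LinearMap.smul_apply, map_smul]
    congr 1
    rw [LinearMap.sum_apply, map_sum]
    refine Fintype.sum_equiv (Equiv.mulLeft g) _ _ ?_
    intro g'
    rw [Equiv.coe_mulLeft, corb_mul]
  · intro x hx
    rw [LinearMap.smul_apply, LinearMap.sum_apply]
    have h1 : ∑ g : G, ρ g x = ∑ _g : G, x := Finset.sum_congr rfl fun g _ => hx g (Set.mem_univ g)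
    rw [h1, Finset.sum_const, Finset.card_univ, ← Nat.cast_smul_eq_nsmul ℚ, smul_smul,
      inv_mul_cancel₀ hc, one_smul]

theorem corb_sum [Fintype G] (ρ : Representation ℚ G M) :
    ∑ g : G, LinearMap.trace ℚ M (ρ g) =
      (Fintype.card G : ℚ) * (Module.finrank ℚ (fixedVec ρ (Set.univ : Set G)) : ℚ) := by
  have hc : (Fintype.card G : ℚ) ≠ 0 := by
    exact_mod_cast Fintype.card_ne_zero
  have h1 := (corb_proj ρ).trace
  rw [map_smul, map_sum, smul_eq_mul] at h1
  rw [← h1, ← mul_assoc, mul_inv_cancel₀ hc, one_mul]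

omit [Finite G] in
theorem corb_ne_inv (hG : Odd (Nat.card G)) (g : G) (hg : g ≠ 1) : g⁻¹ ≠ g := by
  intro h
  have h2 : g ^ 2 = 1 := by
    rw [sq]
    nth_rewrite 1 [← h]
    exact inv_mul_cancel g
  have h3 : orderOf g ∣ 2 := orderOf_dvd_of_pow_eq_one h2
  have h4 : orderOf g ∣ Nat.card G := orderOf_dvd_natCard g
  have h5 : orderOf g = 1 := by
    rcases (Nat.dvd_prime Nat.prime_two).1 h3 with h | h
    · exact h
    · exfalso
      rw [h] at h4
      rw [← Nat.not_even_iff_odd] at hG
      exact hG (even_iff_two_dvd.2 h4)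
  exact hg (orderOf_eq_one_iff.1 h5)

/-- For a group of odd order the dimension of a rational representation is congruent modulo `2` to
the dimension of the space of fixed vectors.

Proof. `Nat.card G * finrank (fixedVec ρ univ) = ∑ g, trace (ρ g)`
(the average `(1/|G|) ∑ ρ g` is a projection onto the fixed vectors; `LinearMap.IsProj.trace`). In a
group of odd order `g ≠ g⁻¹` for `g ≠ 1`; pair `g` with `g⁻¹` and use `trace_finite_order`:
`∑ g, trace (ρ g) = finrank M + 2 z` with `z ∈ ℤ`. -/
theorem finrank_odd_order (hG : Odd (Nat.card G)) (ρ : Representation ℚ G M) :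
    Module.finrank ℚ M ≡ Module.finrank ℚ (fixedVec ρ (Set.univ : Set G)) [MOD 2] := by
  classical
  have : Fintype G := Fintype.ofFinite G
  choose z hz using fun g => (corb_trace ρ g).1
  have hinv : ∀ g, z g⁻¹ = z g := by
    intro g
    have h1 := (corb_trace ρ g).2
    rw [hz, hz] at h1
    exact_mod_cast h1
  have hone : z 1 = (Module.finrank ℚ M : ℤ) := by
    have h1 := hz 1
    rw [map_one, LinearMap.trace_one] at h1
    exact_mod_cast h1.symm
  have hsum : ∑ g : G, z g =
      (Fintype.card G : ℤ) * (Module.finrank ℚ (fixedVec ρ (Set.univ : Set G)) : ℤ) := by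
    have h1 := corb_sum ρ
    rw [Finset.sum_congr rfl fun g _ => hz g] at h1
    exact_mod_cast h1
  have h2 : ∑ g : G, ((z g : ℤ) : ZMod 2) = ((z 1 : ℤ) : ZMod 2) := by
    rw [← Finset.add_sum_erase _ _ (Finset.mem_univ (1 : G))]
    have h3 : ∑ g ∈ (Finset.univ : Finset G).erase 1, ((z g : ℤ) : ZMod 2) = 0 := by
      refine Finset.sum_involution (fun g _ => g⁻¹) ?_ ?_ ?_ ?_
      · intro g _
        simp only [hinv]
        exact CharTwo.add_self_eq_zero _
      · intro g hg _
        exact corb_ne_inv hG g (Finset.ne_of_mem_erase hg)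
      · intro g hg
        refine Finset.mem_erase.2 ⟨?_, Finset.mem_univ _⟩
        exact inv_ne_one.2 (Finset.ne_of_mem_erase hg)
      · intro g _
        exact inv_inv g
    rw [h3, add_zero]
  have h4 : ((Fintype.card G : ℕ) : ZMod 2) = 1 := by
    rw [Nat.card_eq_fintype_card] at hG
    exact (ZMod.natCast_eq_one_iff_odd).2 hG
  have h5 : ((Module.finrank ℚ M : ℕ) : ZMod 2) =
      ((Module.finrank ℚ (fixedVec ρ (Set.univ : Set G)) : ℕ) : ZMod 2) := by
    have h6 := congrArg (fun t : ℤ => (t : ZMod 2)) hsum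
    simp only [Int.cast_sum, Int.cast_mul, Int.cast_natCast] at h6
    rw [h2, hone, h4, one_mul, Int.cast_natCast] at h6
    exact h6
  exact (ZMod.natCast_eq_natCast_iff _ _ 2).1 h5

end grp

end Pool.Agent.H.MP_ac3185_nt
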