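import Pool.Agent.H.MP_ac3185_nt.Quad
import Pool.Agent.H.MP_ac3185_nt.R.Lin

/-! A prime number `ℓ` for which many integers are not squares in `ℚ_ℓ`. -/

set_option autoImplicit false

namespace Pool.Agent.H.MP_ac3185_nt

theorem prime_aux (S : Finset ℕ) (hS : ∀ p ∈ S, p.Prime ∧ p ≠ 2) :
    ∃ c : ℕ, c % 4 = 3 ∧ ∀ p ∈ S, jacobiSym c p = -1 := by
  induction S using Finset.induction_on with
  | empty => exact ⟨3, rfl, fun p hp => absurd hp (Finset.notMem_empty p)⟩
  | insert p S hpS ih =>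
    obtain ⟨c, hc4, hc⟩ := ih (fun q hq => hS q (Finset.mem_insert_of_mem hq))
    obtain ⟨hp, hp2⟩ := hS p (Finset.mem_insert_self p S)
    have hpF : Fact p.Prime := ⟨hp⟩
    obtain ⟨u, hu⟩ := FiniteField.exists_nonsquare (F := ZMod p) (by
      rw [ZMod.ringChar_zmod_n]
      exact hp2)
    have hp4 : Nat.Coprime 4 p := by
      have h1 : Nat.Coprime 2 p := (Nat.coprime_primes Nat.prime_two hp).2 (Ne.symm hp2)
      have h2 := Nat.Coprime.pow_left 2 h1
      simpa using h2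
    have hco : Nat.Coprime (4 * ∏ q ∈ S, q) p := by
      refine Nat.Coprime.mul_left hp4 ?_
      refine Nat.Coprime.prod_left (fun q hq => ?_)
      have hq' := hS q (Finset.mem_insert_of_mem hq)
      rw [Nat.coprime_primes hq'.1 hp]
      rintro rfl
      exact hpS hq
    obtain ⟨n, hn1, hn2⟩ := Nat.chineseRemainder hco c u.val
    have hn4 : n % 4 = c % 4 := Nat.ModEq.of_mul_right _ hn1
    refine ⟨n, hn4.trans hc4, ?_⟩
    intro q hq
    rw [Finset.mem_insert] at hq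
    rcases hq with rfl | hq
    · rw [ZMod.nonsquare_iff_jacobiSym_eq_neg_one]
      have hcast : (n : ZMod q) = u := by
        have := (ZMod.natCast_eq_natCast_iff _ _ _).2 hn2
        rw [this]
        exact ZMod.natCast_zmod_val u
      push_cast
      rwa [hcast]
    · have hnq : n ≡ c [MOD q] := by
        have h1 : n ≡ c [MOD ∏ q ∈ S, q] := Nat.ModEq.of_mul_left _ hn1
        exact h1.of_dvd (Finset.dvd_prod_of_mem _ hq)
      rw [← hc q hq]
      apply jacobiSym.mod_left'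
      exact_mod_cast hnq

/-- Quadratic reciprocity for `p*`. Proof: `ℓ ≡ 3 mod 4`. If `p ≡ 1 mod 4` then `pstar p = p` and
`J(p | ℓ) = J(ℓ | p)`. If `p ≡ 3 mod 4` then `pstar p = -p`, `J(-p | ℓ) = J(-1 | ℓ) J(p | ℓ)`,
`J(-1 | ℓ) = -1` and `J(p | ℓ) = -J(ℓ | p)` (`jacobiSym.quadratic_reciprocity`,
`jacobiSym.at_neg_one`, `ZMod.χ₄`; see `exists_jacobi` in `Quad.lean` for similar computations). -/
theorem jacobi_pstar (ℓ p : ℕ) [Fact ℓ.Prime] [Fact p.Prime] (hℓ : ℓ % 4 = 3) (hp : p ≠ 2)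
    (h : jacobiSym ℓ p = -1) : jacobiSym (pstar p) ℓ = -1 := by
  have hpr : p.Prime := Fact.out
  have hodd : Odd p := hpr.odd_of_ne_two hp
  have h4 : p % 4 = 1 ∨ p % 4 = 3 := by
    have := Nat.odd_iff.1 hodd
    omega
  have hℓodd : Odd ℓ := Nat.odd_iff.2 (by omega)
  rcases h4 with h4 | h4
  · have he : Even ((p - 1) / 2) := by
      rw [Nat.even_iff]
      omega
    have e : pstar p = (p : ℤ) := by
      rw [pstar, he.neg_one_pow, one_mul]
    rw [e, jacobiSym.quadratic_reciprocity_one_mod_four h4 hℓodd]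
    exact h
  · have he : Odd ((p - 1) / 2) := by
      rw [Nat.odd_iff]
      omega
    have e : pstar p = -1 * (p : ℤ) := by
      rw [pstar, he.neg_one_pow]
    rw [e, jacobiSym.mul_left, jacobiSym.at_neg_one hℓodd, ZMod.χ₄_nat_three_mod_four hℓ,
      jacobiSym.quadratic_reciprocity_three_mod_four h4 hℓ, h]
    norm_num

/-- For every `n ≠ 0` and every bound `B` there is a prime number `ℓ > B` such that `-1` and `p*`, for
all odd primes `p` dividing `n`, are not squares in `ℚ_ℓ`.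

Proof. For every odd prime `p ∣ n` choose a nonresidue `r_p` mod `p` (`FiniteField.exists_nonsquare`
for `ZMod p`). By the Chinese remainder theorem (`Nat.chineseRemainderOfFinset`, or induction) and
Dirichlet's theorem (`Nat.forall_exists_prime_gt_and_eq_mod`) there is a prime `ℓ > B` with
`ℓ ≡ 3 mod 4` and `ℓ ≡ r_p mod p`. Then `J(ℓ | p) = -1`; use `jacobi_pstar` and `padic_nonsquare` of
`Quad.lean` (`J(-1 | ℓ) = -1` as `ℓ ≡ 3 mod 4`). -/
theorem exists_good_prime (n : ℕ) (hn : n ≠ 0) (B : ℕ) :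
    ∃ (ℓ : ℕ) (_ : Fact ℓ.Prime), B < ℓ ∧ ¬ IsSquare (-1 : ℚ_[ℓ]) ∧
      ∀ p : ℕ, p.Prime → p ≠ 2 → p ∣ n → ¬ IsSquare ((pstar p : ℤ) : ℚ_[ℓ]) := by
  classical
  set S : Finset ℕ := n.primeFactors.erase 2 with hS
  have hSp : ∀ p ∈ S, p.Prime ∧ p ≠ 2 := by
    intro p hp
    rw [hS, Finset.mem_erase] at hp
    exact ⟨Nat.prime_of_mem_primeFactors hp.2, hp.1⟩
  obtain ⟨c, hc4, hc⟩ := prime_aux S hSp
  set q : ℕ := 4 * ∏ p ∈ S, p with hq
  have hq0 : q ≠ 0 := by
    rw [hq]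
    refine Nat.mul_ne_zero (by norm_num) ?_
    rw [Finset.prod_ne_zero_iff]
    exact fun p hp => (hSp p hp).1.ne_zero
  haveI : NeZero q := ⟨hq0⟩
  have hcop : c.Coprime q := by
    refine Nat.Coprime.mul_right ?_ (Nat.Coprime.prod_right fun p hp => ?_)
    · have h1 : Nat.Coprime c 2 := Nat.coprime_two_right.2 (Nat.odd_iff.2 (by omega))
      have h2 := Nat.Coprime.pow_right 2 h1
      simpa using h2
    · have hpp := (hSp p hp).1
      rw [Nat.coprime_comm, Nat.Prime.coprime_iff_not_dvd hpp]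
      intro hdvd
      have h1 := hc p hp
      haveI : NeZero p := ⟨hpp.ne_zero⟩
      have h2 : jacobiSym (c : ℤ) p = 0 := by
        rw [jacobiSym.eq_zero_iff_not_coprime]
        intro h3
        rw [Int.gcd_natCast_natCast] at h3
        have h4 : p ∣ 1 := h3 ▸ Nat.dvd_gcd hdvd dvd_rfl
        exact hpp.one_lt.ne' (Nat.dvd_one.1 h4)
      rw [h2] at h1
      norm_num at h1
  have hunit : IsUnit (c : ZMod q) := (ZMod.isUnit_iff_coprime c q).2 hcop
  obtain ⟨ℓ, hB, hℓ, hℓc⟩ := Nat.forall_exists_prime_gt_and_eq_mod hunit B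
  have hmod : ℓ ≡ c [MOD q] := (ZMod.natCast_eq_natCast_iff _ _ _).1 hℓc
  have hℓ4 : ℓ % 4 = 3 := by
    have h1 : ℓ % 4 = c % 4 := Nat.ModEq.of_mul_right _ hmod
    exact h1.trans hc4
  have hF : Fact ℓ.Prime := ⟨hℓ⟩
  refine ⟨ℓ, hF, hB, ?_, ?_⟩
  · have h1 := padic_nonsquare ℓ (-1) (by
      rw [jacobiSym.at_neg_one (Nat.odd_iff.2 (by omega)), ZMod.χ₄_nat_three_mod_four hℓ4])
    simpa using h1
  · intro p hp hp2 hpn
    haveI : Fact p.Prime := ⟨hp⟩
    have hpS : p ∈ S := by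
      rw [hS, Finset.mem_erase]
      exact ⟨hp2, Nat.mem_primeFactors.2 ⟨hp, hpn, hn⟩⟩
    refine padic_nonsquare ℓ (pstar p) (jacobi_pstar ℓ p hℓ4 hp2 ?_)
    rw [← hc p hpS]
    apply jacobiSym.mod_left'
    have h1 : ℓ ≡ c [MOD p] := by
      have h2 : ℓ ≡ c [MOD ∏ p ∈ S, p] := Nat.ModEq.of_mul_left _ hmod
      exact h2.of_dvd (Finset.dvd_prod_of_mem _ hpS)
    exact_mod_cast h1

/-- `-1` and `p*` are not squares in `ℚ`. Proof: a square is not negative, and `p` is not a square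
(`Nat.Prime.irreducible`, `Rat.isSquare_intCast_iff`). -/
theorem pstar_nonsquare_rat (p : ℕ) (hp : p.Prime) : ¬ IsSquare ((pstar p : ℤ) : ℚ) := by
  rw [Rat.isSquare_intCast_iff]
  rintro ⟨x, hx⟩
  have h1 : p = x.natAbs * x.natAbs := by
    rw [← Int.natAbs_mul, ← hx, pstar, Int.natAbs_mul, Int.natAbs_pow]
    simp
  exact (hp.prime.not_isSquare) ⟨x.natAbs, h1⟩

end Pool.Agent.H.MP_ac3185_nt
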