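import Pool.Agent.H.MP_ac3185_nt.R.Fix
import Pool.Agent.H.MP_ac3185_nt.R.Prime

/-! Even relations. -/

set_option autoImplicit false

namespace Pool.Agent.H.MP_ac3185_nt

theorem corc_sylow {G : Type*} [Group G] [Finite G] (p k : ℕ) (hp : p.Prime)
    (hG : Nat.card G = p * k) (hk : 0 < k) (hkp : k < p) :
    ∃ s : G, orderOf s = p ∧ ∀ g : G, ∃ n : ℕ, g * s * g⁻¹ = s ^ n := by
  classical
  have : Fact p.Prime := ⟨hp⟩
  have hpk : ¬ p ∣ k := fun h => by
    have := Nat.le_of_dvd hk h
    omega
  let P : Sylow p G := default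
  have hcard : Nat.card P = p := by
    have h := P.card_eq_multiplicity
    rw [hG, Nat.factorization_mul hp.ne_zero hk.ne', Finsupp.add_apply,
      hp.factorization_self, Nat.factorization_eq_zero_of_not_dvd hpk, add_zero, pow_one] at h
    exact h
  have hindex : (P : Subgroup G).index = k := by
    have h := (P : Subgroup G).card_mul_index
    rw [hG, hcard] at h
    exact Nat.eq_of_mul_eq_mul_left hp.pos h
  have h1 := card_sylow_modEq_one p G
  have h2 : Nat.card (Sylow p G) ∣ k := by
    rw [← hindex]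
    exact P.card_dvd_index
  have h3 : Nat.card (Sylow p G) ≤ k := Nat.le_of_dvd hk h2
  have h4 : Nat.card (Sylow p G) = 1 := by
    unfold Nat.ModEq at h1
    rw [Nat.mod_eq_of_lt (by omega), Nat.mod_eq_of_lt hp.one_lt] at h1
    exact h1
  have : Subsingleton (Sylow p G) := (Nat.card_eq_one_iff_unique.mp h4).1
  have hnorm : (P : Subgroup G).Normal := P.normal_of_subsingleton
  have hnt : ∃ x : (P : Subgroup G), x ≠ 1 := by
    by_contra hcon
    push Not at hcon
    have : Nat.card P ≤ 1 := by
      have : Subsingleton P := ⟨fun a b => by rw [hcon a, hcon b]⟩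
      exact Finite.card_le_one_iff_subsingleton.mpr this
    rw [hcard] at this
    exact absurd this (by have := hp.one_lt; omega)
  obtain ⟨s, hs⟩ := hnt
  have hs1 : orderOf (s : G) = p := by
    rw [Subgroup.orderOf_coe]
    have h5 : orderOf s ∣ p := by
      have := orderOf_dvd_natCard s
      rwa [hcard] at this
    rcases hp.eq_one_or_self_of_dvd _ h5 with h | h
    · exact absurd (orderOf_eq_one_iff.mp h) hs
    · exact h
  have hz : Subgroup.zpowers (s : G) = P := by
    apply Subgroup.eq_of_le_of_card_ge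
    · rw [Subgroup.zpowers_le]
      exact s.2
    · rw [Nat.card_zpowers, hs1]
      exact hcard.le
  refine ⟨s, hs1, fun g => ?_⟩
  have h6 : g * (s : G) * g⁻¹ ∈ Subgroup.zpowers (s : G) := by
    rw [hz]
    exact hnorm.conj_mem _ s.2 g
  have h7 := (mem_powers_iff_mem_zpowers (x := (s : G))).mpr h6
  obtain ⟨n, hn⟩ := h7
  exact ⟨n, hn.symm⟩

theorem corc_exp {G : Type*} [Group G] (p k : ℕ) [Fact p.Prime] (hp2 : p ≠ 2)
    (hk0 : 0 < k) (hk : 2 * k ∣ p - 1) (s h : G) (hs : orderOf s = p) (hh : h ^ k = 1) (n : ℕ)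
    (hn : h * s * h⁻¹ = s ^ n) : (n : ZMod p) ≠ 0 ∧ IsSquare (n : ZMod p) := by
  have hp : p.Prime := Fact.out
  have h1 : ∀ j : ℕ, h ^ j * s * (h ^ j)⁻¹ = s ^ (n ^ j) := by
    intro j
    induction j with
    | zero => simp
    | succ j ih =>
      have e : h ^ (j + 1) * s * (h ^ (j + 1))⁻¹ = h * (h ^ j * s * (h ^ j)⁻¹) * h⁻¹ := by
        rw [pow_succ' h j, mul_inv_rev]
        group
      rw [e, ih, ← conj_pow, hn, ← pow_mul, pow_succ' n j]
  have h2 := h1 k
  rw [hh, one_mul, inv_one, mul_one] at h2
  have h3 : s ^ 1 = s ^ (n ^ k) := by rw [pow_one]; exact h2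
  rw [pow_eq_pow_iff_modEq, hs] at h3
  have h4 : (n : ZMod p) ^ k = 1 := by
    have := (ZMod.natCast_eq_natCast_iff 1 (n ^ k) p).mpr h3
    push_cast at this
    exact this.symm
  have h5 : (n : ZMod p) ≠ 0 := by
    intro h
    rw [h, zero_pow hk0.ne'] at h4
    exact zero_ne_one h4
  refine ⟨h5, ?_⟩
  rw [ZMod.euler_criterion p h5]
  obtain ⟨t, ht⟩ := hk
  have h6 : p / 2 = k * t := by
    have := hp.eq_two_or_odd'.resolve_left hp2
    obtain ⟨u, hu⟩ := this
    have e : 2 * k * t = 2 * (k * t) := by ring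
    rw [e] at ht
    omega
  rw [h6, pow_mul, h4, one_pow]

theorem corc_sum_val {A : Type*} [AddCommMonoid A] (p : ℕ) [Fact p.Prime] (f : ℕ → A) :
    ∑ b : ZMod p, f b.val = ∑ i ∈ Finset.range p, f i := by
  have hp : p.Prime := Fact.out
  obtain ⟨n, rfl⟩ := Nat.exists_eq_succ_of_ne_zero hp.ne_zero
  exact Fin.sum_univ_eq_sum_range f (n + 1)

section grp

variable {G M : Type*} [Group G] [Finite G] [AddCommGroup M] [Module ℚ M] [FiniteDimensional ℚ M]

theorem corc_comm (ρ : Representation ℚ G M) (p : ℕ) [Fact p.Prime] (s h : G)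
    (hs : orderOf s = p) (n : ℕ) (hn : h * s * h⁻¹ = s ^ n) (hn0 : (n : ZMod p) ≠ 0)
    (w : ZMod p → ℚ) (hw : ∀ b, w ((n : ZMod p) * b) = w b) :
    ρ h * ∑ b : ZMod p, w b • (ρ s) ^ b.val = (∑ b : ZMod p, w b • (ρ s) ^ b.val) * ρ h := by
  have h1 : ∀ b : ZMod p, ρ h * (ρ s) ^ b.val = (ρ s) ^ ((n : ZMod p) * b).val * ρ h := by
    intro b
    rw [← map_pow, ← map_pow, ← map_mul, ← map_mul]
    congr 1
    have e1 : h * s ^ b.val = (h * s * h⁻¹) ^ b.val * h := by
      rw [conj_pow]
      group
    rw [e1, hn, ← pow_mul]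
    congr 1
    have e2 : ((n : ZMod p) * b).val = (n * b.val) % p := by
      conv_lhs => rw [← ZMod.natCast_zmod_val b, ← Nat.cast_mul]
      rw [ZMod.val_natCast]
    have e3 : ∀ N : ℕ, s ^ N = s ^ (N % p) := by
      intro N
      have := pow_mod_orderOf s N
      rw [hs] at this
      exact this.symm
    rw [e2]
    exact e3 _
  rw [Finset.mul_sum, Finset.sum_mul]
  have h2 : ∀ b : ZMod p, ρ h * w b • (ρ s) ^ b.val =
      (w ((n : ZMod p) * b) • (ρ s) ^ ((n : ZMod p) * b).val) * ρ h := by
    intro b
    rw [mul_smul_comm, h1 b, hw b, smul_mul_assoc]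
  rw [Finset.sum_congr rfl (fun b _ => h2 b)]
  exact Equiv.sum_comp (Equiv.mulLeft₀ (n : ZMod p) hn0)
    (fun b : ZMod p => (w b • (ρ s) ^ b.val) * ρ h)

/-- Subgroups of order `k` in a group of order `p k`, `2 k ∣ p - 1`.

Proof. The number of Sylow `p`-subgroups is `≡ 1 mod p` and divides `k < p`, so there is a normal
subgroup `P` of order `p` (`p` does not divide `k`), generated by `s`; `G = P H`, as `H` has order `k`.
For `h ∈ H` there is `a` with `h s h⁻¹ = s ^ a`, `a ^ k ≡ 1 mod p`, so `a ^ ((p-1)/2) ≡ 1` and `a` is a square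
mod `p` (`ZMod.euler_criterion`). So the operator `gaussOp p (ρ s)` commutes with `ρ h` (reindex the sum
by `a`: `ρ h (ρ s)^i = (ρ s)^(a i) ρ h`, `quadraticChar` is multiplicative and `1` at `a`). Let
`N = ker (∑_(i<p) (ρ s)^i)`. Then `fixedVec ρ H` is the direct sum of `fixedVec ρ univ`
(vectors fixed by `s` and `H`) and of `N ⊓ fixedVec ρ H` (`p x = ∑ s^i x + ∑ (x - s^i x)`), on which
`gaussOp p (ρ s)` acts with square `p*` (`gaussOp_sq`), so its dimension is even (`even_of_sq`,
`pstar_nonsquare_rat`). -/
theorem finrank_prime_index (p k : ℕ) (hp : p.Prime) (hG : Nat.card G = p * k)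
    (hk : 2 * k ∣ p - 1) (H : Subgroup G) (hH : Nat.card H = k) (ρ : Representation ℚ G M) :
    Module.finrank ℚ (fixedVec ρ (H : Set G)) ≡
      Module.finrank ℚ (fixedVec ρ (Set.univ : Set G)) [MOD 2] := by
  classical
  have : Fact p.Prime := ⟨hp⟩
  have hk0 : 0 < k := by rw [← hH]; exact Nat.card_pos
  have hp1 : 1 ≤ p - 1 := by have := hp.one_lt; omega
  have hkle : 2 * k ≤ p - 1 := Nat.le_of_dvd hp1 hk
  have hkp : k < p := by omega
  have hp2 : p ≠ 2 := by omega
  have hcop : Nat.Coprime p k := by
    rw [Nat.Prime.coprime_iff_not_dvd hp]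
    intro h
    have := Nat.le_of_dvd hk0 h
    omega
  obtain ⟨s, hs, hconj⟩ := corc_sylow p k hp hG hk0 hkp
  set S : Module.End ℚ M := ρ s with hS
  have hSp : S ^ p = 1 := by
    rw [hS, ← map_pow, ← hs, pow_orderOf_eq_one, map_one]
  set T : Module.End ℚ M := ∑ i ∈ Finset.range p, S ^ i with hT
  have hTz : T = ∑ b : ZMod p, (1 : ℚ) • S ^ b.val := by
    simp only [one_smul]
    rw [hT, corc_sum_val p (fun i => S ^ i)]
  set J : Module.End ℚ M := gaussOp p S with hJ
  have hHdata : ∀ h ∈ H, ρ h * T = T * ρ h ∧ ρ h * J = J * ρ h := by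
    intro h hh
    obtain ⟨n, hn⟩ := hconj h
    have hhk : h ^ k = 1 := by
      have e : (⟨h, hh⟩ : H) ^ Nat.card H = 1 := pow_card_eq_one'
      rw [hH] at e
      exact congrArg Subtype.val e
    obtain ⟨hn0, hsq⟩ := corc_exp p k hp2 hk0 hk s h hs hhk n hn
    constructor
    · rw [hTz]
      exact corc_comm ρ p s h hs n hn hn0 (fun _ => 1) (fun _ => rfl)
    · have := corc_comm ρ p s h hs n hn hn0
        (fun b => ((quadraticChar (ZMod p) b : ℤ) : ℚ)) (fun b => by
          have e : quadraticChar (ZMod p) ((n : ZMod p) * b) = quadraticChar (ZMod p) b := by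
            rw [map_mul, (quadraticChar_one_iff_isSquare hn0).mpr hsq, one_mul]
          rw [e])
      exact this
  have hST : S * T = T := by
    have e1 : S * T = ∑ i ∈ Finset.range p, S ^ (i + 1) := by
      rw [hT, Finset.mul_sum]
      exact Finset.sum_congr rfl (fun i _ => (pow_succ' S i).symm)
    have e2 := Finset.sum_range_succ (fun i => S ^ i) p
    have e3 := Finset.sum_range_succ' (fun i => S ^ i) p
    rw [e2] at e3
    rw [e1, hT]
    have e4 : (∑ i ∈ Finset.range p, S ^ (i + 1)) + S ^ 0 =
        (∑ i ∈ Finset.range p, S ^ i) + S ^ p := e3.symm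
    rw [hSp, pow_zero] at e4
    exact add_right_cancel e4
  have hcommS : ∀ i : ℕ, Commute S (S ^ i) := fun i => (Commute.refl S).pow_right i
  have hJT : Commute J T := by
    rw [hJ, hT]
    unfold gaussOp
    apply Commute.sum_left
    intro a _
    apply Commute.sum_right
    intro i _
    exact ((Commute.refl S).pow_pow _ _).smul_left _
  let V : Submodule ℚ M := fixedVec ρ (H : Set G)
  let Q : Submodule ℚ M := V ⊓ LinearMap.ker T
  have hJV : ∀ x ∈ V, J x ∈ V := by
    intro x hx h hh
    have e := congrArg (fun f : Module.End ℚ M => f x) (hHdata h hh).2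
    have e' : ρ h (J x) = J (ρ h x) := e
    rw [e', hx h hh]
  have hJK : ∀ x ∈ LinearMap.ker T, J x ∈ LinearMap.ker T := by
    intro x hx
    rw [LinearMap.mem_ker] at hx ⊢
    have e := congrArg (fun f : Module.End ℚ M => f x) hJT.eq
    have e' : J (T x) = T (J x) := e
    rw [← e', hx, map_zero]
  have hJsq : ∀ x ∈ LinearMap.ker T, J (J x) = ((pstar p : ℤ) : ℚ) • x := by
    intro x hx
    let N : Submodule ℚ M := LinearMap.ker T
    have hSN : ∀ y ∈ N, S y ∈ N := by
      intro y hy
      have hy' : T y = 0 := hy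
      show T (S y) = 0
      have e : T * S = S * T := by
        rw [hT, Finset.mul_sum, Finset.sum_mul]
        exact Finset.sum_congr rfl (fun i _ => (hcommS i).eq.symm)
      have e' := congrArg (fun f : Module.End ℚ M => f y) e
      have e'' : T (S y) = S (T y) := e'
      rw [e'', hy', map_zero]
    let SN : Module.End ℚ N := S.restrict hSN
    have hpow : ∀ (i : ℕ) (y : N), (((SN ^ i) y : N) : M) = (S ^ i) y := by
      intro i
      induction i with
      | zero => intro y; rfl
      | succ i ih =>
        intro y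
        rw [pow_succ, pow_succ, Module.End.mul_apply, Module.End.mul_apply, ih]
        rfl
    have hsum0 : ∑ i ∈ Finset.range p, SN ^ i = 0 := by
      ext y
      rw [LinearMap.sum_apply, Submodule.coe_sum]
      rw [Finset.sum_congr rfl (fun i _ => hpow i y)]
      have hy : T y = 0 := y.2
      rw [hT, LinearMap.sum_apply] at hy
      rw [hy]
      rfl
    have hg := gaussOp_sq p hp2 SN hsum0
    have hgc : ∀ y : N, ((gaussOp p SN y : N) : M) = J y := by
      intro y
      rw [hJ]
      unfold gaussOp
      rw [LinearMap.sum_apply, LinearMap.sum_apply, Submodule.coe_sum]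
      apply Finset.sum_congr rfl
      intro a _
      rw [LinearMap.smul_apply, LinearMap.smul_apply, Submodule.coe_smul, hpow]
    have e := congrArg (fun f : Module.End ℚ N => ((f ⟨x, hx⟩ : N) : M)) hg
    have e' : ((gaussOp p SN (gaussOp p SN ⟨x, hx⟩) : N) : M) = ((pstar p : ℤ) : ℚ) • x := e
    rw [hgc, hgc] at e'
    exact e'
  have hQ : ∀ x ∈ Q, J x ∈ Q := fun x hx => ⟨hJV x hx.1, hJK x hx.2⟩
  have hev : Even (Module.finrank ℚ Q) := by
    apply even_of_sq ((pstar p : ℤ) : ℚ) (pstar_nonsquare_rat p hp) (J.restrict hQ)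
    intro x
    apply Subtype.ext
    exact hJsq x x.2.2
  -- rank and nullity
  have hrn := LinearMap.finrank_range_add_finrank_ker (T.domRestrict V)
  have hker : Module.finrank ℚ (LinearMap.ker (T.domRestrict V)) = Module.finrank ℚ Q := by
    have e : LinearMap.ker (T.domRestrict V) = Q.comap V.subtype := by
      ext x
      constructor
      · intro hx
        exact ⟨x.2, hx⟩
      · intro hx
        exact hx.2
    rw [e]
    exact (Submodule.comapSubtypeEquivOfLe inf_le_left).finrank_eq
  have hran : LinearMap.range (T.domRestrict V) = fixedVec ρ (Set.univ : Set G) := by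
    ext y
    constructor
    · rintro ⟨x, rfl⟩ g _
      have hxT : T.domRestrict V x = T x := rfl
      rw [hxT]
      let F : Subgroup G :=
        { carrier := {g | ρ g (T x) = T x}
          one_mem' := by
            show ρ 1 (T x) = T x
            rw [map_one]; rfl
          mul_mem' := fun {a b} ha hb => by
            show ρ (a * b) (T x) = T x
            rw [map_mul, Module.End.mul_apply]
            have ha' : ρ a (T x) = T x := ha
            have hb' : ρ b (T x) = T x := hb
            rw [hb', ha']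
          inv_mem' := fun {a} ha => by
            show ρ a⁻¹ (T x) = T x
            have ha' : ρ a (T x) = T x := ha
            conv_lhs => rw [← ha']
            rw [← Module.End.mul_apply, ← map_mul, inv_mul_cancel, map_one]
            rfl }
      have hsF : s ∈ F := by
        have e := congrArg (fun f : Module.End ℚ M => f (x : M)) hST
        exact e
      have hHF : H ≤ F := by
        intro h hh
        have e := congrArg (fun f : Module.End ℚ M => f (x : M)) (hHdata h hh).1
        have e' : ρ h (T x) = T (ρ h x) := e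
        show ρ h (T x) = T x
        rw [e', x.2 h hh]
      have d1 : p ∣ Nat.card F := by
        rw [← hs, ← Nat.card_zpowers]
        exact Subgroup.card_dvd_of_le (Subgroup.zpowers_le.mpr hsF)
      have d2 : k ∣ Nat.card F := by
        rw [← hH]
        exact Subgroup.card_dvd_of_le hHF
      have d3 : p * k ∣ Nat.card F := hcop.mul_dvd_of_dvd_of_dvd d1 d2
      have hFtop : F = ⊤ := by
        apply Subgroup.eq_top_of_card_eq
        apply Nat.dvd_antisymm (Subgroup.card_subgroup_dvd_card F)
        rw [hG]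
        exact d3
      have : g ∈ F := by rw [hFtop]; exact Subgroup.mem_top g
      exact this
    · intro hy
      refine ⟨⟨(1 / (p : ℚ)) • y, ?_⟩, ?_⟩
      · intro h _
        rw [map_smul, hy h (Set.mem_univ _)]
      · show T ((1 / (p : ℚ)) • y) = y
        have hSy : ∀ i : ℕ, (S ^ i) y = y := by
          intro i
          induction i with
          | zero => rfl
          | succ i ih =>
            rw [pow_succ, Module.End.mul_apply, hy s (Set.mem_univ _), ih]
        have e : T y = (p : ℚ) • y := by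
          rw [hT, LinearMap.sum_apply, Finset.sum_congr rfl (fun i _ => hSy i),
            Finset.sum_const, Finset.card_range, Nat.cast_smul_eq_nsmul]
        rw [map_smul, e, smul_smul]
        have hp0 : (p : ℚ) ≠ 0 := by exact_mod_cast hp.ne_zero
        rw [one_div, inv_mul_cancel₀ hp0, one_smul]
  rw [hran, hker] at hrn
  have hrn' : Module.finrank ℚ (fixedVec ρ (Set.univ : Set G)) + Module.finrank ℚ Q =
      Module.finrank ℚ (fixedVec ρ (H : Set G)) := hrn
  rw [← hrn']
  obtain ⟨t, ht⟩ := hev
  rw [ht]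
  unfold Nat.ModEq
  omega

end grp

end Pool.Agent.H.MP_ac3185_nt
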