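import Pool.Agent.H.MP_ac3185_nt.R.Defs
import Pool.Agent.H.MP_ac3185_nt.R.CorB
import Pool.Agent.H.MP_ac3185_nt.R.CorC

/-! Even relations. -/

set_option autoImplicit false

namespace Pool.Agent.H.MP_ac3185_nt

universe u

section fields

variable {K : Type u} [Field K] [CharZero K]

theorem corf_relGal_eq (F : IntermediateField K (AlgebraicClosure K))
    (L : IntermediateField K (AlgebraicClosure K)) (hL : L ≤ F) :
    relGal F L = (IntermediateField.restrict hL).fixingSubgroup := by
  ext g
  rw [IntermediateField.mem_fixingSubgroup_iff]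
  constructor
  · intro hg x hx
    exact hg x ((IntermediateField.mem_restrict hL x).1 hx)
  · intro hg x hx
    exact hg x ((IntermediateField.mem_restrict hL x).2 hx)

theorem corf_fixed {G M : Type*} [Group G] [AddCommGroup M] [Module ℚ M]
    (ρ : Representation ℚ G M) (H : Subgroup G) :
    fixedVec (ρ.comp H.subtype) (Set.univ : Set H) = fixedVec ρ (H : Set G) := by
  ext x
  rw [mem_fixedVec, mem_fixedVec]
  constructor
  · intro h g hg
    exact h ⟨g, hg⟩ (Set.mem_univ _)
  · intro h g _
    exact h g.1 g.2

theorem corf_parity {a b : ℕ} (h : a ≡ b [MOD 2]) : Even (a + b) := by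
  unfold Nat.ModEq at h
  rw [Nat.even_iff]
  omega

/-- The order of `relGal F L`, for `L ⊆ F`. -/
theorem card_relGal (F : IntermediateField K (AlgebraicClosure K)) [FiniteDimensional K F]
    [IsGalois K F] (L : IntermediateField K (AlgebraicClosure K)) (hL : L ≤ F) :
    Nat.card (relGal F L) * Module.finrank K L = Module.finrank K F := by
  have h1 : Nat.card (relGal F L) = Module.finrank (IntermediateField.restrict hL) F := by
    rw [corf_relGal_eq F L hL]
    exact IsGalois.card_fixingSubgroup_eq_finrank _
  have h2 : Module.finrank K L = Module.finrank K (IntermediateField.restrict hL) :=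
    (IntermediateField.restrictAlgEquiv hL).toLinearEquiv.finrank_eq
  rw [h1, h2, mul_comm]
  exact Module.finrank_mul_finrank K (IntermediateField.restrict hL) F

theorem relGal_bot (F : IntermediateField K (AlgebraicClosure K)) : relGal F ⊥ = ⊤ := by
  rw [eq_top_iff]
  intro g _ x hx
  obtain ⟨k, hk⟩ := IntermediateField.mem_bot.1 hx
  have h1 : x = algebraMap K F k := by
    apply Subtype.ext
    rw [← hk]
    rfl
  rw [h1]
  exact AlgEquiv.commutes g k

theorem relGal_self (F : IntermediateField K (AlgebraicClosure K)) : relGal F F = ⊥ := by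
  rw [eq_bot_iff]
  intro g hg
  rw [Subgroup.mem_bot]
  ext x
  have h1 : g x = x := hg x x.2
  rw [h1]
  rfl

/-- The even relation for a Galois extension of odd degree. Proof: `finrank_odd_order` for the
group and for its subgroup `relGal F L`. -/
theorem even_odd (F : IntermediateField K (AlgebraicClosure K)) [FiniteDimensional K F]
    [IsGalois K F] (hF : Odd (Module.finrank K F))
    (L : IntermediateField K (AlgebraicClosure K)) (hL : L ≤ F) : EvenRelation F ![L, ⊥] := by
  intro M _ _ _ ρ
  have hcard : Nat.card (F ≃ₐ[K] F) = Module.finrank K F := IsGalois.card_aut_eq_finrank K F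
  have hfin : Finite (F ≃ₐ[K] F) := inferInstance
  have hG : Odd (Nat.card (F ≃ₐ[K] F)) := by
    rw [hcard]
    exact hF
  have hH : Odd (Nat.card (relGal F L)) := by
    have h1 : Nat.card (relGal F L) ∣ Nat.card (F ≃ₐ[K] F) := Subgroup.card_subgroup_dvd_card _
    exact Odd.of_dvd_nat hG h1
  have h1 := finrank_odd_order hG ρ
  have h2 := finrank_odd_order hH (ρ.comp (relGal F L).subtype)
  rw [corf_fixed] at h2
  rw [Fin.sum_univ_two]
  have e0 : (![L, ⊥] : Fin 2 → IntermediateField K (AlgebraicClosure K)) 0 = L := rfl
  have e1 : (![L, ⊥] : Fin 2 → IntermediateField K (AlgebraicClosure K)) 1 = ⊥ := rfl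
  rw [e0, e1, relGal_bot, Subgroup.coe_top]
  exact corf_parity (h2.symm.trans h1)

/-- The even relation for an extension of prime degree. Proof: `finrank_prime_index`. -/
theorem even_prime (F : IntermediateField K (AlgebraicClosure K)) [FiniteDimensional K F]
    [IsGalois K F] (p k : ℕ) (hp : p.Prime) (hF : Module.finrank K F = p * k) (hk : 2 * k ∣ p - 1)
    (L : IntermediateField K (AlgebraicClosure K)) (hL : L ≤ F) (hLp : Module.finrank K L = p) :
    EvenRelation F ![L, ⊥] := by
  intro M _ _ _ ρ
  have hcard : Nat.card (F ≃ₐ[K] F) = Module.finrank K F := IsGalois.card_aut_eq_finrank K F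
  have hfin : Finite (F ≃ₐ[K] F) := inferInstance
  have hH : Nat.card (relGal F L) = k := by
    have h1 := card_relGal F L hL
    rw [hLp, hF, mul_comm] at h1
    exact Nat.eq_of_mul_eq_mul_left hp.pos h1
  have h1 := finrank_prime_index p k hp (hcard.trans hF) hk (relGal F L) hH ρ
  rw [Fin.sum_univ_two]
  have e0 : (![L, ⊥] : Fin 2 → IntermediateField K (AlgebraicClosure K)) 0 = L := rfl
  have e1 : (![L, ⊥] : Fin 2 → IntermediateField K (AlgebraicClosure K)) 1 = ⊥ := rfl
  rw [e0, e1, relGal_bot, Subgroup.coe_top]
  exact corf_parity h1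

/-- The intermediate fields of `F` of degree `2` over `K`. -/
abbrev QuadFields (F : IntermediateField K (AlgebraicClosure K)) : Type u :=
  {L : IntermediateField K (AlgebraicClosure K) // L ≤ F ∧ Module.finrank K L = 2}

theorem finite_quadFields (F : IntermediateField K (AlgebraicClosure K)) [FiniteDimensional K F] :
    Finite (QuadFields F) := by
  have h1 : Finite (IntermediateField K F) :=
    Field.finite_intermediateField_of_exists_primitive_element K F
      (Field.exists_primitive_element K F)
  refine Finite.of_injective (fun L : QuadFields F => IntermediateField.restrict L.2.1) ?_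
  intro L1 L2 h
  apply Subtype.ext
  have h2 := congrArg IntermediateField.lift h
  rw [IntermediateField.lift_restrict, IntermediateField.lift_restrict] at h2
  exact h2

end fields

end Pool.Agent.H.MP_ac3185_nt
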