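import Pool.Agent.H.MP_ac3185_nt.R.CorE
import Pool.Agent.H.MP_ac3185_nt.R.CorF

/-! Even relations. -/

set_option autoImplicit false

namespace Pool.Agent.H.MP_ac3185_nt

universe u

section grp

variable {G M : Type*} [Group G] [AddCommGroup M] [Module ℚ M]

theorem corg_exists_neg (ε : G →* ℤˣ) (hε : ε ≠ 1) : ∃ g, ε g = -1 := by
  by_contra h
  push Not at h
  apply hε
  apply MonoidHom.ext
  intro g
  rcases Int.units_eq_one_or (ε g) with h1 | h1
  · rw [h1, MonoidHom.one_apply]
  · exact absurd h1 (h g)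

/-- the vectors fixed by the kernel of a nontrivial character with values `±1` -/
theorem corg_finrank_ker [FiniteDimensional ℚ M] (ρ : Representation ℚ G M) (ε : G →* ℤˣ)
    (hε : ε ≠ 1) :
    Module.finrank ℚ (fixedVec ρ (ε.ker : Set G)) =
      Module.finrank ℚ (fixedVec ρ (Set.univ : Set G)) + Module.finrank ℚ (epsPart ρ ε) := by
  have hmul : ∀ a b x, ρ (a * b) x = ρ a (ρ b x) := fun a b x => by
    rw [map_mul]; rfl
  obtain ⟨g, hg⟩ := corg_exists_neg ε hε
  have hsup : fixedVec ρ (Set.univ : Set G) ⊔ epsPart ρ ε = fixedVec ρ (ε.ker : Set G) := by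
    apply le_antisymm
    · apply sup_le
      · intro x hx h _
        exact hx h (Set.mem_univ h)
      · intro x hx h hh
        have h1 := hx h
        have h2 : ε h = 1 := hh
        rw [h2] at h1
        simpa using h1
    · intro x hx
      have hall : ∀ h, (ε h = 1 → ρ h x = x) ∧ (ε h = -1 → ρ h x = ρ g x) := by
        intro h
        constructor
        · intro h1
          exact hx h h1
        · intro h1
          have h2 : ε (g⁻¹ * h) = 1 := by
            rw [map_mul, map_inv, hg, h1, inv_mul_cancel]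
          have h3 : ρ (g⁻¹ * h) x = x := hx _ h2
          have h4 : h = g * (g⁻¹ * h) := by group
          rw [h4, hmul, h3]
      have hall2 : ∀ h, (ε h = 1 → ρ h (ρ g x) = ρ g x) ∧ (ε h = -1 → ρ h (ρ g x) = x) := by
        intro h
        constructor
        · intro h1
          rw [← hmul]
          exact (hall (h * g)).2 (by rw [map_mul, h1, hg, one_mul])
        · intro h1
          rw [← hmul]
          exact (hall (h * g)).1 (by rw [map_mul, h1, hg]; rfl)
      have hy : x + ρ g x ∈ fixedVec ρ (Set.univ : Set G) := by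
        intro h _
        rw [map_add]
        rcases Int.units_eq_one_or (ε h) with h1 | h1
        · rw [(hall h).1 h1, (hall2 h).1 h1]
        · rw [(hall h).2 h1, (hall2 h).2 h1, add_comm]
      have hz : x - ρ g x ∈ epsPart ρ ε := by
        intro h
        rw [map_sub]
        rcases Int.units_eq_one_or (ε h) with h1 | h1
        · rw [(hall h).1 h1, (hall2 h).1 h1, h1]
          simp
        · rw [(hall h).2 h1, (hall2 h).2 h1, h1]
          simp
      have hx2 : x = (1 / 2 : ℚ) • (x + ρ g x) + (1 / 2 : ℚ) • (x - ρ g x) := by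
        module
      rw [hx2]
      exact Submodule.add_mem_sup (Submodule.smul_mem _ _ hy) (Submodule.smul_mem _ _ hz)
  have hinf : fixedVec ρ (Set.univ : Set G) ⊓ epsPart ρ ε = ⊥ := by
    rw [eq_bot_iff]
    rintro x ⟨h1, h2⟩
    have h3 := h1 g (Set.mem_univ g)
    have h4 := h2 g
    rw [h3, hg] at h4
    have h5 : x = -x := by simpa using h4
    have h6 : (2 : ℚ) • x = 0 := by
      rw [two_smul]
      nth_rewrite 2 [h5]
      exact add_neg_cancel x
    rw [Submodule.mem_bot]
    exact (smul_eq_zero.1 h6).resolve_left two_ne_zero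
  have h := Submodule.finrank_sup_add_finrank_inf_eq (fixedVec ρ (Set.univ : Set G)) (epsPart ρ ε)
  rw [hsup, hinf, finrank_bot, add_zero] at h
  exact h

theorem corg_epsPart_one (ρ : Representation ℚ G M) :
    epsPart ρ (1 : G →* ℤˣ) = fixedVec ρ (Set.univ : Set G) := by
  ext x
  constructor
  · intro h g _
    have := h g
    simpa using this
  · intro h g
    have := h g (Set.mem_univ g)
    simpa using this

/-- a subgroup of index two is the kernel of a character -/
theorem corg_exists_char (H : Subgroup G) (hH : H.index = 2) : ∃ ε : G →* ℤˣ, ε.ker = H := by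
  classical
  refine ⟨{ toFun := fun g => if g ∈ H then 1 else -1
            map_one' := if_pos H.one_mem
            map_mul' := fun a b => ?_ }, ?_⟩
  · have h := Subgroup.mul_mem_iff_of_index_two hH (a := a) (b := b)
    by_cases ha : a ∈ H
    · by_cases hb : b ∈ H
      · rw [if_pos ha, if_pos hb, if_pos (h.2 ⟨fun _ => hb, fun _ => ha⟩), one_mul]
      · rw [if_pos ha, if_neg hb, if_neg (fun hab => hb ((h.1 hab).1 ha)), one_mul]
    · by_cases hb : b ∈ H
      · rw [if_neg ha, if_pos hb, if_neg (fun hab => ha ((h.1 hab).2 hb)), mul_one]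
      · rw [if_neg ha, if_neg hb, if_pos (h.2 ⟨fun h' => absurd h' ha, fun h' => absurd h' hb⟩)]
        rfl
  · ext g
    rw [MonoidHom.mem_ker]
    show (if g ∈ H then (1 : ℤˣ) else -1) = 1 ↔ g ∈ H
    by_cases hg : g ∈ H
    · rw [if_pos hg]; exact ⟨fun _ => hg, fun _ => rfl⟩
    · rw [if_neg hg]
      exact ⟨fun h => absurd h (by decide), fun h => absurd h hg⟩

theorem corg_ker_inj (ε ε' : G →* ℤˣ) (h : ε.ker = ε'.ker) : ε = ε' := by
  apply MonoidHom.ext
  intro g
  have h1 : ε g = 1 ↔ ε' g = 1 := by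
    rw [← MonoidHom.mem_ker, ← MonoidHom.mem_ker, h]
  rcases Int.units_eq_one_or (ε g) with h2 | h2
  · rw [h2, h1.1 h2]
  · rcases Int.units_eq_one_or (ε' g) with h3 | h3
    · rw [h3, h1.2 h3]
    · rw [h2, h3]

theorem corg_index_ker (ε : G →* ℤˣ) (hε : ε ≠ 1) : ε.ker.index = 2 := by
  obtain ⟨g, hg⟩ := corg_exists_neg ε hε
  have hs : Function.Surjective ε := by
    intro u
    rcases Int.units_eq_one_or u with h | h
    · exact ⟨1, by rw [h, map_one]⟩
    · exact ⟨g, by rw [h, hg]⟩
  rw [Subgroup.index_ker, MonoidHom.range_eq_top.2 hs]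
  rw [Subgroup.card_top, Nat.card_eq_fintype_card]
  rfl

end grp

section fields

variable {K : Type u} [Field K] [CharZero K]

theorem corg_relGal_lift (F : IntermediateField K (AlgebraicClosure K)) (E : IntermediateField K F) :
    relGal F (IntermediateField.lift E) = E.fixingSubgroup := by
  ext g
  rw [IntermediateField.mem_fixingSubgroup_iff]
  constructor
  · intro h x hx
    exact h x ((IntermediateField.mem_lift x).2 hx)
  · intro h x hx
    exact h x ((IntermediateField.mem_lift x).1 hx)

theorem corg_relGal_restrict (F L : IntermediateField K (AlgebraicClosure K)) (h : L ≤ F) :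
    relGal F L = (IntermediateField.restrict h).fixingSubgroup := by
  rw [← corg_relGal_lift, IntermediateField.lift_restrict]

/-- The even relation for a Galois group with a normal `2`-complement: the field `F`, the quadratic
extensions of `K` in `F`, and `q + 1` times the field `K`, where `q` is the number of quadratic
extensions of `K` in `F`.

Proof. The quadratic fields are the fixed fields of the kernels of the homomorphisms `ε ≠ 1` from
`Gal(F/K)` to `ℤˣ` (Galois correspondence; a subgroup of index `2` is the kernel of exactly one `ε`), and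
`finrank (fixedVec ρ (ker ε)) = finrank (fixedVec ρ univ) + finrank (epsPart ρ ε)`,
`epsPart ρ 1 = fixedVec ρ univ`. Use `finrank_two_nilpotent`. -/
theorem even_quadratic (F : IntermediateField K (AlgebraicClosure K)) [FiniteDimensional K F]
    [IsGalois K F] [Fintype (QuadFields F)] (N : Subgroup (F ≃ₐ[K] F)) [N.Normal]
    (hN : Odd (Nat.card N)) (hG : IsPGroup 2 ((F ≃ₐ[K] F) ⧸ N)) :
    EvenRelation F (J := Option (QuadFields F) ⊕ Fin (Fintype.card (QuadFields F) + 1))
      (Sum.elim (fun o => o.elim F (fun L => L.1)) (fun _ => ⊥)) := by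
  classical
  intro M _ _ _ ρ
  have hfin : Finite ((F ≃ₐ[K] F) →* ℤˣ) := DFunLike.finite _
  have : Fintype ((F ≃ₐ[K] F) →* ℤˣ) := Fintype.ofFinite _
  -- the quadratic fields and the characters
  have hφ : ∀ ε : {ε : (F ≃ₐ[K] F) →* ℤˣ // ε ≠ 1},
      IntermediateField.lift (IntermediateField.fixedField ε.1.ker) ≤ F ∧
      Module.finrank K (IntermediateField.lift (IntermediateField.fixedField ε.1.ker)) = 2 := by
    intro ε
    refine ⟨IntermediateField.lift_le _, ?_⟩
    rw [← (IntermediateField.liftAlgEquiv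
      (IntermediateField.fixedField ε.1.ker)).toLinearEquiv.finrank_eq,
      IntermediateField.finrank_eq_fixingSubgroup_index,
      IntermediateField.fixingSubgroup_fixedField]
    exact corg_index_ker ε.1 ε.2
  let φ : {ε : (F ≃ₐ[K] F) →* ℤˣ // ε ≠ 1} → QuadFields F := fun ε =>
    ⟨IntermediateField.lift (IntermediateField.fixedField ε.1.ker), hφ ε⟩
  have hφrel : ∀ ε, relGal F (φ ε).1 = ε.1.ker := by
    intro ε
    show relGal F (IntermediateField.lift (IntermediateField.fixedField ε.1.ker)) = ε.1.ker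
    rw [corg_relGal_lift, IntermediateField.fixingSubgroup_fixedField]
  have hinj : Function.Injective φ := by
    intro ε ε' h
    apply Subtype.ext
    apply corg_ker_inj
    rw [← hφrel ε, ← hφrel ε', h]
  have hsurj : Function.Surjective φ := by
    rintro ⟨L, hL, hL2⟩
    have hidx : (relGal F L).index = 2 := by
      rw [corg_relGal_restrict F L hL, ← IntermediateField.finrank_eq_fixingSubgroup_index,
        ← (IntermediateField.restrictAlgEquiv hL).toLinearEquiv.finrank_eq]
      exact hL2
    obtain ⟨ε, hε⟩ := corg_exists_char _ hidx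
    have hε1 : ε ≠ 1 := by
      rintro rfl
      rw [MonoidHom.ker_one] at hε
      rw [← hε, Subgroup.index_top] at hidx
      exact absurd hidx (by norm_num)
    refine ⟨⟨ε, hε1⟩, ?_⟩
    apply Subtype.ext
    show IntermediateField.lift (IntermediateField.fixedField ε.ker) = L
    rw [hε, corg_relGal_restrict F L hL, IsGalois.fixedField_fixingSubgroup,
      IntermediateField.lift_restrict]
  have hcard : Fintype.card (QuadFields F) =
      Fintype.card {ε : (F ≃ₐ[K] F) →* ℤˣ // ε ≠ 1} :=
    (Fintype.card_of_bijective ⟨hinj, hsurj⟩).symm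
  -- the dimensions
  obtain ⟨f, hf⟩ : ∃ f, f = Module.finrank ℚ (fixedVec ρ (Set.univ : Set (F ≃ₐ[K] F))) := ⟨_, rfl⟩
  have hquad : ∑ L : QuadFields F,
      Module.finrank ℚ (fixedVec ρ (relGal F L.1 : Set (F ≃ₐ[K] F))) =
      Fintype.card (QuadFields F) * f +
        ∑ ε : {ε : (F ≃ₐ[K] F) →* ℤˣ // ε ≠ 1}, Module.finrank ℚ (epsPart ρ ε.1) := by
    rw [← (Function.Bijective.sum_comp ⟨hinj, hsurj⟩ (fun L : QuadFields F =>
      Module.finrank ℚ (fixedVec ρ (relGal F L.1 : Set (F ≃ₐ[K] F)))))]
    rw [hcard, ← smul_eq_mul, ← Finset.card_univ, ← Finset.sum_const, ← Finset.sum_add_distrib]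
    refine Finset.sum_congr rfl fun ε _ => ?_
    rw [hφrel, hf]
    exact corg_finrank_ker ρ ε.1 ε.2
  have hbot : Module.finrank ℚ (fixedVec ρ ((relGal F F : Subgroup (F ≃ₐ[K] F)) : Set (F ≃ₐ[K] F))) =
      Module.finrank ℚ M := by
    have h1 : fixedVec ρ ((relGal F F : Subgroup (F ≃ₐ[K] F)) : Set (F ≃ₐ[K] F)) = ⊤ := by
      rw [eq_top_iff]
      intro x _ h hh
      rw [relGal_self] at hh
      have h2 : h = 1 := hh
      rw [h2, map_one]
      rfl
    rw [h1, finrank_top]
  have htop : Module.finrank ℚ (fixedVec ρ ((relGal F ⊥ : Subgroup (F ≃ₐ[K] F)) :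
      Set (F ≃ₐ[K] F))) = f := by
    rw [relGal_bot, Subgroup.coe_top, hf]
  have hmod := finrank_two_nilpotent N hN hG ρ
  rw [finsum_eq_sum_of_fintype, Fintype.sum_eq_add_sum_subtype_ne _ (1 : (F ≃ₐ[K] F) →* ℤˣ),
    corg_epsPart_one, ← hf] at hmod
  rw [Fintype.sum_sum_type, Fintype.sum_option]
  show Even (Module.finrank ℚ (fixedVec ρ ((relGal F F : Subgroup (F ≃ₐ[K] F)) :
      Set (F ≃ₐ[K] F))) + ∑ L : QuadFields F,
      Module.finrank ℚ (fixedVec ρ (relGal F L.1 : Set (F ≃ₐ[K] F))) +
      ∑ _x : Fin (Fintype.card (QuadFields F) + 1),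
        Module.finrank ℚ (fixedVec ρ ((relGal F ⊥ : Subgroup (F ≃ₐ[K] F)) : Set (F ≃ₐ[K] F))))
  rw [Finset.sum_const, Finset.card_univ, Fintype.card_fin, smul_eq_mul, htop, hbot, hquad]
  obtain ⟨s, hs⟩ : ∃ s, s = ∑ ε : {ε : (F ≃ₐ[K] F) →* ℤˣ // ε ≠ 1},
    Module.finrank ℚ (epsPart ρ ε.1) := ⟨_, rfl⟩
  rw [← hs] at hmod ⊢
  have h1 : Module.finrank ℚ M + (Fintype.card (QuadFields F) * f + s) +
      (Fintype.card (QuadFields F) + 1) * f =
      Module.finrank ℚ M + (f + s) + 2 * (Fintype.card (QuadFields F) * f) := by ring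
  rw [h1]
  have h2 : Even (Module.finrank ℚ M + (f + s)) := by
    have h3 : Module.finrank ℚ M % 2 = (f + s) % 2 := hmod
    rw [Nat.even_iff]
    omega
  exact h2.add (even_two_mul _)

end fields

end Pool.Agent.H.MP_ac3185_nt
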