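import Pool.Agent.H.MP_ac3185_nt.Main
import Pool.Agent.H.MP_ac3185_nt.R.Fix

/-! Definitions for the relative parity theorem: abelian varieties over the intermediate fields of
a Galois extension. -/

set_option autoImplicit false

open CategoryTheory AlgebraicGeometry NumberField IsDedekindDomain
open scoped MonObj

namespace Pool.Agent.H.MP_ac3185_nt

universe u

section gal

variable {K : Type u} [Field K]

/-- The elements of `Gal(F/K)` which fix `F ∩ L`; for `K ⊆ L ⊆ F` this is `Gal(F/L)`. -/
def relGal (F L : IntermediateField K (AlgebraicClosure K)) : Subgroup (F ≃ₐ[K] F) where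
  carrier := {g | ∀ x : F, (x : AlgebraicClosure K) ∈ L → g x = x}
  one_mem' := fun x _ => rfl
  mul_mem' := fun {a b} ha hb x hx => by
    show a (b x) = x
    rw [hb x hx, ha x hx]
  inv_mem' := fun {a} ha x hx => by
    have h := congrArg (a⁻¹ : F ≃ₐ[K] F) (ha x hx)
    rw [← AlgEquiv.mul_apply, inv_mul_cancel] at h
    exact h.symm

/-- The intermediate fields `L i` of the Galois extension `F / K` satisfy an even relation: for
every finite dimensional rational representation `M` of `Gal(F/K)` the sum of the dimensions of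
the spaces of vectors fixed by `Gal(F / L i)` is even. -/
def EvenRelation (F : IntermediateField K (AlgebraicClosure K)) {J : Type*} [Fintype J]
    (L : J → IntermediateField K (AlgebraicClosure K)) : Prop :=
  ∀ (M : Type u) [AddCommGroup M] [Module ℚ M] [FiniteDimensional ℚ M]
    (ρ : Representation ℚ (F ≃ₐ[K] F) M),
    Even (∑ i, Module.finrank ℚ (fixedVec ρ (relGal F (L i) : Set (F ≃ₐ[K] F))))

/-- The decomposition group of `𝔓`, as a subgroup. -/
def decompGrp (K : Type u) [Field K] {L : Type u} [Field L] [Algebra K L] (𝔓 : Ideal (𝓞 L)) :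
    Subgroup (L ≃ₐ[K] L) where
  carrier := decomp K 𝔓
  one_mem' := fun x => Iff.rfl
  mul_mem' := fun {a b} ha hb x => by
    have h1 : galInt (a * b) x = galInt a (galInt b x) := mul_smul a b x
    rw [h1, ha, hb]
  inv_mem' := fun {a} ha x => by
    have h1 : galInt a (galInt a⁻¹ x) = x := smul_inv_smul a x
    rw [← ha (galInt a⁻¹ x), h1]

end gal

section numberField

variable {K : Type u} [Field K] [NumberField K]

/-- The prime `𝔔` of the ring of integers of the algebraic closure lies above the finite place
`w` of the intermediate field `L`. -/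
def PrimeOver (L : IntermediateField K (AlgebraicClosure K)) (𝔔 : Ideal (𝓞 (AlgebraicClosure K)))
    (w : HeightOneSpectrum (𝓞 L)) : Prop :=
  𝔔.IsPrime ∧ 𝔔.comap (algebraMap (𝓞 L) (𝓞 (AlgebraicClosure K))) = w.asIdeal

/-- The finite place `w` of `L` lies above the finite place `v` of `K`. -/
def Divides (L : IntermediateField K (AlgebraicClosure K)) (w : HeightOneSpectrum (𝓞 L))
    (v : HeightOneSpectrum (𝓞 K)) : Prop :=
  w.asIdeal.comap (algebraMap (𝓞 K) (𝓞 L)) = v.asIdeal

/-- The finite place `v` of `K` ramifies in the Galois extension `F`: some inertia group above `v`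
in `Gal(F/K)` is not trivial. -/
def Ramified (F : IntermediateField K (AlgebraicClosure K)) (v : HeightOneSpectrum (𝓞 K)) : Prop :=
  ∃ 𝔭 : Ideal (𝓞 F), 𝔭.IsPrime ∧ 𝔭.comap (algebraMap (𝓞 K) (𝓞 F)) = v.asIdeal ∧
    ∃ g ∈ inertia K 𝔭, g ≠ 1

/-- `A` is semistable over the finite extension `L` of `K` at the place of `L` below the prime
`𝔔` of the ring of integers of the algebraic closure (Grothendieck's criterion): for every prime
number `ℓ` not in `𝔔` the space `V_ℓ(A)` is finite dimensional and `(g - 1) ^ 2 = 0` on it for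
every `g` in the inertia group of `𝔔` in `Gal(Kbar / L)`. -/
def SemistableOver (A : Over (Spec (.of K))) [GrpObj A] [IsAbVar A]
    (L : IntermediateField K (AlgebraicClosure K)) (𝔔 : Ideal (𝓞 (AlgebraicClosure K))) : Prop :=
  ∀ (ℓ : ℕ) [Fact ℓ.Prime], (ℓ : 𝓞 (AlgebraicClosure K)) ∉ 𝔔 →
    FiniteDimensional ℚ_[ℓ] (VTate ℓ (Pts A (AlgebraicClosure K))) ∧
    ∀ g ∈ inertia K 𝔔 ∩ (L.fixingSubgroup : Set (AlgebraicClosure K ≃ₐ[K] AlgebraicClosure K)),
      IsUnip (galV A ℓ g)

/-- `dim (V / V^I)^D` for `V = V_ℓ(A)` and the inertia and decomposition groups `I` and `D` of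
`𝔔` in `Gal(Kbar / L)`. -/
noncomputable def localRank (A : Over (Spec (.of K))) [GrpObj A] [IsAbVar A] (ℓ : ℕ)
    [Fact ℓ.Prime] (L : IntermediateField K (AlgebraicClosure K))
    (𝔔 : Ideal (𝓞 (AlgebraicClosure K))) : ℕ :=
  quotRank
    (ops A ℓ (inertia K 𝔔 ∩
      (L.fixingSubgroup : Set (AlgebraicClosure K ≃ₐ[K] AlgebraicClosure K))))
    (ops A ℓ (decomp K 𝔔 ∩
      (L.fixingSubgroup : Set (AlgebraicClosure K ≃ₐ[K] AlgebraicClosure K))))

/-- The type of families of local signs: an integer `W L w` for every intermediate field `L` of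
the algebraic closure of `K` and every finite place `w` of `L`. -/
abbrev LocalSigns (K : Type u) [Field K] : Type u :=
  ∀ L : IntermediateField K (AlgebraicClosure K), HeightOneSpectrum (𝓞 L) → ℤ

/-- Standard properties of the local root numbers `W L w = w(A / L_w)` of an abelian variety `A`
over the number field `K` at the finite places `w` of the finite extensions `L` of `K`. -/
structure IsRootNumbers (A : Over (Spec (.of K))) [GrpObj A] [IsAbVar A]
    (W : LocalSigns K) : Prop where
  /-- root numbers of abelian varieties are signs -/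
  sign : ∀ (L : IntermediateField K (AlgebraicClosure K)) [FiniteDimensional K L]
    (w : HeightOneSpectrum (𝓞 L)), W L w = 1 ∨ W L w = -1
  /-- almost all root numbers are equal to `1` -/
  almost : ∀ (L : IntermediateField K (AlgebraicClosure K)) [FiniteDimensional K L],
    {w : HeightOneSpectrum (𝓞 L) | W L w ≠ 1}.Finite
  /-- for a finite place `v` of `K` and an unramified extension `L_w` of `K_v` the root number
  depends only on the parity of the degree `(D : D ∩ Gal(Kbar / L))` of `L_w` over `K_v` -/
  unramified : ∀ v : HeightOneSpectrum (𝓞 K), ∃ a b : ℤ,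
    ∀ (L : IntermediateField K (AlgebraicClosure K)) [FiniteDimensional K L]
      (w : HeightOneSpectrum (𝓞 L)) (𝔔 : Ideal (𝓞 (AlgebraicClosure K))),
      PrimeOver L 𝔔 w → Above 𝔔 v →
      inertia K 𝔔 ⊆ (L.fixingSubgroup : Set (AlgebraicClosure K ≃ₐ[K] AlgebraicClosure K)) →
      (Odd (L.fixingSubgroup.relIndex (decompGrp K 𝔔)) → W L w = a) ∧
      (Even (L.fixingSubgroup.relIndex (decompGrp K 𝔔)) → W L w = b)
  /-- the root number of a semistable abelian variety is `(-1) ^ r`, where `r` is the rank of the
  split part of the torus of the reduction -/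
  semistable : ∀ (L : IntermediateField K (AlgebraicClosure K)) [FiniteDimensional K L]
    (w : HeightOneSpectrum (𝓞 L)) (𝔔 : Ideal (𝓞 (AlgebraicClosure K))), PrimeOver L 𝔔 w →
    SemistableOver A L 𝔔 → ∀ (ℓ : ℕ) [Fact ℓ.Prime], (ℓ : 𝓞 (AlgebraicClosure K)) ∉ 𝔔 →
      W L w = (-1) ^ localRank A ℓ L 𝔔

/-- The global root number of `A` over `L`, for an abelian variety `A` of dimension `g` with local
root numbers `W L w` at the finite places: each infinite place contributes `(-1) ^ g`. -/
noncomputable def signOver (W : LocalSigns K) (g : ℕ)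
    (L : IntermediateField K (AlgebraicClosure K)) : ℤ :=
  (-1) ^ (g * Nat.card (InfinitePlace L)) * ∏ᶠ w : HeightOneSpectrum (𝓞 L), W L w

end numberField

end Pool.Agent.H.MP_ac3185_nt
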