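import Pool.Agent.H.MP_ac3185_nt.R.PlA

/-! The products of root numbers in an even relation. -/

set_option autoImplicit false

open CategoryTheory AlgebraicGeometry NumberField IsDedekindDomain
open scoped MonObj Pointwise

namespace Pool.Agent.H.MP_ac3185_nt

universe u

variable {K : Type u} [Field K] [NumberField K]

/-- There is a prime above every finite place. -/
theorem exists_above (v : HeightOneSpectrum (𝓞 K)) :
    ∃ 𝔓 : Ideal (𝓞 (AlgebraicClosure K)), Above 𝔓 v := by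
  have h1 : Algebra.IsIntegral (𝓞 K) (𝓞 (AlgebraicClosure K)) := by
    refine ⟨fun x => ?_⟩
    have h2 : IsIntegral ℤ x := by
      have h3 : IsIntegral ℤ (x : AlgebraicClosure K) := x.2
      exact (isIntegral_algebraMap_iff (B := AlgebraicClosure K)
        (FaithfulSMul.algebraMap_injective (𝓞 (AlgebraicClosure K)) (AlgebraicClosure K))).1 h3
    exact h2.tower_top
  have hker : RingHom.ker (algebraMap (𝓞 K) (𝓞 (AlgebraicClosure K))) ≤ v.asIdeal := by
    rw [(RingHom.injective_iff_ker_eq_bot _).1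
      (FaithfulSMul.algebraMap_injective (𝓞 K) (𝓞 (AlgebraicClosure K)))]
    exact bot_le
  have hp := v.isPrime
  obtain ⟨Q, hQ1, hQ2⟩ := Ideal.exists_ideal_over_prime_of_isIntegral_of_isDomain
    (S := 𝓞 (AlgebraicClosure K)) v.asIdeal hker
  exact ⟨Q, hQ1, hQ2⟩

theorem above_smul (v : HeightOneSpectrum (𝓞 K)) (𝔓 : Ideal (𝓞 (AlgebraicClosure K)))
    (h𝔓 : Above 𝔓 v) (σ : AlgebraicClosure K ≃ₐ[K] AlgebraicClosure K) : Above (σ • 𝔓) v := by
  refine ⟨?_, ?_⟩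
  · have := h𝔓.1
    exact Ideal.IsPrime.smul σ
  · rw [← h𝔓.2]
    ext x
    rw [Ideal.mem_comap, Ideal.mem_comap]
    have h1 : σ • (algebraMap (𝓞 K) (𝓞 (AlgebraicClosure K)) x) =
        algebraMap (𝓞 K) (𝓞 (AlgebraicClosure K)) x := by
      apply RingOfIntegers.ext
      exact σ.commutes (x : K)
    have h2 := Ideal.smul_mem_pointwise_smul_iff (a := σ) (S := 𝔓)
      (x := algebraMap (𝓞 K) (𝓞 (AlgebraicClosure K)) x)
    rw [h1] at h2
    exact h2

theorem natCast_mem_smul' (𝔓 : Ideal (𝓞 (AlgebraicClosure K)))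
    (σ : AlgebraicClosure K ≃ₐ[K] AlgebraicClosure K) (n : ℕ) :
    (n : 𝓞 (AlgebraicClosure K)) ∈ σ • 𝔓 ↔ (n : 𝓞 (AlgebraicClosure K)) ∈ 𝔓 := by
  have h1 : σ • (n : 𝓞 (AlgebraicClosure K)) = n :=
    map_natCast (MulSemiringAction.toRingHom (AlgebraicClosure K ≃ₐ[K] AlgebraicClosure K)
      (𝓞 (AlgebraicClosure K)) σ) n
  have h2 := Ideal.smul_mem_pointwise_smul_iff (a := σ) (S := 𝔓)
    (x := (n : 𝓞 (AlgebraicClosure K)))
  rw [h1] at h2
  exact h2

/-- There is a bound `B` such that no prime number `ℓ > B` lies in `𝔓`. Proof: `𝔓` contains a prime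
number `p` (it lies above `v`, `𝓞 K ⧸ v` is finite); take `B = p`; two different prime numbers in
`𝔓` would give `1 ∈ 𝔓`. -/
theorem exists_bound (v : HeightOneSpectrum (𝓞 K)) (𝔓 : Ideal (𝓞 (AlgebraicClosure K)))
    (h𝔓 : Above 𝔓 v) : ∃ B : ℕ, ∀ ℓ : ℕ, ℓ.Prime → B < ℓ → (ℓ : 𝓞 (AlgebraicClosure K)) ∉ 𝔓 := by
  have hN : ((Ideal.absNorm v.asIdeal : ℕ) : 𝓞 K) ∈ v.asIdeal := Ideal.absNorm_mem v.asIdeal
  have hN0 : 0 < Ideal.absNorm v.asIdeal := by
    rw [Nat.pos_iff_ne_zero]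
    intro h
    exact v.ne_bot (Ideal.absNorm_eq_zero_iff.1 h)
  have hN' : ((Ideal.absNorm v.asIdeal : ℕ) : 𝓞 (AlgebraicClosure K)) ∈ 𝔓 := by
    generalize Ideal.absNorm v.asIdeal = N at hN
    rw [← h𝔓.2, Ideal.mem_comap, map_natCast] at hN
    exact hN
  refine ⟨Ideal.absNorm v.asIdeal, fun ℓ hℓ hlt hmem => ?_⟩
  have hco : Nat.Coprime (Ideal.absNorm v.asIdeal) ℓ :=
    ((Nat.Prime.coprime_iff_not_dvd hℓ).2 fun h =>
      absurd (Nat.le_of_dvd hN0 h) (not_le.2 hlt)).symm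
  have hc : IsCoprime ((Ideal.absNorm v.asIdeal : ℕ) : ℤ) (ℓ : ℤ) := Nat.isCoprime_iff_coprime.2 hco
  obtain ⟨x, y, hxy⟩ := hc
  apply h𝔓.1.ne_top
  rw [Ideal.eq_top_iff_one]
  have h1 : (1 : 𝓞 (AlgebraicClosure K)) =
      (x : 𝓞 (AlgebraicClosure K)) * ((Ideal.absNorm v.asIdeal : ℕ) : 𝓞 (AlgebraicClosure K)) +
        (y : 𝓞 (AlgebraicClosure K)) * (ℓ : 𝓞 (AlgebraicClosure K)) := by
    have := congrArg (fun z : ℤ => (z : 𝓞 (AlgebraicClosure K))) hxy
    push_cast at this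
    exact this.symm
  rw [h1]
  exact add_mem (Ideal.mul_mem_left _ _ hN') (Ideal.mul_mem_left _ _ hmem)

/-- Semistability over `K` implies semistability over `L`. -/
theorem SemistableOver.mono {A : Over (Spec (.of K))} [GrpObj A] [IsAbVar A]
    {𝔓 : Ideal (𝓞 (AlgebraicClosure K))} (h : SemistableOver A ⊥ 𝔓)
    (L : IntermediateField K (AlgebraicClosure K)) : SemistableOver A L 𝔓 := by
  intro ℓ _ hℓ
  obtain ⟨h1, h2⟩ := h ℓ hℓ
  refine ⟨h1, fun g hg => h2 g ⟨hg.1, ?_⟩⟩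
  rw [IntermediateField.fixingSubgroup_bot]
  exact Subgroup.mem_top g

/-- The global root number is a sign. -/
theorem signOver_sign (A : Over (Spec (.of K))) [GrpObj A] [IsAbVar A]
    (W : LocalSigns K) (hW : IsRootNumbers A W) (g : ℕ)
    (L : IntermediateField K (AlgebraicClosure K)) [FiniteDimensional K L] :
    signOver W g L = 1 ∨ signOver W g L = -1 := by
  have _ := A
  have h1 : ∏ᶠ w : HeightOneSpectrum (𝓞 L), W L w = 1 ∨
      ∏ᶠ w : HeightOneSpectrum (𝓞 L), W L w = -1 := by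
    refine finprod_induction (fun z : ℤ => z = 1 ∨ z = -1) (Or.inl rfl) ?_ (hW.sign L)
    rintro x y (rfl | rfl) (rfl | rfl) <;> simp
  have h2 : ((-1 : ℤ)) ^ (g * Nat.card (InfinitePlace L)) = 1 ∨
      ((-1 : ℤ)) ^ (g * Nat.card (InfinitePlace L)) = -1 := neg_one_pow_eq_or ℤ _
  unfold signOver
  rcases h1 with h1 | h1 <;> rcases h2 with h2 | h2 <;> rw [h1, h2] <;> simp

end Pool.Agent.H.MP_ac3185_nt
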