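import Pool.Agent.H.MP_ac3185_nt.R.Ind
import Pool.Agent.H.MP_ac3185_nt.R.Defs

/-! The product of local signs for an even relation. -/

set_option autoImplicit false

namespace Pool.Agent.H.MP_ac3185_nt

universe u

variable {K : Type u} [Field K]

theorem lp_indep {G : Type*} [Group G] (D H : Subgroup G) {Ω : Type*} (T : G → Ω)
    (hfib : ∀ g g', T g = T g' ↔ ∃ h ∈ H, ∃ d : D, g' = h * g * d) (ε : D →* ℤˣ) (g : G) :
    (∀ d : D, g * d * g⁻¹ ∈ H → ε d = 1) ↔
      (∀ g', T g' = T g → ∀ d : D, g' * d * g'⁻¹ ∈ H → ε d = 1) := by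
  constructor
  · intro h g' hg' d hd
    obtain ⟨h0, hh0, d0, rfl⟩ := (hfib g g').1 hg'.symm
    have h1 : g * ((d0 * d * d0⁻¹ : D) : G) * g⁻¹ ∈ H := by
      have h2 := H.mul_mem (H.mul_mem (H.inv_mem hh0) hd) hh0
      have h3 : h0⁻¹ * (h0 * g * ↑d0 * ↑d * (h0 * g * ↑d0)⁻¹) * h0 =
          g * ((d0 * d * d0⁻¹ : D) : G) * g⁻¹ := by
        push_cast
        group
      rwa [h3] at h2
    have h4 := h _ h1
    rw [map_mul, map_mul, map_inv] at h4
    rw [mul_comm (ε d0) (ε d), mul_inv_cancel_right] at h4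
    exact h4
  · intro h
    exact h g rfl

/-- The local product formula. `Ω j` stands for the set of places of `L j` above a place `v` of `K`,
`D` for the decomposition group of a place of `F` above `v`, `T j g` for the place of `L j` below
the translate by `g` of that place of `F`.

Proof. For `ω : Ω j` and `ε` let `b j ω ε = 1` if `ε d = 1` for all `d : D` with `g d g⁻¹ ∈ H_j`, for one
(equivalently: every) `g` with `T j g = ω` (independent of `g` by `hfib`, `ε` is a homomorphism and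
`D`-conjugation does not change `ε`), and `0` otherwise. The product is
`(-1) ^ (∑ j, ∑ ω, ∑ ε, b j ω ε * u ε)`, and `∑ j, ∑ ω, b j ω ε` is even for every `ε`: it is
`∑ j, finrank (fixedVec (indRep D ε) H_j)` by `finrank_fixedVec_ind`, which is even by the relation.
(`Gal(F/K)` is finite, so there are finitely many `ε` and finite sums.) -/
theorem local_product (F : IntermediateField K (AlgebraicClosure K)) [FiniteDimensional K F]
    {J : Type*} [Fintype J] (L : J → IntermediateField K (AlgebraicClosure K))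
    (hE : EvenRelation F L) (D : Subgroup (F ≃ₐ[K] F)) (w : (D →* ℤˣ) → ℕ)
    (Ω : J → Type u) [∀ j, Finite (Ω j)] (T : ∀ j, (F ≃ₐ[K] F) → Ω j)
    (hT : ∀ j, Function.Surjective (T j))
    (hfib : ∀ j g g', T j g = T j g' ↔ ∃ h ∈ relGal F (L j), ∃ d : D, g' = h * g * d)
    (W : ∀ j, Ω j → ℤ)
    (hW : ∀ j g, W j (T j g) = (-1) ^ (∑ᶠ ε : D →* ℤˣ, (open Classical in
      if ∀ d : D, g * d * g⁻¹ ∈ relGal F (L j) → ε d = 1 then w ε else 0))) :
    ∏ j, ∏ᶠ ω, W j ω = 1 := by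
  classical
  have hfinD : Finite (D →* ℤˣ) :=
    Finite.of_injective (fun f : D →* ℤˣ => (f : D → ℤˣ)) DFunLike.coe_injective
  have : Fintype (D →* ℤˣ) := Fintype.ofFinite _
  have : ∀ j, Fintype (Ω j) := fun j => Fintype.ofFinite _
  let P : ∀ j, Ω j → (D →* ℤˣ) → Prop := fun j ω ε =>
    ∀ g, T j g = ω → ∀ d : D, g * d * g⁻¹ ∈ relGal F (L j) → ε d = 1
  have hW2 : ∀ j ω, W j ω = (-1) ^ (∑ ε : D →* ℤˣ, if P j ω ε then w ε else 0) := by
    intro j ω
    obtain ⟨g, rfl⟩ := hT j ω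
    rw [hW, finsum_eq_sum_of_fintype]
    congr 1
    refine Finset.sum_congr rfl fun ε _ => ?_
    have h1 := lp_indep D (relGal F (L j)) (T j) (hfib j) ε g
    by_cases h2 : P j (T j g) ε
    · rw [if_pos h2, if_pos (h1.2 h2)]
    · rw [if_neg h2, if_neg (fun h3 => h2 (h1.1 h3))]
  have h1 : ∏ j, ∏ᶠ ω, W j ω =
      (-1) ^ (∑ j, ∑ ω : Ω j, ∑ ε : D →* ℤˣ, if P j ω ε then w ε else 0) := by
    rw [← Finset.prod_pow_eq_pow_sum]
    refine Finset.prod_congr rfl fun j _ => ?_
    rw [finprod_eq_prod_of_fintype, ← Finset.prod_pow_eq_pow_sum]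
    exact Finset.prod_congr rfl fun ω _ => hW2 j ω
  have h2 : ∀ ε : D →* ℤˣ, Even (∑ j, ∑ ω : Ω j, if P j ω ε then w ε else 0) := by
    intro ε
    have h3 := hE (indSub D ε) (indRep D ε)
    have h4 : ∑ j, Module.finrank ℚ
        (fixedVec (indRep D ε) (relGal F (L j) : Set (F ≃ₐ[K] F))) =
        ∑ j, Fintype.card {ω : Ω j // P j ω ε} := by
      refine Finset.sum_congr rfl fun j _ => ?_
      rw [finrank_fixedVec_ind D ε (relGal F (L j)) (T j) (hT j) (hfib j),
        Nat.card_eq_fintype_card]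
    rw [h4] at h3
    have h5 : ∑ j, ∑ ω : Ω j, (if P j ω ε then w ε else 0) =
        (∑ j, Fintype.card {ω : Ω j // P j ω ε}) * w ε := by
      rw [Finset.sum_mul]
      refine Finset.sum_congr rfl fun j _ => ?_
      rw [← Finset.sum_filter, Finset.sum_const, smul_eq_mul, Fintype.card_subtype]
    rw [h5]
    exact h3.mul_right _
  rw [h1]
  have h6 : ∑ j, ∑ ω : Ω j, ∑ ε : D →* ℤˣ, (if P j ω ε then w ε else 0) =
      ∑ ε : D →* ℤˣ, ∑ j, ∑ ω : Ω j, (if P j ω ε then w ε else 0) := by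
    have h7 : ∀ j, ∑ ω : Ω j, ∑ ε : D →* ℤˣ, (if P j ω ε then w ε else 0) =
        ∑ ε : D →* ℤˣ, ∑ ω : Ω j, (if P j ω ε then w ε else 0) := fun j => Finset.sum_comm
    simp only [h7]
    exact Finset.sum_comm
  rw [h6]
  exact (Finset.even_sum _ fun ε _ => h2 ε).neg_one_pow

end Pool.Agent.H.MP_ac3185_nt
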