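import Pool.Agent.H.MP_ac3185_nt.R.PlB

/-! Places of the intermediate fields and double cosets. -/

set_option autoImplicit false

open NumberField IsDedekindDomain
open scoped Pointwise

namespace Pool.Agent.H.MP_ac3185_nt

universe u

section places

variable {K : Type u} [Field K] [NumberField K]

omit [NumberField K] in
/-- `d` stabilises `𝔓` if and only if it lies in the decomposition group. -/
theorem plc_decomp (𝔓 : Ideal (𝓞 (AlgebraicClosure K)))
    (d : AlgebraicClosure K ≃ₐ[K] AlgebraicClosure K) : d ∈ decompGrp K 𝔓 ↔ d • 𝔓 = 𝔓 := by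
  constructor
  · intro hd
    have hd' : ∀ x : 𝓞 (AlgebraicClosure K), d • x ∈ 𝔓 ↔ x ∈ 𝔓 := hd
    ext x
    rw [Ideal.mem_pointwise_smul_iff_inv_smul_mem, ← hd' (d⁻¹ • x), smul_inv_smul]
  · intro hd
    show ∀ x : 𝓞 (AlgebraicClosure K), d • x ∈ 𝔓 ↔ x ∈ 𝔓
    intro x
    conv_lhs => rw [← hd]
    exact Ideal.smul_mem_pointwise_smul_iff

/-- Places of `L` above `v` and double cosets.

Proof. `T g` is the place below `σ • 𝔓` (`exists_placeBelow`) for a chosen `σ` with restriction `g`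
(`AlgEquiv.restrictNormalHom_surjective`). If `σ` and `τ` have the same restriction to `F` then
`τ = n σ` with `n` in the kernel, so `n` fixes `L` and `σ • 𝔓`, `τ • 𝔓` lie above the same place
(`same_place_iff`). Surjectivity: `exists_translate`. Fibres: `same_place_iff`;
`h • σ • 𝔓 = τ • 𝔓` means `d = σ⁻¹ h⁻¹ τ ∈ decompGrp K 𝔓`, `τ = h σ d`; and
`map_fixingSubgroup`, `ker_le_fixingSubgroup`. -/
theorem exists_T (F : IntermediateField K (AlgebraicClosure K)) [FiniteDimensional K F]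
    [IsGalois K F] (L : IntermediateField K (AlgebraicClosure K)) (hL : L ≤ F)
    (v : HeightOneSpectrum (𝓞 K)) (𝔓 : Ideal (𝓞 (AlgebraicClosure K))) (h𝔓 : Above 𝔓 v) :
    ∃ T : (F ≃ₐ[K] F) → {w : HeightOneSpectrum (𝓞 L) // Divides L w v},
      Function.Surjective T ∧
      (∀ g g', T g = T g' ↔ ∃ h ∈ relGal F L,
        ∃ d : (decompGrp K 𝔓).map (AlgEquiv.restrictNormalHom F), g' = h * g * d) ∧
      ∀ σ : AlgebraicClosure K ≃ₐ[K] AlgebraicClosure K,
        PrimeOver L (σ • 𝔓) (T (AlgEquiv.restrictNormalHom F σ)).1 := by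
  classical
  have hprime : 𝔓.IsPrime := h𝔓.1
  let R : (AlgebraicClosure K ≃ₐ[K] AlgebraicClosure K) →* (F ≃ₐ[K] F) :=
    AlgEquiv.restrictNormalHom F
  have hRs : Function.Surjective R := AlgEquiv.restrictNormalHom_surjective (AlgebraicClosure K)
  obtain ⟨s, hs⟩ : ∃ s : (F ≃ₐ[K] F) → (AlgebraicClosure K ≃ₐ[K] AlgebraicClosure K),
      ∀ g, R (s g) = g := ⟨Function.surjInv hRs, Function.surjInv_eq hRs⟩
  choose pl hpl1 hpl2 using fun σ => exists_placeBelow L v 𝔓 h𝔓 σ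
  let T : (F ≃ₐ[K] F) → {w : HeightOneSpectrum (𝓞 L) // Divides L w v} :=
    fun g => ⟨pl (s g), hpl2 (s g)⟩
  -- same restriction, same place
  have hker : ∀ n : AlgebraicClosure K ≃ₐ[K] AlgebraicClosure K, R n = 1 → n ∈ L.fixingSubgroup :=
    fun n hn => ker_le_fixingSubgroup F L hL hn
  have hpl : ∀ σ τ, (pl σ = pl τ ↔ ∃ h ∈ L.fixingSubgroup, h • σ • 𝔓 = τ • 𝔓) := by
    intro σ τ
    rw [← same_place_iff L 𝔓 σ τ, (hpl1 σ).2, (hpl1 τ).2]
    constructor
    · intro h; rw [h]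
    · intro h; exact HeightOneSpectrum.ext h
  have hsame : ∀ σ, pl (s (R σ)) = pl σ := by
    intro σ
    rw [hpl]
    refine ⟨σ * (s (R σ))⁻¹, hker _ ?_, ?_⟩
    · rw [map_mul, map_inv, hs, mul_inv_cancel]
    · rw [smul_smul, inv_mul_cancel_right]
  refine ⟨T, ?_, ?_, ?_⟩
  · rintro ⟨w, hw⟩
    obtain ⟨σ, hσ⟩ := exists_translate L v 𝔓 h𝔓 w hw
    refine ⟨R σ, Subtype.ext ?_⟩
    show pl (s (R σ)) = w
    rw [hsame]
    exact HeightOneSpectrum.ext ((hpl1 σ).2.symm.trans hσ.2)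
  · intro g g'
    have h1 : T g = T g' ↔ pl (s g) = pl (s g') := Subtype.ext_iff
    rw [h1, hpl]
    constructor
    · rintro ⟨h, hh, he⟩
      refine ⟨R h, ?_, ⟨R ((s g)⁻¹ * h⁻¹ * s g'), Subgroup.mem_map_of_mem _ ?_⟩, ?_⟩
      · rw [← map_fixingSubgroup F L hL]
        exact Subgroup.mem_map_of_mem _ hh
      · rw [plc_decomp, mul_smul, mul_smul, ← he, inv_smul_smul, inv_smul_smul]
      · show g' = R h * g * R ((s g)⁻¹ * h⁻¹ * s g')
        rw [map_mul, map_mul, map_inv, map_inv, hs, hs]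
        group
    · rintro ⟨h, hh, ⟨d, hd⟩, he⟩
      have hh' : h ∈ L.fixingSubgroup.map R := by
        rw [map_fixingSubgroup F L hL]
        exact hh
      obtain ⟨h0, hh0, rfl⟩ := Subgroup.mem_map.1 hh'
      obtain ⟨d0, hd0, rfl⟩ := Subgroup.mem_map.1 hd
      have he' : g' = R h0 * g * R d0 := he
      have hn : s g' * (h0 * s g * d0)⁻¹ ∈ L.fixingSubgroup := by
        apply hker
        rw [map_mul, map_inv, map_mul, map_mul, hs, hs, he', mul_inv_cancel]
      refine ⟨s g' * (h0 * s g * d0)⁻¹ * h0, L.fixingSubgroup.mul_mem hn hh0, ?_⟩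
      have hd1 := (plc_decomp 𝔓 d0).1 hd0
      conv_lhs => rw [← hd1]
      rw [smul_smul, smul_smul]
      congr 1
      group
  · intro σ
    show PrimeOver L (σ • 𝔓) (pl (s (R σ)))
    rw [hsame]
    exact hpl1 σ

end places

end Pool.Agent.H.MP_ac3185_nt
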