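import Pool.Agent.H.MP_ac3185_nt.R.CommB
import Pool.Agent.H.MP_ac3185_nt.R.AbsC

/-! The local root numbers at a semistable place. -/

set_option autoImplicit false

open CategoryTheory AlgebraicGeometry NumberField IsDedekindDomain
open scoped MonObj Pointwise

namespace Pool.Agent.H.MP_ac3185_nt

universe u

variable {K : Type u} [Field K] [NumberField K]

/-- The `ℓ`-adic representation on `V_ℓ(A)`. -/
noncomputable def galRep (A : Over (Spec (.of K))) [GrpObj A] [IsAbVar A] (ℓ : ℕ) [Fact ℓ.Prime] :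
    Representation ℚ_[ℓ] (AlgebraicClosure K ≃ₐ[K] AlgebraicClosure K)
      (VTate ℓ (Pts A (AlgebraicClosure K))) where
  toFun g := galV A ℓ g
  map_one' := by
    show galV A ℓ 1 = 1
    unfold galV
    rw [galHom_one]
    exact VTate.map_id
  map_mul' a b := by
    show galV A ℓ (a * b) = (galV A ℓ a).comp (galV A ℓ b)
    unfold galV
    rw [← VTate.map_comp]
    congr 1
    refine AddMonoidHom.ext fun x => ?_
    apply Additive.toMul.injective
    apply Over.OverMorphism.ext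
    show Spec.map (CommRingCat.ofHom ((a * b : AlgebraicClosure K ≃ₐ[K] AlgebraicClosure K) :
      AlgebraicClosure K →+* AlgebraicClosure K)) ≫ x.toMul.left = Spec.map _ ≫ Spec.map _ ≫ _
    rw [← Category.assoc, ← Spec.map_comp]
    rfl

/-- The local ranks of a semistable abelian variety over the intermediate fields.

Proof. `abs_local` for `galRep A ℓ`, `π = AlgEquiv.restrictNormalHom F`, `D = decompGrp K 𝔓`,
`I = inertiaGrp K 𝔓`, `Δ = L.fixingSubgroup`; `hI` from `hss` (`⊥.fixingSubgroup = ⊤`,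
`IntermediateField.fixingSubgroup_bot`), `hc` from `commutator_mem`; `ker_le_fixingSubgroup`,
`map_fixingSubgroup`, `inertia_smul`, `decomp_smul`. -/
theorem local_semistable (F : IntermediateField K (AlgebraicClosure K)) [FiniteDimensional K F]
    [IsGalois K F] (A : Over (Spec (.of K))) [GrpObj A] [IsAbVar A]
    (v : HeightOneSpectrum (𝓞 K)) (𝔓 : Ideal (𝓞 (AlgebraicClosure K))) (h𝔓 : Above 𝔓 v)
    (hss : SemistableOver A ⊥ 𝔓) (ℓ : ℕ) [Fact ℓ.Prime] (hℓ : (ℓ : 𝓞 (AlgebraicClosure K)) ∉ 𝔓)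
    (h4 : ¬ IsSquare (-1 : ℚ_[ℓ]))
    (hp : ∀ p : ℕ, p.Prime → p ≠ 2 → p ∣ Nat.card (F ≃ₐ[K] F) →
      ¬ IsSquare ((pstar p : ℤ) : ℚ_[ℓ])) :
    ∃ w : ((decompGrp K 𝔓).map (AlgEquiv.restrictNormalHom F) →* ℤˣ) → ℕ,
      ∀ L : IntermediateField K (AlgebraicClosure K), L ≤ F →
        ∀ σ : AlgebraicClosure K ≃ₐ[K] AlgebraicClosure K,
          localRank A ℓ L (σ • 𝔓) ≡
            ∑ᶠ ε : (decompGrp K 𝔓).map (AlgEquiv.restrictNormalHom F) →* ℤˣ,
              (open Classical in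
                if ∀ d : (decompGrp K 𝔓).map (AlgEquiv.restrictNormalHom F),
                  AlgEquiv.restrictNormalHom F σ * d * (AlgEquiv.restrictNormalHom F σ)⁻¹ ∈
                    relGal F L → ε d = 1 then w ε else 0) [MOD 2] := by
  obtain ⟨hfd, hun⟩ := hss ℓ hℓ
  have hI : ∀ g ∈ inertiaGrp K 𝔓, IsUnip (galRep A ℓ g) := by
    intro g hg
    refine hun g ⟨hg, ?_⟩
    rw [IntermediateField.fixingSubgroup_bot]
    exact Subgroup.mem_top g
  obtain ⟨w, hw⟩ := abs_local h4 hp (galRep A ℓ) (AlgEquiv.restrictNormalHom F)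
    (decompGrp K 𝔓) (inertiaGrp K 𝔓) hI (inertiaGrp_le 𝔓)
    (fun a ha b hb => commutator_mem v 𝔓 h𝔓 a b ha hb)
  refine ⟨w, fun L hL σ => ?_⟩
  have h1 := hw L.fixingSubgroup (ker_le_fixingSubgroup F L hL) σ
  have e1 : {g | σ⁻¹ * g * σ ∈ inertiaGrp K 𝔓} = inertia K (σ • 𝔓) :=
    Set.ext fun g => (inertia_smul 𝔓 σ g).symm
  have e2 : {g | σ⁻¹ * g * σ ∈ decompGrp K 𝔓} = decomp K (σ • 𝔓) :=
    Set.ext fun g => (decomp_smul 𝔓 σ g).symm
  rw [e1, e2, map_fixingSubgroup F L hL] at h1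
  have h2 : localRank A ℓ L (σ • 𝔓) ≡ _ [MOD 2] := h1
  convert h2

end Pool.Agent.H.MP_ac3185_nt
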