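import Pool.Agent.H.MP_ac3185_nt.R.FinA
import Pool.Agent.H.MP_ac3185_nt.R.Semi
import Pool.Agent.H.MP_ac3185_nt.R.LP
import Pool.Agent.H.MP_ac3185_nt.R.PlC
import Pool.Agent.H.MP_ac3185_nt.R.Prime

/-! The products of root numbers in an even relation. -/

set_option autoImplicit false

open CategoryTheory AlgebraicGeometry NumberField IsDedekindDomain
open scoped MonObj Pointwise

namespace Pool.Agent.H.MP_ac3185_nt

universe u

variable {K : Type u} [Field K] [NumberField K]

/-- The product of the local root numbers above a semistable place.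

Proof. `exists_above`, `exists_bound`, `exists_good_prime` for `n = Nat.card (F ≃ₐ[K] F)`,
`local_semistable`; for every `j` the map `T` of `exists_T` for `L j`; `local_product` with
`D = (decompGrp K 𝔓).map (AlgEquiv.restrictNormalHom F)` and `W j w = W (L j) w`: for `g` choose `σ` with
restriction `g`; `W (L j) (T g) = (-1) ^ localRank A ℓ (L j) (σ • 𝔓)` by `hW.semistable`
(`SemistableOver.mono`, `above_smul`, `natCast_mem_smul'`), and powers of `-1` depend only on the
parity. (`L j` is finite over `K` since `L j ≤ F`; the sets of places are finite by surjectivity of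
`T`.) -/
theorem place_product_ramified (F : IntermediateField K (AlgebraicClosure K))
    [FiniteDimensional K F] [IsGalois K F] (A : Over (Spec (.of K))) [GrpObj A] [IsAbVar A]
    (W : LocalSigns K) (hW : IsRootNumbers A W) {J : Type*} [Fintype J]
    (L : J → IntermediateField K (AlgebraicClosure K)) (hL : ∀ j, L j ≤ F)
    (hE : EvenRelation F L) (v : HeightOneSpectrum (𝓞 K))
    (hss : ∀ 𝔓, Above 𝔓 v → SemistableOver A ⊥ 𝔓) :
    ∏ j, ∏ᶠ w : {w : HeightOneSpectrum (𝓞 (L j)) // Divides (L j) w v}, W (L j) w.1 = 1 := by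
  classical
  obtain ⟨𝔓, h𝔓⟩ := exists_above v
  obtain ⟨B, hB⟩ := exists_bound v 𝔓 h𝔓
  obtain ⟨ℓ, hℓF, hℓB, h4, hp⟩ := exists_good_prime (Nat.card (F ≃ₐ[K] F)) Nat.card_pos.ne' B
  have hℓ𝔓 : (ℓ : 𝓞 (AlgebraicClosure K)) ∉ 𝔓 := hB ℓ hℓF.out hℓB
  obtain ⟨w, hw⟩ := local_semistable F A v 𝔓 h𝔓 (hss 𝔓 h𝔓) ℓ hℓ𝔓 h4 hp
  choose T hT1 hT2 hT3 using fun j => exists_T F (L j) (hL j) v 𝔓 h𝔓
  have hfin : ∀ j, Finite {w : HeightOneSpectrum (𝓞 (L j)) // Divides (L j) w v} :=
    fun j => Finite.of_surjective (T j) (hT1 j)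
  have hfd : ∀ j, FiniteDimensional K (L j) := fun j =>
    FiniteDimensional.of_injective (IntermediateField.inclusion (hL j)).toLinearMap
      (IntermediateField.inclusion (hL j)).injective
  refine local_product F L hE ((decompGrp K 𝔓).map (AlgEquiv.restrictNormalHom F)) w
    (fun j => {w : HeightOneSpectrum (𝓞 (L j)) // Divides (L j) w v}) T hT1 hT2
    (fun j ω => W (L j) ω.1) ?_
  intro j g
  obtain ⟨σ, rfl⟩ := AlgEquiv.restrictNormalHom_surjective (F := K) (K₁ := F)
    (AlgebraicClosure K) g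
  have h1 := hW.semistable (L j) (T j (AlgEquiv.restrictNormalHom F σ)).1 (σ • 𝔓) (hT3 j σ)
    ((hss _ (above_smul v 𝔓 h𝔓 σ)).mono (L j)) ℓ (by
      rw [natCast_mem_smul']
      exact hℓ𝔓)
  show W (L j) (T j (AlgEquiv.restrictNormalHom F σ)).1 = _
  rw [h1, neg_one_pow_eq_pow_mod_two, hw (L j) (hL j) σ, ← neg_one_pow_eq_pow_mod_two]

end Pool.Agent.H.MP_ac3185_nt
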