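import Pool.Agent.H.MP_ac3185_nt.R.PlA

/-! The local root numbers at an unramified place. -/

set_option autoImplicit false

open NumberField IsDedekindDomain
open scoped Pointwise

namespace Pool.Agent.H.MP_ac3185_nt

universe u

variable {K : Type u} [Field K] [NumberField K]

/-- the prime of `F` below `𝔓` -/
noncomputable def unrb_prime (F : IntermediateField K (AlgebraicClosure K))
    (𝔓 : Ideal (𝓞 (AlgebraicClosure K))) : Ideal (𝓞 F) :=
  𝔓.comap (algebraMap (𝓞 F) (𝓞 (AlgebraicClosure K)))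

theorem unrb_isPrime (F : IntermediateField K (AlgebraicClosure K))
    {v : HeightOneSpectrum (𝓞 K)} {𝔓 : Ideal (𝓞 (AlgebraicClosure K))} (h𝔓 : Above 𝔓 v) :
    (unrb_prime F 𝔓).IsPrime := by
  have := h𝔓.1
  exact Ideal.comap_isPrime _ _

theorem unrb_comap (F : IntermediateField K (AlgebraicClosure K))
    {v : HeightOneSpectrum (𝓞 K)} {𝔓 : Ideal (𝓞 (AlgebraicClosure K))} (h𝔓 : Above 𝔓 v) :
    (unrb_prime F 𝔓).comap (algebraMap (𝓞 K) (𝓞 F)) = v.asIdeal := by
  rw [← h𝔓.2, unrb_prime, Ideal.comap_comap]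
  rfl

/-- compatibility of the actions -/
theorem unrb_galInt (F : IntermediateField K (AlgebraicClosure K)) [IsGalois K F]
    (g : AlgebraicClosure K ≃ₐ[K] AlgebraicClosure K) (x : 𝓞 F) :
    algebraMap (𝓞 F) (𝓞 (AlgebraicClosure K)) (galInt (AlgEquiv.restrictNormalHom F g) x)
      = galInt g (algebraMap (𝓞 F) (𝓞 (AlgebraicClosure K)) x) := by
  apply RingOfIntegers.ext
  exact AlgEquiv.restrictNormalHom_apply F g (x : F)

theorem unrb_decomp (F : IntermediateField K (AlgebraicClosure K)) [IsGalois K F]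
    (𝔓 : Ideal (𝓞 (AlgebraicClosure K))) (g : AlgebraicClosure K ≃ₐ[K] AlgebraicClosure K)
    (hg : g ∈ decompGrp K 𝔓) :
    AlgEquiv.restrictNormalHom F g ∈ MulAction.stabilizer (F ≃ₐ[K] F) (unrb_prime F 𝔓) := by
  rw [MulAction.mem_stabilizer_iff]
  ext x
  have h1 : AlgEquiv.restrictNormalHom F g • ((AlgEquiv.restrictNormalHom F g)⁻¹ • x) = x :=
    smul_inv_smul _ _
  set y : 𝓞 F := (AlgEquiv.restrictNormalHom F g)⁻¹ • x with hy
  rw [← h1, Ideal.smul_mem_pointwise_smul_iff]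
  have h2 : algebraMap (𝓞 F) (𝓞 (AlgebraicClosure K)) (AlgEquiv.restrictNormalHom F g • y)
      = galInt g (algebraMap (𝓞 F) (𝓞 (AlgebraicClosure K)) y) := unrb_galInt F g y
  rw [unrb_prime, Ideal.mem_comap, Ideal.mem_comap, h2]
  exact (hg _).symm

/-- At an unramified place the inertia groups fix `L ⊆ F`. Proof: for `g ∈ inertia K (σ • 𝔓)` the
restriction of `g` to `F` lies in the inertia group of `(σ • 𝔓).comap (𝓞 F → 𝓞 Kbar)`, a prime above
`v`; so it is `1` as `v` is not ramified. -/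
theorem inertia_le (F : IntermediateField K (AlgebraicClosure K)) [FiniteDimensional K F]
    [IsGalois K F] (v : HeightOneSpectrum (𝓞 K)) (hv : ¬ Ramified F v)
    (𝔓 : Ideal (𝓞 (AlgebraicClosure K))) (h𝔓 : Above 𝔓 v)
    (L : IntermediateField K (AlgebraicClosure K)) (hL : L ≤ F) :
    inertia K 𝔓 ⊆ (L.fixingSubgroup : Set (AlgebraicClosure K ≃ₐ[K] AlgebraicClosure K)) := by
  intro g hg
  have h1 : AlgEquiv.restrictNormalHom F g ∈ inertia K (unrb_prime F 𝔓) := by
    intro x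
    rw [unrb_prime, Ideal.mem_comap, map_sub, unrb_galInt]
    exact hg _
  have h2 : AlgEquiv.restrictNormalHom F g = 1 := by
    by_contra h3
    exact hv ⟨_, unrb_isPrime F h𝔓, unrb_comap F h𝔓, _, h1, h3⟩
  intro x
  have h3 := AlgEquiv.restrictNormalHom_apply F g ⟨x, hL x.2⟩
  rw [h2] at h3
  exact h3.symm

/-- At an unramified place the decomposition group in `Gal(F/K)` is cyclic.

Proof. Let `𝔭 = 𝔓.comap (𝓞 F → 𝓞 Kbar)`. The group acts on the finite field `𝓞 F ⧸ 𝔭` over `𝓞 K ⧸ v`;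
the kernel of the action is contained in `inertia K 𝔭`, which is trivial as `v` is not ramified. The
automorphism group of a finite field over a subfield is cyclic, and a subgroup of a cyclic group is
cyclic (`Subgroup.isCyclic`, `isCyclic_of_injective`). -/
theorem isCyclic_decomp (F : IntermediateField K (AlgebraicClosure K)) [FiniteDimensional K F]
    [IsGalois K F] (v : HeightOneSpectrum (𝓞 K)) (hv : ¬ Ramified F v)
    (𝔓 : Ideal (𝓞 (AlgebraicClosure K))) (h𝔓 : Above 𝔓 v) :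
    IsCyclic ((decompGrp K 𝔓).map (AlgEquiv.restrictNormalHom F)) := by
  have hnf : NumberField F := NumberField.of_module_finite K F
  have hp := unrb_isPrime F h𝔓
  have hc := unrb_comap F h𝔓
  set P : Ideal (𝓞 F) := unrb_prime F 𝔓 with hP
  have hover : P.LiesOver v.asIdeal := ⟨hc.symm⟩
  have hP0 : P ≠ ⊥ := by
    intro h0
    apply v.ne_bot
    rw [← hc, h0]
    exact Ideal.comap_bot_of_injective _ (RingOfIntegers.algebraMap.injective K F)
  have hmax : P.IsMaximal := hp.isMaximal hP0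
  have hmaxv : v.asIdeal.IsMaximal := v.isMaximal
  let _ : Field (𝓞 F ⧸ P) := Ideal.Quotient.field P
  let _ : Field (𝓞 K ⧸ v.asIdeal) := Ideal.Quotient.field v.asIdeal
  have hfin : Finite (𝓞 F ⧸ P) := Ideal.finiteQuotientOfFreeOfNeBot P hP0
  have hcyc : IsCyclic ((𝓞 F ⧸ P) ≃ₐ[𝓞 K ⧸ v.asIdeal] (𝓞 F ⧸ P)) := by
    infer_instance
  have hle : (decompGrp K 𝔓).map (AlgEquiv.restrictNormalHom F)
      ≤ MulAction.stabilizer (F ≃ₐ[K] F) P := by
    rintro _ ⟨g, hg, rfl⟩
    exact unrb_decomp F 𝔓 g hg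
  refine isCyclic_of_injective ((Ideal.Quotient.stabilizerHom P v.asIdeal (F ≃ₐ[K] F)).comp
    (Subgroup.inclusion hle)) ?_
  rw [injective_iff_map_eq_one]
  intro g hg
  apply Subtype.ext
  by_contra h3
  refine hv ⟨P, hp, hc, g.1, fun x => ?_, h3⟩
  have h4 := DFunLike.congr_fun hg (Ideal.Quotient.mk P x)
  exact (Ideal.Quotient.eq (I := P)).mp h4

end Pool.Agent.H.MP_ac3185_nt
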