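import Pool.Agent.H.MP_ac3185_nt.R.UnrA
import Pool.Agent.H.MP_ac3185_nt.R.UnrB

/-! The local root numbers at an unramified place. -/

set_option autoImplicit false

open NumberField IsDedekindDomain
open scoped Pointwise

namespace Pool.Agent.H.MP_ac3185_nt

universe u

variable {K : Type u} [Field K] [NumberField K]

/-- The sign at an unramified place. Proof: `cyclic_parity` for `C = D.map π` (`isCyclic_decomp`) and
`S = {d | π σ * d * (π σ)⁻¹ ∈ relGal F L}`; `relIndex_eq` with `D' = decompGrp K (σ • 𝔓)`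
(`decomp_smul`), `Δ = L.fixingSubgroup` (`ker_le_fixingSubgroup`, `map_fixingSubgroup`). -/
theorem local_unramified (F : IntermediateField K (AlgebraicClosure K)) [FiniteDimensional K F]
    [IsGalois K F] (v : HeightOneSpectrum (𝓞 K)) (hv : ¬ Ramified F v)
    (𝔓 : Ideal (𝓞 (AlgebraicClosure K))) (h𝔓 : Above 𝔓 v) (a b : ℤ)
    (ha : a = 1 ∨ a = -1) (hb : b = 1 ∨ b = -1) :
    ∃ w : ((decompGrp K 𝔓).map (AlgEquiv.restrictNormalHom F) →* ℤˣ) → ℕ,
      ∀ L : IntermediateField K (AlgebraicClosure K), L ≤ F →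
        ∀ σ : AlgebraicClosure K ≃ₐ[K] AlgebraicClosure K, ∀ c : ℤ,
          (Odd (L.fixingSubgroup.relIndex (decompGrp K (σ • 𝔓))) → c = a) →
          (Even (L.fixingSubgroup.relIndex (decompGrp K (σ • 𝔓))) → c = b) →
          c = (-1) ^ (∑ᶠ ε : (decompGrp K 𝔓).map (AlgEquiv.restrictNormalHom F) →* ℤˣ,
              (open Classical in
                if ∀ d : (decompGrp K 𝔓).map (AlgEquiv.restrictNormalHom F),
                  AlgEquiv.restrictNormalHom F σ * d * (AlgEquiv.restrictNormalHom F σ)⁻¹ ∈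
                    relGal F L → ε d = 1 then w ε else 0)) := by
  have hcyc : IsCyclic ((decompGrp K 𝔓).map (AlgEquiv.restrictNormalHom F)) :=
    isCyclic_decomp F v hv 𝔓 h𝔓
  obtain ⟨w, hw⟩ := cyclic_parity (C := (decompGrp K 𝔓).map (AlgEquiv.restrictNormalHom F))
    a b ha hb
  refine ⟨w, ?_⟩
  intro L hL σ c hodd heven
  let S : Subgroup ((decompGrp K 𝔓).map (AlgEquiv.restrictNormalHom F)) :=
    (relGal F L).comap
      ((MulAut.conj ((AlgEquiv.restrictNormalHom F) σ)).toMonoidHom.comp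
        ((decompGrp K 𝔓).map (AlgEquiv.restrictNormalHom F)).subtype)
  have hmem : ∀ d : (decompGrp K 𝔓).map (AlgEquiv.restrictNormalHom F), d ∈ S ↔
      AlgEquiv.restrictNormalHom F σ * d * (AlgEquiv.restrictNormalHom F σ)⁻¹ ∈ relGal F L :=
    fun d => Iff.rfl
  have hidx : L.fixingSubgroup.relIndex (decompGrp K (σ • 𝔓)) = S.index := by
    refine relIndex_eq (AlgEquiv.restrictNormalHom F) (decompGrp K 𝔓) L.fixingSubgroup
      (ker_le_fixingSubgroup F L hL) σ (decompGrp K (σ • 𝔓)) (fun g => decomp_smul 𝔓 σ g) S ?_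
    intro d
    rw [map_fixingSubgroup F L hL]
    exact hmem d
  rw [hidx] at hodd heven
  rcases Nat.even_or_odd S.index with he | ho
  · rw [heven he]
    convert (hw S).2 he
    exact (hmem _).symm
  · rw [hodd ho]
    convert (hw S).1 ho
    exact (hmem _).symm

end Pool.Agent.H.MP_ac3185_nt
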