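import Pool.Agent.H.MP_ac3185_nt.R.FinA
import Pool.Agent.H.MP_ac3185_nt.R.UnrC
import Pool.Agent.H.MP_ac3185_nt.R.LP
import Pool.Agent.H.MP_ac3185_nt.R.PlC

/-! The products of root numbers in an even relation. -/

set_option autoImplicit false

open CategoryTheory AlgebraicGeometry NumberField IsDedekindDomain
open scoped MonObj Pointwise

namespace Pool.Agent.H.MP_ac3185_nt

universe u

variable {K : Type u} [Field K] [NumberField K]

theorem finc_fin (F : IntermediateField K (AlgebraicClosure K)) [FiniteDimensional K F]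
    (L : IntermediateField K (AlgebraicClosure K)) (hL : L ≤ F) : FiniteDimensional K L :=
  FiniteDimensional.of_injective (IntermediateField.inclusion hL).toLinearMap
    (IntermediateField.inclusion_injective hL)

/-- The product of the local root numbers above an unramified place.

Proof. As `place_product_ramified`, with `local_unramified` for the `a, b` of `hW.unramified v`
(`a = ±1` by `hW.sign` for `L = ⊥`, whose relative index is `1`; replace `b` by `1` if it is not `±1`:
then the even case does not occur for `L ≤ F`, by `hW.sign`), and `c = W (L j) (T g)`; `inertia_le` for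
the primes `σ • 𝔓`. -/
theorem place_product_unramified (F : IntermediateField K (AlgebraicClosure K))
    [FiniteDimensional K F] [IsGalois K F] (A : Over (Spec (.of K))) [GrpObj A] [IsAbVar A]
    (W : LocalSigns K) (hW : IsRootNumbers A W) {J : Type*} [Fintype J]
    (L : J → IntermediateField K (AlgebraicClosure K)) (hL : ∀ j, L j ≤ F)
    (hE : EvenRelation F L) (v : HeightOneSpectrum (𝓞 K)) (hv : ¬ Ramified F v) :
    ∏ j, ∏ᶠ w : {w : HeightOneSpectrum (𝓞 (L j)) // Divides (L j) w v}, W (L j) w.1 = 1 := by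
  obtain ⟨𝔓, h𝔓⟩ := exists_above v
  obtain ⟨a, b₀, hab⟩ := hW.unramified v
  -- the sign `a`
  have ha : a = 1 ∨ a = -1 := by
    obtain ⟨w, hw1, -⟩ := exists_placeBelow (⊥ : IntermediateField K (AlgebraicClosure K)) v 𝔓 h𝔓 1
    rw [one_smul] at hw1
    have h1 := hab ⊥ w 𝔓 hw1 h𝔓 (inertia_le F v hv 𝔓 h𝔓 ⊥ bot_le)
    have h2 : (⊥ : IntermediateField K (AlgebraicClosure K)).fixingSubgroup.relIndex
        (decompGrp K 𝔓) = 1 := by
      rw [IntermediateField.fixingSubgroup_bot, Subgroup.relIndex_top_left]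
    rw [← h1.1 (by rw [h2]; exact odd_one)]
    exact hW.sign ⊥ w
  -- the sign `b`
  obtain ⟨b, hb, hbb⟩ : ∃ b : ℤ, (b = 1 ∨ b = -1) ∧ ((b₀ = 1 ∨ b₀ = -1) → b = b₀) := by
    by_cases h : b₀ = 1 ∨ b₀ = -1
    · exact ⟨b₀, h, fun _ => rfl⟩
    · exact ⟨1, Or.inl rfl, fun h' => absurd h' h⟩
  obtain ⟨w, hw⟩ := local_unramified F v hv 𝔓 h𝔓 a b ha hb
  choose T hTs hTf hTp using fun j => exists_T F (L j) (hL j) v 𝔓 h𝔓
  have hfin : ∀ j, Finite {w : HeightOneSpectrum (𝓞 (L j)) // Divides (L j) w v} := fun j =>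
    Finite.of_surjective (T j) (hTs j)
  refine local_product F L hE ((decompGrp K 𝔓).map (AlgEquiv.restrictNormalHom F)) w
    (fun j => {w : HeightOneSpectrum (𝓞 (L j)) // Divides (L j) w v}) T hTs hTf
    (fun j ω => W (L j) ω.1) ?_
  intro j g
  obtain ⟨σ, rfl⟩ := AlgEquiv.restrictNormalHom_surjective (F := K) (K₁ := F) (AlgebraicClosure K) g
  have hfd : FiniteDimensional K (L j) := finc_fin F (L j) (hL j)
  have hab' : Above (σ • 𝔓) v := above_smul v 𝔓 h𝔓 σ
  have h1 := hab (L j) (T j (AlgEquiv.restrictNormalHom F σ)).1 (σ • 𝔓) (hTp j σ) hab'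
    (inertia_le F v hv (σ • 𝔓) hab' (L j) (hL j))
  refine hw (L j) (hL j) σ _ h1.1 ?_
  intro he
  have h2 := h1.2 he
  have h3 := hW.sign (L j) (T j (AlgEquiv.restrictNormalHom F σ)).1
  rw [h2] at h3
  rw [hbb h3]
  exact h2

end Pool.Agent.H.MP_ac3185_nt
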