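import Pool.Agent.H.MP_ac3185_nt.R.Fix

/-! Induced representations of characters with values `±1`. -/

set_option autoImplicit false

namespace Pool.Agent.H.MP_ac3185_nt

variable {G : Type*} [Group G]

/-- The space of functions `f` on `G` with `f (g d) = ε d * f g` for `d` in `D`. -/
def indSub (D : Subgroup G) (ε : D →* ℤˣ) : Submodule ℚ (G → ℚ) where
  carrier := {f | ∀ (g : G) (d : D), f (g * d) = ((ε d : ℤ) : ℚ) * f g}
  zero_mem' := fun g d => by simp
  add_mem' := fun {x y} hx hy g d => by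
    show x (g * d) + y (g * d) = ((ε d : ℤ) : ℚ) * (x g + y g)
    rw [hx g d, hy g d, mul_add]
  smul_mem' := fun a x hx g d => by
    show a * x (g * d) = ((ε d : ℤ) : ℚ) * (a * x g)
    rw [hx g d]; ring

/-- left translation -/
def indMap (D : Subgroup G) (ε : D →* ℤˣ) (h : G) : indSub D ε →ₗ[ℚ] indSub D ε where
  toFun f := ⟨fun g => f.1 (h⁻¹ * g), fun g d => by
    show f.1 (h⁻¹ * (g * d)) = ((ε d : ℤ) : ℚ) * f.1 (h⁻¹ * g)
    rw [← mul_assoc, f.2]⟩
  map_add' f f' := rfl
  map_smul' a f := rfl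

/-- The representation of `G` induced by the character `ε` of `D`: `(h f)(g) = f(h⁻¹ g)`. -/
def indRep (D : Subgroup G) (ε : D →* ℤˣ) : Representation ℚ G (indSub D ε) where
  toFun := indMap D ε
  map_one' := by
    ext f g
    show f.1 (1⁻¹ * g) = f.1 g
    rw [inv_one, one_mul]
  map_mul' a b := by
    ext f g
    show f.1 ((a * b)⁻¹ * g) = f.1 (b⁻¹ * (a⁻¹ * g))
    rw [mul_inv_rev, mul_assoc]

/-- Mackey: the vectors of the induced representation fixed by `H` are the functions `f` with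
`f (h g d) = ε d * f g`; they are determined by their values at representatives of the double cosets
`H g D` (the fibres of `T`), and a value at `g` can be nonzero only if `ε = 1` on
`D ∩ g⁻¹ H g`.

Proof. Let `Ω' ⊆ Ω` be the set on the right side. Choose a section `s : Ω → G` of `T`. The linear map
`f ↦ (f (s ω))_(ω ∈ Ω')` from `fixedVec` to `Ω' → ℚ` is bijective. Injective: if `f (s ω) = 0` for all
`ω ∈ Ω'` then also for `ω ∉ Ω'`, since then there are `g` with `T g = ω` and `d` with `g d g⁻¹ ∈ H`,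
`ε d = -1`, and `f g = f ((g d g⁻¹) g) = f (g d) = - f g`, `f g = 0`; every element is `h (s ω) d`, so
`f = 0`. Surjective: for `c : Ω' → ℚ` put `f (h (s ω) d) = ε d * c ω` (and `0` for `ω ∉ Ω'`); this is well
defined: if `h (s ω) d = h' (s ω) d'` then `(s ω) (d d'⁻¹) (s ω)⁻¹ = h⁻¹ h' ∈ H`, so `ε d = ε d'`. -/
theorem finrank_fixedVec_ind [Finite G] (D : Subgroup G) (ε : D →* ℤˣ) (H : Subgroup G)
    {Ω : Type*} [Finite Ω] (T : G → Ω) (hT : Function.Surjective T)
    (hfib : ∀ g g', T g = T g' ↔ ∃ h ∈ H, ∃ d : D, g' = h * g * d) :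
    Module.finrank ℚ (fixedVec (indRep D ε) (H : Set G)) =
      Nat.card {ω : Ω // ∀ g, T g = ω → ∀ d : D, g * d * g⁻¹ ∈ H → ε d = 1} := by
  classical
  let Ω' := {ω : Ω // ∀ g, T g = ω → ∀ d : D, g * d * g⁻¹ ∈ H → ε d = 1}
  -- the section
  obtain ⟨s, hs⟩ : ∃ s : Ω → G, ∀ ω, T (s ω) = ω := ⟨Function.surjInv hT, Function.surjInv_eq hT⟩
  have hdec : ∀ g : G, ∃ h ∈ H, ∃ d : D, g = h * s (T g) * d := fun g =>
    (hfib (s (T g)) g).1 (hs (T g))
  choose hh hhH dd hdd using hdec
  -- elements of the fixed space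
  have hP1 : ∀ (f : fixedVec (indRep D ε) (H : Set G)) (g : G) (d : D),
      f.1.1 (g * d) = ((ε d : ℤ) : ℚ) * f.1.1 g := fun f g d => f.1.2 g d
  have hP2 : ∀ (f : fixedVec (indRep D ε) (H : Set G)) (h : G), h ∈ H → ∀ g : G,
      f.1.1 (h * g) = f.1.1 g := by
    intro f h hh g
    have h1 := f.2 h⁻¹ (H.inv_mem hh)
    have h2 := congrArg (fun z : indSub D ε => z.1 g) h1
    have h3 : f.1.1 (h⁻¹⁻¹ * g) = f.1.1 g := h2
    rwa [inv_inv] at h3
  let φ : fixedVec (indRep D ε) (H : Set G) →ₗ[ℚ] (Ω' → ℚ) :=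
    { toFun := fun f ω => f.1.1 (s ω.1)
      map_add' := fun f f' => rfl
      map_smul' := fun a f => rfl }
  have hφ : ∀ f ω, φ f ω = f.1.1 (s ω.1) := fun f ω => rfl
  have hinj : Function.Injective φ := by
    rw [injective_iff_map_eq_zero]
    intro f hf
    apply Subtype.ext
    apply Subtype.ext
    funext g
    show f.1.1 g = 0
    have h1 : ∀ g : G, f.1.1 g = ((ε (dd g) : ℤ) : ℚ) * f.1.1 (s (T g)) := by
      intro g
      conv_lhs => rw [hdd g]
      rw [hP1, hP2 f _ (hhH g)]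
    rw [h1 g]
    by_cases hω : ∀ g', T g' = T g → ∀ d : D, g' * d * g'⁻¹ ∈ H → ε d = 1
    · have h2 := congrFun hf ⟨T g, hω⟩
      rw [hφ] at h2
      have h3 : f.1.1 (s (T g)) = 0 := h2
      rw [h3, mul_zero]
    · push Not at hω
      obtain ⟨g0, hg0, d0, hd0, hε⟩ := hω
      have h2 : f.1.1 g0 = 0 := by
        have h3 := hP2 f _ hd0 g0
        rw [inv_mul_cancel_right, hP1] at h3
        have h4 : ε d0 = -1 := (Int.units_eq_one_or (ε d0)).resolve_left hε
        rw [h4] at h3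
        push_cast at h3
        linarith
      have h3 := h1 g0
      rw [h2, hg0] at h3
      have h4 : ((ε (dd g0) : ℤ) : ℚ) ≠ 0 := by
        rcases Int.units_eq_one_or (ε (dd g0)) with h5 | h5
        · rw [h5]; norm_num
        · rw [h5]; norm_num
      have h5 : f.1.1 (s (T g)) = 0 := by
        rcases mul_eq_zero.1 h3.symm with h6 | h6
        · exact absurd h6 h4
        · exact h6
      rw [h5, mul_zero]
  have hsurj : Function.Surjective φ := by
    intro c
    let F : G → ℚ := fun g =>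
      if hω : ∀ g', T g' = T g → ∀ d : D, g' * d * g'⁻¹ ∈ H → ε d = 1 then
        ((ε (dd g) : ℤ) : ℚ) * c ⟨T g, hω⟩ else 0
    have hF : ∀ (h : G), h ∈ H → ∀ (g : G) (d : D), F (h * g * d) = ((ε d : ℤ) : ℚ) * F g := by
      intro h hh' g d
      have hT' : T (h * g * d) = T g := ((hfib g (h * g * d)).2 ⟨h, hh', d, rfl⟩).symm
      by_cases hω : ∀ g', T g' = T g → ∀ d : D, g' * d * g'⁻¹ ∈ H → ε d = 1
      · have hω' : ∀ g', T g' = T (h * g * d) → ∀ d : D, g' * d * g'⁻¹ ∈ H → ε d = 1 := by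
          rw [hT']
          exact hω
        have h1 : F (h * g * d) = ((ε (dd (h * g * d)) : ℤ) : ℚ) * c ⟨T (h * g * d), hω'⟩ :=
          dif_pos hω'
        have h2 : F g = ((ε (dd g) : ℤ) : ℚ) * c ⟨T g, hω⟩ := dif_pos hω
        have h3 : (⟨T (h * g * d), hω'⟩ : Ω') = ⟨T g, hω⟩ := Subtype.ext hT'
        rw [h1, h2, h3]
        have h4 : ε (dd g * d * (dd (h * g * d))⁻¹) = 1 := by
          refine hω (s (T g)) (hs (T g)) _ ?_
          have h5 := hdd (h * g * d)
          have h6 := hdd g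
          rw [hT'] at h5
          have h7 : s (T g) * ((dd g * d * (dd (h * g * d))⁻¹ : D) : G) * (s (T g))⁻¹ =
              (hh g)⁻¹ * h⁻¹ * hh (h * g * d) := by
            push_cast
            rw [mul_inv_eq_iff_eq_mul, ← mul_assoc, ← mul_assoc, mul_inv_eq_iff_eq_mul]
            have h8 : s (T g) * (dd g : G) = (hh g)⁻¹ * g := by
              rw [eq_inv_mul_iff_mul_eq, ← mul_assoc]
              exact h6.symm
            rw [h8]
            have h9 : hh (h * g * d) * s (T g) * (dd (h * g * d) : G) = h * g * d := h5.symm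
            rw [mul_assoc ((hh g)⁻¹ * h⁻¹), mul_assoc ((hh g)⁻¹ * h⁻¹), h9]
            group
          rw [h7]
          exact H.mul_mem (H.mul_mem (H.inv_mem (hhH g)) (H.inv_mem hh')) (hhH _)
        rw [map_mul, map_mul, map_inv] at h4
        have h5 : ε (dd (h * g * d)) = ε (dd g) * ε d := (mul_inv_eq_one.1 h4).symm
        rw [h5]
        push_cast
        ring
      · have hω' : ¬ ∀ g', T g' = T (h * g * d) → ∀ d : D, g' * d * g'⁻¹ ∈ H → ε d = 1 := by
          rw [hT']
          exact hω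
        have h1 : F (h * g * d) = 0 := dif_neg hω'
        have h2 : F g = 0 := dif_neg hω
        rw [h1, h2, mul_zero]
    have hF1 : ∀ (g : G) (d : D), F (g * d) = ((ε d : ℤ) : ℚ) * F g := by
      intro g d
      have h1 := hF 1 H.one_mem g d
      rwa [one_mul] at h1
    have hF2 : ∀ (h : G), h ∈ H → ∀ g : G, F (h * g) = F g := by
      intro h hh' g
      have h1 := hF h hh' g 1
      rw [map_one] at h1
      simpa using h1
    refine ⟨⟨⟨F, hF1⟩, ?_⟩, ?_⟩
    · intro h hh'
      apply Subtype.ext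
      funext g
      show F (h⁻¹ * g) = F g
      exact hF2 _ (H.inv_mem hh') g
    · funext ω
      rw [hφ]
      show F (s ω.1) = c ω
      have hω : ∀ g', T g' = T (s ω.1) → ∀ d : D, g' * d * g'⁻¹ ∈ H → ε d = 1 := by
        rw [hs]
        exact ω.2
      have h1 : F (s ω.1) = ((ε (dd (s ω.1)) : ℤ) : ℚ) * c ⟨T (s ω.1), hω⟩ := dif_pos hω
      have h2 : (⟨T (s ω.1), hω⟩ : Ω') = ω := Subtype.ext (hs ω.1)
      rw [h1, h2]
      have h3 : ε (dd (s ω.1)) = 1 := by
        have h4 := hdd (s ω.1)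
        rw [hs] at h4
        have h5 : s ω.1 * ((dd (s ω.1) : D) : G) * (s ω.1)⁻¹ = (hh (s ω.1))⁻¹ := by
          rw [mul_inv_eq_iff_eq_mul, eq_inv_mul_iff_mul_eq, ← mul_assoc]
          exact h4.symm
        refine ω.2 (s ω.1) (hs ω.1) _ ?_
        rw [h5]
        exact H.inv_mem (hhH _)
      rw [h3]
      simp
  have : Fintype Ω' := Fintype.ofFinite Ω'
  let e : fixedVec (indRep D ε) (H : Set G) ≃ₗ[ℚ] (Ω' → ℚ) := LinearEquiv.ofBijective φ ⟨hinj, hsurj⟩
  rw [e.finrank_eq, Module.finrank_fintype_fun_eq_card, Nat.card_eq_fintype_card]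

end Pool.Agent.H.MP_ac3185_nt
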