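import Pool.Agent.H.MP_ac3185_nt.R.Defs

/-! The inertia group. -/

set_option autoImplicit false

open NumberField IsDedekindDomain
open scoped Pointwise

namespace Pool.Agent.H.MP_ac3185_nt

universe u

section grp

variable {K : Type u} [Field K] {L : Type u} [Field L] [Algebra K L]

/-- The inertia group of `𝔓`, as a subgroup.-/
def inertiaGrp (K : Type u) [Field K] {L : Type u} [Field L] [Algebra K L] (𝔓 : Ideal (𝓞 L)) :
    Subgroup (L ≃ₐ[K] L) where
  carrier := inertia K 𝔓
  one_mem' := fun x => by
    have h1 : galInt (1 : L ≃ₐ[K] L) x = x := one_smul _ x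
    rw [h1, sub_self]
    exact zero_mem _
  mul_mem' := fun {a b} ha hb x => by
    have h1 : galInt (a * b) x = galInt a (galInt b x) := mul_smul a b x
    have h2 : galInt (a * b) x - x =
        (galInt a (galInt b x) - galInt b x) + (galInt b x - x) := by rw [h1]; ring
    rw [h2]
    exact add_mem (ha _) (hb _)
  inv_mem' := fun {a} ha x => by
    have h1 : galInt a (galInt a⁻¹ x) = x := smul_inv_smul a x
    have h2 : galInt a⁻¹ x - x = -(galInt a (galInt a⁻¹ x) - galInt a⁻¹ x) := by rw [h1]; ring
    rw [h2]
    exact neg_mem (ha _)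

end grp

end Pool.Agent.H.MP_ac3185_nt
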