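import Pool.Agent.H.MP_ac3185_nt.R.Defs
import Pool.Agent.H.MP_ac3185_nt.R.Inertia

/-! Places of the intermediate fields and double cosets. -/

set_option autoImplicit false

open NumberField IsDedekindDomain
open scoped Pointwise

namespace Pool.Agent.H.MP_ac3185_nt

universe u

section grp

variable {K : Type u} [Field K] {L : Type u} [Field L] [Algebra K L]

theorem inertiaGrp_le (𝔓 : Ideal (𝓞 L)) : inertiaGrp K 𝔓 ≤ decompGrp K 𝔓 := by
  intro g hg x
  have h1 : galInt g x - x ∈ 𝔓 := hg x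
  constructor
  · intro h2
    have h3 := sub_mem h2 h1
    rwa [sub_sub_cancel] at h3
  · intro h2
    have h3 := add_mem h1 h2
    rwa [sub_add_cancel] at h3

theorem pla_mul (a b : L ≃ₐ[K] L) (x : 𝓞 L) : galInt (a * b) x = galInt a (galInt b x) :=
  mul_smul a b x

theorem pla_inv (a : L ≃ₐ[K] L) (x : 𝓞 L) : galInt a⁻¹ (galInt a x) = x := inv_smul_smul a x

theorem pla_inv' (a : L ≃ₐ[K] L) (x : 𝓞 L) : galInt a (galInt a⁻¹ x) = x := smul_inv_smul a x

theorem pla_sub (a : L ≃ₐ[K] L) (x y : 𝓞 L) : galInt a (x - y) = galInt a x - galInt a y :=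
  smul_sub a x y

theorem pla_mem (𝔓 : Ideal (𝓞 L)) (σ : L ≃ₐ[K] L) (x : 𝓞 L) :
    galInt σ x ∈ σ • 𝔓 ↔ x ∈ 𝔓 := Ideal.smul_mem_pointwise_smul_iff

/-- Inertia groups of translates of a prime. -/
theorem inertia_smul (𝔓 : Ideal (𝓞 L)) (σ g : L ≃ₐ[K] L) :
    g ∈ inertia K (σ • 𝔓) ↔ σ⁻¹ * g * σ ∈ inertia K 𝔓 := by
  have key : ∀ x : 𝓞 L, galInt (σ⁻¹ * g * σ) x - x ∈ 𝔓 ↔
      galInt g (galInt σ x) - galInt σ x ∈ σ • 𝔓 := by
    intro x
    rw [← pla_mem 𝔓 σ, pla_sub, pla_mul, pla_mul, pla_inv']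
  constructor
  · intro h x
    exact (key x).2 (h (galInt σ x))
  · intro h x
    have h1 := (key (galInt σ⁻¹ x)).1 (h (galInt σ⁻¹ x))
    rwa [pla_inv'] at h1

/-- Decomposition groups of translates of a prime. -/
theorem decomp_smul (𝔓 : Ideal (𝓞 L)) (σ g : L ≃ₐ[K] L) :
    g ∈ decomp K (σ • 𝔓) ↔ σ⁻¹ * g * σ ∈ decomp K 𝔓 := by
  have key : ∀ x : 𝓞 L, (galInt (σ⁻¹ * g * σ) x ∈ 𝔓 ↔ x ∈ 𝔓) ↔
      (galInt g (galInt σ x) ∈ σ • 𝔓 ↔ galInt σ x ∈ σ • 𝔓) := by
    intro x
    rw [pla_mem, ← pla_mem 𝔓 σ (galInt (σ⁻¹ * g * σ) x), pla_mul, pla_mul, pla_inv']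
  constructor
  · intro h x
    exact (key x).2 (h (galInt σ x))
  · intro h x
    have h1 := (key (galInt σ⁻¹ x)).1 (h (galInt σ⁻¹ x))
    rwa [pla_inv'] at h1

end grp

section places

variable {K : Type u} [Field K] [NumberField K]

/-- The fixing subgroup of `L ⊆ F` maps onto `relGal F L`. Proof: an element of `relGal F L` extends
to an automorphism of the algebraic closure (`AlgEquiv.restrictNormalHom_surjective`); it fixes
`L ⊆ F`. Conversely the restriction of an element which fixes `L` fixes `F ∩ L`. -/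
theorem map_fixingSubgroup (F L : IntermediateField K (AlgebraicClosure K)) [IsGalois K F]
    (hL : L ≤ F) : L.fixingSubgroup.map (AlgEquiv.restrictNormalHom F) = relGal F L := by
  have key : ∀ (s : AlgebraicClosure K ≃ₐ[K] AlgebraicClosure K) (x : F),
      ((AlgEquiv.restrictNormalHom F s x : F) : AlgebraicClosure K) = s (x : AlgebraicClosure K) :=
    fun s x => AlgEquiv.restrictNormal_commutes s F x
  ext g
  rw [Subgroup.mem_map]
  constructor
  · rintro ⟨s, hs, rfl⟩ x hx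
    apply Subtype.ext
    rw [key]
    rw [IntermediateField.mem_fixingSubgroup_iff] at hs
    exact hs x hx
  · intro hg
    obtain ⟨s, hs⟩ := AlgEquiv.restrictNormalHom_surjective (F := K) (K₁ := F)
      (AlgebraicClosure K) g
    refine ⟨s, ?_, hs⟩
    rw [IntermediateField.mem_fixingSubgroup_iff]
    intro x hx
    have h1 := key s ⟨x, hL hx⟩
    rw [hs, hg ⟨x, hL hx⟩ hx] at h1
    exact h1.symm

/-- The kernel of the restriction to `F` is contained in the fixing subgroup of `L ⊆ F`. -/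
theorem ker_le_fixingSubgroup (F L : IntermediateField K (AlgebraicClosure K)) [IsGalois K F]
    (hL : L ≤ F) : (AlgEquiv.restrictNormalHom F : (AlgebraicClosure K ≃ₐ[K] AlgebraicClosure K) →*
      (F ≃ₐ[K] F)).ker ≤ L.fixingSubgroup := by
  intro s hs
  rw [MonoidHom.mem_ker] at hs
  rw [IntermediateField.mem_fixingSubgroup_iff]
  intro x hx
  have h1 : ((AlgEquiv.restrictNormalHom F s ⟨x, hL hx⟩ : F) : AlgebraicClosure K) = s x :=
    AlgEquiv.restrictNormal_commutes s F ⟨x, hL hx⟩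
  rw [hs] at h1
  exact h1.symm

end places

end Pool.Agent.H.MP_ac3185_nt
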