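import Pool.Agent.H.MP_ac3185_nt.R.PlA

/-! Places of the intermediate fields and double cosets. -/

set_option autoImplicit false

open NumberField IsDedekindDomain
open scoped Pointwise

namespace Pool.Agent.H.MP_ac3185_nt

universe u

section places

variable {K : Type u} [Field K] [NumberField K]

theorem plb_tower (L : IntermediateField K (AlgebraicClosure K)) (x : 𝓞 K) :
    algebraMap (𝓞 L) (𝓞 (AlgebraicClosure K)) (algebraMap (𝓞 K) (𝓞 L) x) =
      algebraMap (𝓞 K) (𝓞 (AlgebraicClosure K)) x := by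
  apply RingOfIntegers.ext
  rfl

theorem plb_smul_base (σ : AlgebraicClosure K ≃ₐ[K] AlgebraicClosure K) (x : 𝓞 K) :
    σ • algebraMap (𝓞 K) (𝓞 (AlgebraicClosure K)) x =
      algebraMap (𝓞 K) (𝓞 (AlgebraicClosure K)) x := by
  apply RingOfIntegers.ext
  rw [coe_gal_smul]
  exact σ.commutes (x : K)

theorem plb_smul_fix (L : IntermediateField K (AlgebraicClosure K))
    {h : AlgebraicClosure K ≃ₐ[K] AlgebraicClosure K} (hh : h ∈ L.fixingSubgroup) (x : 𝓞 L) :
    h • algebraMap (𝓞 L) (𝓞 (AlgebraicClosure K)) x =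
      algebraMap (𝓞 L) (𝓞 (AlgebraicClosure K)) x := by
  apply RingOfIntegers.ext
  rw [coe_gal_smul]
  exact (IntermediateField.mem_fixingSubgroup_iff L h).1 hh _ (x : L).2

theorem plb_comap_base (𝔓 : Ideal (𝓞 (AlgebraicClosure K)))
    (σ : AlgebraicClosure K ≃ₐ[K] AlgebraicClosure K) :
    (σ • 𝔓).comap (algebraMap (𝓞 K) (𝓞 (AlgebraicClosure K))) =
      𝔓.comap (algebraMap (𝓞 K) (𝓞 (AlgebraicClosure K))) := by
  ext x
  rw [Ideal.mem_comap, Ideal.mem_comap]
  conv_lhs => rw [← plb_smul_base σ x]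
  exact Ideal.smul_mem_pointwise_smul_iff

theorem plb_comap_comap (L : IntermediateField K (AlgebraicClosure K))
    (𝔓 : Ideal (𝓞 (AlgebraicClosure K))) :
    (𝔓.comap (algebraMap (𝓞 L) (𝓞 (AlgebraicClosure K)))).comap (algebraMap (𝓞 K) (𝓞 L)) =
      𝔓.comap (algebraMap (𝓞 K) (𝓞 (AlgebraicClosure K))) := by
  ext x
  rw [Ideal.mem_comap, Ideal.mem_comap, Ideal.mem_comap, plb_tower]

/-- The place of `L` below the translate `σ • 𝔓`. Proof: the comap of a prime ideal is a prime ideal;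
it is not zero since its comap to `𝓞 K` is `v.asIdeal ≠ 0` (`σ` fixes `K`). -/
theorem exists_placeBelow (L : IntermediateField K (AlgebraicClosure K))
    (v : HeightOneSpectrum (𝓞 K)) (𝔓 : Ideal (𝓞 (AlgebraicClosure K))) (h𝔓 : Above 𝔓 v)
    (σ : AlgebraicClosure K ≃ₐ[K] AlgebraicClosure K) :
    ∃ w : HeightOneSpectrum (𝓞 L), PrimeOver L (σ • 𝔓) w ∧ Divides L w v := by
  have hp : 𝔓.IsPrime := h𝔓.1
  have hσ : (σ • 𝔓).IsPrime := Ideal.IsPrime.smul σ
  have hc : ((σ • 𝔓).comap (algebraMap (𝓞 L) (𝓞 (AlgebraicClosure K)))).comap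
      (algebraMap (𝓞 K) (𝓞 L)) = v.asIdeal := by
    rw [plb_comap_comap, plb_comap_base]
    exact h𝔓.2
  have hw : (σ • 𝔓).comap (algebraMap (𝓞 L) (𝓞 (AlgebraicClosure K))) ≠ ⊥ := by
    intro h0
    rw [h0, Ideal.comap_bot_of_injective] at hc
    · exact v.ne_bot hc.symm
    · exact FaithfulSMul.algebraMap_injective (𝓞 K) (𝓞 L)
  exact ⟨⟨_, Ideal.comap_isPrime _ _, hw⟩, ⟨hσ, rfl⟩, hc⟩

theorem plb_integral (L : IntermediateField K (AlgebraicClosure K)) :
    Algebra.IsIntegral (𝓞 L) (𝓞 (AlgebraicClosure K)) :=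
  ⟨fun x => (RingOfIntegers.isIntegral x).tower_top⟩

theorem plb_smul_eq {F : Type u} [Field F] [Algebra K F] {P Q : Ideal (𝓞 F)} {g : F ≃ₐ[K] F}
    (hg : ∀ x : 𝓞 F, g • x ∈ Q ↔ x ∈ P) : g • P = Q := by
  ext x
  rw [Ideal.mem_pointwise_smul_iff_inv_smul_mem, ← hg, smul_inv_smul]

/-- Every place `w` of `L` above `v` lies below some translate of `𝔓`. Proof: choose a prime `𝔔` of
the integers of the algebraic closure above `w` (`Ideal.exists_ideal_over_prime_of_isIntegral` or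
`Ideal.exists_ideal_over_prime_of_isIntegral_of_isPrime`; the ring of integers of the algebraic
closure is integral over `𝓞 L`), it lies above `v`; use `exists_gal` of `Trans.lean` for
`AlgebraicClosure K / K`. -/
theorem exists_translate (L : IntermediateField K (AlgebraicClosure K))
    (v : HeightOneSpectrum (𝓞 K)) (𝔓 : Ideal (𝓞 (AlgebraicClosure K))) (h𝔓 : Above 𝔓 v)
    (w : HeightOneSpectrum (𝓞 L)) (hw : Divides L w v) :
    ∃ σ : AlgebraicClosure K ≃ₐ[K] AlgebraicClosure K, PrimeOver L (σ • 𝔓) w := by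
  have hp : 𝔓.IsPrime := h𝔓.1
  have hi := plb_integral L
  have hwp : w.asIdeal.IsPrime := w.isPrime
  obtain ⟨𝔔, hQ, hQw⟩ := Ideal.exists_ideal_over_prime_of_isIntegral_of_isDomain
    (S := 𝓞 (AlgebraicClosure K)) w.asIdeal (by
      rw [(RingHom.injective_iff_ker_eq_bot _).1
        (FaithfulSMul.algebraMap_injective (𝓞 L) (𝓞 (AlgebraicClosure K)))]
      exact bot_le)
  have hG : IsGalois K (AlgebraicClosure K) := IsAlgClosure.isGalois K (AlgebraicClosure K)
  obtain ⟨g, hg⟩ := exists_gal (K := K) 𝔓 𝔔 (by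
    rw [h𝔓.2, ← plb_comap_comap L 𝔔, hQw]
    exact hw.symm)
  refine ⟨g, ?_⟩
  rw [plb_smul_eq hg]
  exact ⟨hQ, hQw⟩

/-- Two translates of `𝔓` lie above the same place of `L` if and only if they are conjugate under
`Gal(Kbar / L)`. Proof: `exists_gal` for `AlgebraicClosure K / L` (which is Galois) gives an
`L`-automorphism, hence an element `h` of `L.fixingSubgroup` (`IntermediateField.fixingSubgroupEquiv`)
with `h • σ • 𝔓 = τ • 𝔓`; conversely elements of `L.fixingSubgroup` act trivially on `𝓞 L`. -/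
theorem same_place_iff (L : IntermediateField K (AlgebraicClosure K))
    (𝔓 : Ideal (𝓞 (AlgebraicClosure K))) [𝔓.IsPrime]
    (σ τ : AlgebraicClosure K ≃ₐ[K] AlgebraicClosure K) :
    ((σ • 𝔓).comap (algebraMap (𝓞 L) (𝓞 (AlgebraicClosure K))) =
      (τ • 𝔓).comap (algebraMap (𝓞 L) (𝓞 (AlgebraicClosure K)))) ↔
      ∃ h ∈ L.fixingSubgroup, h • σ • 𝔓 = τ • 𝔓 := by
  have h1 : (σ • 𝔓).IsPrime := Ideal.IsPrime.smul σ
  have h2 : (τ • 𝔓).IsPrime := Ideal.IsPrime.smul τ
  have hG : IsGalois K (AlgebraicClosure K) := IsAlgClosure.isGalois K (AlgebraicClosure K)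
  have hG' : IsGalois L (AlgebraicClosure K) :=
    IsGalois.tower_top_of_isGalois K L (AlgebraicClosure K)
  constructor
  · intro h
    obtain ⟨g, hg⟩ := exists_gal (K := L) (σ • 𝔓) (τ • 𝔓) h
    refine ⟨g.restrictScalars K, ?_, ?_⟩
    · rw [IntermediateField.mem_fixingSubgroup_iff]
      intro x hx
      exact g.commutes ⟨x, hx⟩
    · exact plb_smul_eq (g := g.restrictScalars K) fun x => hg x
  · rintro ⟨h, hh, he⟩
    ext x
    rw [Ideal.mem_comap, Ideal.mem_comap, ← he]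
    conv_rhs => rw [← plb_smul_fix L hh x]
    exact Ideal.smul_mem_pointwise_smul_iff.symm

end places

end Pool.Agent.H.MP_ac3185_nt
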