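import Pool.Agent.H.MP_ac3185_nt.R.Defs

/-! Galois descent of points and ranks. -/

set_option autoImplicit false

open CategoryTheory AlgebraicGeometry NumberField
open scoped MonObj TensorProduct

namespace Pool.Agent.H.MP_ac3185_nt

universe u

variable {K : Type u} [Field K]

theorem ptsa_epi {L F : Type u} [Field L] [Field F] (f : L →+* F) :
    Epi (Spec.map (CommRingCat.ofHom f)) := by
  have h1 : (CommRingCat.ofHom f).hom.FaithfullyFlat := by
    show f.FaithfullyFlat
    algebraize [f]
    show Module.FaithfullyFlat L F
    infer_instance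
  obtain ⟨h2, h3⟩ := (flat_and_surjective_SpecMap_iff (CommRingCat.ofHom f)).2 h1
  exact Flat.epi_of_flat_of_surjective _

/-- A morphism `Spec F → X` factors through `Spec L` if it is fixed by a set of automorphisms with fixed
field (the image of) `L`. -/
theorem ptsa_factor {L F : Type u} [Field L] [Field F] (f : L →+* F) (S : Set (F →+* F))
    (hS : ∀ z : F, (∀ g ∈ S, g z = z) → z ∈ f.range) (X : Scheme.{u}) (x : Spec (.of F) ⟶ X)
    (hx : ∀ g ∈ S, Spec.map (CommRingCat.ofHom g) ≫ x = x) :
    ∃ y : Spec (.of L) ⟶ X, Spec.map (CommRingCat.ofHom f) ≫ y = x := by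
  obtain ⟨p, φ, hφ⟩ : ∃ (p : X) (φ : X.residueField p ⟶ .of F),
      Spec.map φ ≫ X.fromSpecResidueField p = x :=
    ⟨_, X.descResidueField (Scheme.stalkClosedPointTo x),
      Scheme.descResidueField_stalkClosedPointTo_fromSpecResidueField F X x⟩
  have h1 : ∀ g ∈ S, φ ≫ CommRingCat.ofHom g = φ := by
    intro g hg
    have h2 := hx g hg
    rw [← hφ, ← Category.assoc, ← Spec.map_comp, cancel_mono, Spec.map_inj] at h2
    exact h2
  have h2 : ∀ a, φ.hom a ∈ f.range := by
    intro a
    apply hS
    intro g hg
    exact congrArg (fun ψ : X.residueField p ⟶ .of F => ψ.hom a) (h1 g hg)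
  have hf : Function.Injective f := f.injective
  let e : L ≃+* f.range := RingEquiv.ofBijective f.rangeRestrict
    ⟨fun a b hab => hf (congrArg Subtype.val hab), f.rangeRestrict_surjective⟩
  let ψ : X.residueField p →+* L := (e.symm : f.range →+* L).comp (φ.hom.codRestrict f.range h2)
  have hψ : CommRingCat.ofHom ψ ≫ CommRingCat.ofHom f = φ := by
    ext a
    show f (e.symm (φ.hom.codRestrict f.range h2 a)) = φ.hom a
    have h3 : f (e.symm (φ.hom.codRestrict f.range h2 a)) =
        (e (e.symm (φ.hom.codRestrict f.range h2 a)) : F) := rfl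
    rw [h3, RingEquiv.apply_symm_apply]
    rfl
  refine ⟨Spec.map (CommRingCat.ofHom ψ) ≫ X.fromSpecResidueField p, ?_⟩
  rw [← Category.assoc, ← Spec.map_comp, hψ, hφ]

theorem ptsa_w {F L : IntermediateField K (AlgebraicClosure K)} (hL : L ≤ F) :
    Spec.map (CommRingCat.ofHom (IntermediateField.inclusion hL : L →+* F)) ≫
      Spec.map (CommRingCat.ofHom (algebraMap K L)) =
        Spec.map (CommRingCat.ofHom (algebraMap K F)) := by
  rw [← Spec.map_comp]
  congr 1

/-- The morphism `Spec F → Spec L`. -/
noncomputable def ptsa_map {F L : IntermediateField K (AlgebraicClosure K)} (hL : L ≤ F) :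
    specOver K F ⟶ specOver K L :=
  Over.homMk (Spec.map (CommRingCat.ofHom (IntermediateField.inclusion hL : L →+* F))) (ptsa_w hL)

/-- The base change of points. -/
noncomputable def ptsa_fn (A : Over (Spec (.of K))) {F L : IntermediateField K (AlgebraicClosure K)}
    (hL : L ≤ F) (y : Pts A L) : Pts A F :=
  Additive.ofMul (ptsa_map hL ≫ (Additive.toMul y : specOver K L ⟶ A))

/-- The base change of points, as a homomorphism. -/
noncomputable def ptsa_j (A : Over (Spec (.of K))) [GrpObj A] [IsAbVar A]
    {F L : IntermediateField K (AlgebraicClosure K)} (hL : L ≤ F) : Pts A L →+ Pts A F where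
  toFun := ptsa_fn A hL
  map_zero' := by
    show Additive.ofMul (ptsa_map hL ≫ (1 : specOver K L ⟶ A)) = Additive.ofMul 1
    rw [MonObj.comp_one]
  map_add' x y := by
    have h : ptsa_map hL ≫ ((Additive.toMul x : specOver K L ⟶ A) * Additive.toMul y) =
        (ptsa_map hL ≫ Additive.toMul x) * (ptsa_map hL ≫ Additive.toMul y) := MonObj.comp_mul _ _ _
    exact congrArg Additive.ofMul h

/-- Galois theory: the elements of `F` fixed by `relGal F L` are the elements of `L`. -/
theorem ptsa_fixed (F : IntermediateField K (AlgebraicClosure K)) [FiniteDimensional K F]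
    [IsGalois K F] (L : IntermediateField K (AlgebraicClosure K)) (z : F)
    (hz : ∀ g ∈ relGal F L, g z = z) : (z : AlgebraicClosure K) ∈ L := by
  have h1 : z ∈ IntermediateField.fixedField
      (IntermediateField.fixingSubgroup (L.comap F.val)) := by
    rw [IntermediateField.mem_fixedField_iff]
    intro g hg
    apply hz
    intro x hx
    exact (IntermediateField.mem_fixingSubgroup_iff _ _).1 hg x hx
  rw [IsGalois.fixedField_fixingSubgroup] at h1
  exact h1

/-- Galois descent of points: for `L ⊆ F` (`F / K` Galois) the group `A(L)` is the group of points of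
`A(F)` fixed by `Gal(F/L)`.

Proof. Restriction along `Spec F → Spec L` (`IntermediateField.inclusion hL`, an algebra homomorphism
over `K`) is a homomorphism `A(L) → A(F)`. A morphism from the spectrum of a field to a scheme is a point
`x` and a homomorphism from the residue field at `x` (`Scheme.SpecToEquivOfField` or
`AlgebraicGeometry.Scheme.fromSpecResidueField` API). Composition with `Spec g` does not change the
point and composes the homomorphism `κ(x) → F` with `g`. Injective: `L → F` is injective. Image: a
homomorphism `κ(x) → F` fixed by all `g` in `Gal(F/L)` has values in the fixed field, which is `L`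
(Galois theory for `F / L`: an element `y` of `F` fixed by `relGal F L` lies in `L`). -/
theorem pts_descent (F : IntermediateField K (AlgebraicClosure K)) [FiniteDimensional K F]
    [IsGalois K F] (A : Over (Spec (.of K))) [GrpObj A] [IsAbVar A]
    (L : IntermediateField K (AlgebraicClosure K)) (hL : L ≤ F) :
    ∃ j : Pts A L →+ Pts A F, Function.Injective j ∧
      ∀ x : Pts A F, (∃ y, j y = x) ↔ ∀ g ∈ relGal F L, galHom A g x = x := by
  have hepi : Epi (Spec.map (CommRingCat.ofHom (IntermediateField.inclusion hL : L →+* F))) :=
    ptsa_epi _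
  refine ⟨ptsa_j A hL, ?_, ?_⟩
  · intro y y' h
    have h1 : ptsa_map hL ≫ (Additive.toMul y : specOver K L ⟶ A) =
        ptsa_map hL ≫ (Additive.toMul y' : specOver K L ⟶ A) := h
    have h2 : Spec.map (CommRingCat.ofHom (IntermediateField.inclusion hL : L →+* F)) ≫
        (Additive.toMul y : specOver K L ⟶ A).left =
        Spec.map (CommRingCat.ofHom (IntermediateField.inclusion hL : L →+* F)) ≫
        (Additive.toMul y' : specOver K L ⟶ A).left :=
      congrArg (fun m : specOver K F ⟶ A => m.left) h1
    have h3 := (cancel_epi _).1 h2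
    exact congrArg Additive.ofMul (Over.OverMorphism.ext h3)
  · intro x
    constructor
    · rintro ⟨y, rfl⟩ g hg
      show Additive.ofMul (specGal g ≫ (ptsa_map hL ≫ (Additive.toMul y : specOver K L ⟶ A))) =
        Additive.ofMul (ptsa_map hL ≫ (Additive.toMul y : specOver K L ⟶ A))
      have h1 : specGal g ≫ ptsa_map hL = ptsa_map hL := by
        apply Over.OverMorphism.ext
        show Spec.map (CommRingCat.ofHom (g : F →+* F)) ≫
          Spec.map (CommRingCat.ofHom (IntermediateField.inclusion hL : L →+* F)) =
          Spec.map (CommRingCat.ofHom (IntermediateField.inclusion hL : L →+* F))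
        rw [← Spec.map_comp]
        congr 1
        ext z
        exact congrArg Subtype.val (hg (IntermediateField.inclusion hL z) z.2)
      rw [← Category.assoc, h1]
    · intro hx
      obtain ⟨y, hy⟩ := ptsa_factor (IntermediateField.inclusion hL : L →+* F)
        {g | ∃ s ∈ relGal F L, g = (s : F →+* F)} (by
          intro z hz
          have h1 := ptsa_fixed F L z fun g hg => hz _ ⟨g, hg, rfl⟩
          exact ⟨⟨z, h1⟩, rfl⟩) A.left (Additive.toMul x : specOver K F ⟶ A).left (by
          rintro _ ⟨g, hg, rfl⟩
          have h1 : specGal g ≫ (Additive.toMul x : specOver K F ⟶ A) =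
            (Additive.toMul x : specOver K F ⟶ A) := hx g hg
          exact congrArg (fun m : specOver K F ⟶ A => m.left) h1)
      have hw : y ≫ A.hom = Spec.map (CommRingCat.ofHom (algebraMap K L)) := by
        rw [← cancel_epi (Spec.map (CommRingCat.ofHom (IntermediateField.inclusion hL : L →+* F))),
          ← Category.assoc, hy, ptsa_w hL]
        exact Over.w (Additive.toMul x : specOver K F ⟶ A)
      refine ⟨Additive.ofMul (Over.homMk y hw : specOver K L ⟶ A), ?_⟩
      have h2 : ptsa_map hL ≫ (Over.homMk y hw : specOver K L ⟶ A) =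
          (Additive.toMul x : specOver K F ⟶ A) := by
        apply Over.OverMorphism.ext
        exact hy
      exact congrArg Additive.ofMul h2

end Pool.Agent.H.MP_ac3185_nt
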