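import Pool.Agent.H.MP_ac3185_nt.R.PtsA

/-! Galois descent of points and ranks. -/

set_option autoImplicit false

open CategoryTheory AlgebraicGeometry NumberField
open scoped MonObj TensorProduct

namespace Pool.Agent.H.MP_ac3185_nt

universe u

variable {K : Type u} [Field K]

/-- The rank of `ℚ ⊗ N`. -/
theorem ptsb_rank (N : Type u) [AddCommGroup N] :
    Module.rank ℚ (ℚ ⊗[ℤ] N) = Module.rank ℤ N := by
  have h1 : Module.rank ℚ (ℚ ⊗[ℤ] N) = Module.rank ℤ (ℚ ⊗[ℤ] N) :=
    IsLocalization.rank_eq ℚ (nonZeroDivisors ℤ) le_rfl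
  let f : N →ₗ[ℤ] ℚ ⊗[ℤ] N := TensorProduct.mk ℤ ℚ N 1
  have h2 : IsLocalizedModule (nonZeroDivisors ℤ) f :=
    (isLocalizedModule_iff_isBaseChange (nonZeroDivisors ℤ) ℚ f).mpr
      (TensorProduct.isBaseChange _ _ _)
  rw [h1]
  exact @IsLocalizedModule.rank_eq ℤ N _ _ _ (nonZeroDivisors ℤ) le_rfl (ℚ ⊗[ℤ] N) _ _ f h2

/-- The representation on `ℚ ⊗ N` defined by an action on `N`. -/
noncomputable def ptsb_rep {G : Type*} [Group G] {N : Type u} [AddCommGroup N] (φ : G → N →+ N)
    (h1 : φ 1 = AddMonoidHom.id N) (hm : ∀ a b, φ (a * b) = (φ a).comp (φ b)) :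
    Representation ℚ G (ℚ ⊗[ℤ] N) where
  toFun g := (φ g).toIntLinearMap.baseChange ℚ
  map_one' := by
    apply LinearMap.ext
    intro x
    induction x using TensorProduct.induction_on with
    | zero => rw [map_zero, map_zero]
    | tmul q y =>
      rw [LinearMap.baseChange_tmul]
      show q ⊗ₜ[ℤ] (φ 1 y) = q ⊗ₜ[ℤ] y
      rw [h1]
      rfl
    | add x y hx hy => rw [map_add, map_add, hx, hy]
  map_mul' a b := by
    apply LinearMap.ext
    intro x
    induction x using TensorProduct.induction_on with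
    | zero => rw [map_zero, map_zero]
    | tmul q y =>
      show q ⊗ₜ[ℤ] (φ (a * b) y) = q ⊗ₜ[ℤ] (φ a (φ b y))
      rw [hm]
      rfl
    | add x y hx hy => rw [map_add, map_add, hx, hy]

theorem ptsb_rep_tmul {G : Type*} [Group G] {N : Type u} [AddCommGroup N] (φ : G → N →+ N)
    (h1 : φ 1 = AddMonoidHom.id N) (hm : ∀ a b, φ (a * b) = (φ a).comp (φ b)) (g : G) (q : ℚ)
    (y : N) : ptsb_rep φ h1 hm g (q ⊗ₜ[ℤ] y) = q ⊗ₜ[ℤ] (φ g y) := rfl

/-- The space of the fixed vectors of a finite group in `ℚ ⊗ N` is `ℚ ⊗ N^H`. -/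
theorem ptsb_main {G : Type*} [Group G] [Finite G] {N N' : Type u} [AddCommGroup N]
    [AddCommGroup N'] (φ : G → N →+ N)
    (h1 : φ 1 = AddMonoidHom.id N) (hm : ∀ a b, φ (a * b) = (φ a).comp (φ b))
    (H : Subgroup G) (j : N' →+ N) (hj : Function.Injective j)
    (hfix : ∀ x : N, (∃ y, j y = x) ↔ ∀ g ∈ H, φ g x = x) :
    Module.rank ℚ (fixedVec (ptsb_rep φ h1 hm) (H : Set G)) = Module.rank ℤ N' := by
  classical
  have _ := Fintype.ofFinite H
  let J : ℚ ⊗[ℤ] N' →ₗ[ℚ] ℚ ⊗[ℤ] N := j.toIntLinearMap.baseChange ℚ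
  have hJt : ∀ (q : ℚ) (y : N'), J (q ⊗ₜ[ℤ] y) = q ⊗ₜ[ℤ] (j y) := fun q y => rfl
  have hJ : Function.Injective J := by
    have h2 : Function.Injective (j.toIntLinearMap.lTensor ℚ) :=
      Module.Flat.lTensor_preserves_injective_linearMap _ hj
    exact h2
  have hJr : LinearMap.range J = fixedVec (ptsb_rep φ h1 hm) (H : Set G) := by
    apply le_antisymm
    · rintro _ ⟨x, rfl⟩
      rw [mem_fixedVec]
      intro g hg
      induction x using TensorProduct.induction_on with
      | zero => rw [map_zero, map_zero]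
      | tmul q y =>
        rw [hJt, ptsb_rep_tmul, (hfix (j y)).1 ⟨y, rfl⟩ g hg]
      | add x y hx hy => rw [map_add, map_add, hx, hy]
    · intro x hx
      rw [mem_fixedVec] at hx
      have hsum : ∀ z : ℚ ⊗[ℤ] N, ∑ g : H, ptsb_rep φ h1 hm (g : G) z ∈ LinearMap.range J := by
        intro z
        induction z using TensorProduct.induction_on with
        | zero =>
          have : ∑ g : H, ptsb_rep φ h1 hm (g : G) (0 : ℚ ⊗[ℤ] N) = 0 :=
            Finset.sum_eq_zero fun g _ => map_zero _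
          rw [this]
          exact zero_mem _
        | tmul q y =>
          have h3 : ∑ g : H, ptsb_rep φ h1 hm (g : G) (q ⊗ₜ[ℤ] y) =
              q ⊗ₜ[ℤ] (∑ g : H, φ (g : G) y) := by
            rw [TensorProduct.tmul_sum]
            exact Finset.sum_congr rfl fun g _ => ptsb_rep_tmul φ h1 hm g q y
          obtain ⟨y', hy'⟩ := (hfix (∑ g : H, φ (g : G) y)).2 (by
            intro a ha
            rw [map_sum]
            have h4 : ∀ g : H, φ a (φ (g : G) y) = φ (((⟨a, ha⟩ : H) * g : H) : G) y := by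
              intro g
              rw [Subgroup.coe_mul, hm]
              rfl
            rw [Finset.sum_congr rfl fun g _ => h4 g]
            exact Equiv.sum_comp (Equiv.mulLeft (⟨a, ha⟩ : H)) (fun g : H => φ (g : G) y))
          rw [h3, ← hy', ← hJt]
          exact ⟨_, rfl⟩
        | add x y hx hy =>
          have : ∑ g : H, ptsb_rep φ h1 hm (g : G) (x + y) =
              ∑ g : H, ptsb_rep φ h1 hm (g : G) x + ∑ g : H, ptsb_rep φ h1 hm (g : G) y := by
            rw [← Finset.sum_add_distrib]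
            exact Finset.sum_congr rfl fun g _ => map_add _ _ _
          rw [this]
          exact add_mem hx hy
      have h5 : ∑ g : H, ptsb_rep φ h1 hm (g : G) x = (Fintype.card H : ℚ) • x := by
        rw [Finset.sum_congr rfl fun (g : H) _ => hx (g : G) g.2, Finset.sum_const, Finset.card_univ,
          ← Nat.cast_smul_eq_nsmul ℚ]
      have h6 : (Fintype.card H : ℚ) ≠ 0 := by
        exact_mod_cast Fintype.card_ne_zero
      have h7 : x = (Fintype.card H : ℚ)⁻¹ • ∑ g : H, ptsb_rep φ h1 hm (g : G) x := by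
        rw [h5, smul_smul, inv_mul_cancel₀ h6, one_smul]
      rw [h7]
      exact Submodule.smul_mem _ _ (hsum x)
  rw [← hJr, ← (LinearEquiv.ofInjective J hJ).rank_eq]
  exact ptsb_rank N'

theorem ptsb_galHom_one (A : Over (Spec (.of K))) [GrpObj A] [IsAbVar A] {L : Type u} [Field L]
    [Algebra K L] : galHom A (1 : L ≃ₐ[K] L) = AddMonoidHom.id _ := by
  refine AddMonoidHom.ext fun x => ?_
  apply Additive.toMul.injective
  apply Over.OverMorphism.ext
  show Spec.map (CommRingCat.ofHom (RingHom.id L)) ≫ x.toMul.left = x.toMul.left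
  have : CommRingCat.ofHom (RingHom.id L) = 𝟙 (CommRingCat.of L) := rfl
  rw [this, Spec.map_id]
  exact Category.id_comp _

theorem ptsb_galHom_mul (A : Over (Spec (.of K))) [GrpObj A] [IsAbVar A] {L : Type u} [Field L]
    [Algebra K L] (a b : L ≃ₐ[K] L) : galHom A (a * b) = (galHom A a).comp (galHom A b) := by
  refine AddMonoidHom.ext fun x => ?_
  apply Additive.toMul.injective
  apply Over.OverMorphism.ext
  show Spec.map (CommRingCat.ofHom ((a * b : L ≃ₐ[K] L) : L →+* L)) ≫ x.toMul.left =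
    Spec.map (CommRingCat.ofHom (a : L →+* L)) ≫
      (Spec.map (CommRingCat.ofHom (b : L →+* L)) ≫ x.toMul.left)
  have h : CommRingCat.ofHom ((a * b : L ≃ₐ[K] L) : L →+* L) =
      CommRingCat.ofHom (b : L →+* L) ≫ CommRingCat.ofHom (a : L →+* L) := rfl
  rw [h, Spec.map_comp, Category.assoc]

/-- The representation of `Gal(F/K)` on `ℚ ⊗ A(F)`.

Proof. `M = ℚ ⊗[ℤ] Pts A F`, `ρ g` the base change of `galHom A g` (`galHom A (a b) = galHom A a ∘
galHom A b`, `galHom_one`). The vectors fixed by the finite group `H = relGal F L` are the image of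
`ℚ ⊗ (Pts A F)^H`: averaging (`x = (1/|H|) ∑ h x`, and `∑ h (q ⊗ y) = q ⊗ ∑ h y` with `∑ h y` fixed),
and `ℚ ⊗ (Pts A F)^H → ℚ ⊗ Pts A F` is injective by flatness of `ℚ`. With `pts_descent` this space
is isomorphic to `ℚ ⊗[ℤ] Pts A L`, and the rank of `ℚ ⊗ N` over `ℚ` is the rank of `N` over `ℤ`
(`rank_baseChange`-type lemma / `IsLocalizedModule.rank_eq`, see the use of `finrank` in
`MP_ac3185_nt.Main`). -/
theorem exists_pointRep (F : IntermediateField K (AlgebraicClosure K)) [FiniteDimensional K F]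
    [IsGalois K F] (A : Over (Spec (.of K))) [GrpObj A] [IsAbVar A] :
    ∃ (M : Type u) (_ : AddCommGroup M) (_ : Module ℚ M) (ρ : Representation ℚ (F ≃ₐ[K] F) M),
      ∀ L : IntermediateField K (AlgebraicClosure K), L ≤ F →
        Module.rank ℚ (fixedVec ρ (relGal F L : Set (F ≃ₐ[K] F))) = Module.rank ℤ (Pts A L) := by
  have hfin : Finite (F ≃ₐ[K] F) := inferInstance
  refine ⟨ℚ ⊗[ℤ] Pts A F, inferInstance, inferInstance,
    ptsb_rep (galHom A) (ptsb_galHom_one A) (ptsb_galHom_mul A), ?_⟩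
  intro L hL
  obtain ⟨j, hj, hfix⟩ := pts_descent F A L hL
  exact ptsb_main (galHom A) (ptsb_galHom_one A) (ptsb_galHom_mul A) (relGal F L) j hj hfix

end Pool.Agent.H.MP_ac3185_nt
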