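import Pool.Agent.H.MP_ac3185_nt.R.Defs

/-! Galois descent of points and ranks. -/

set_option autoImplicit false

open CategoryTheory AlgebraicGeometry NumberField
open scoped MonObj TensorProduct

namespace Pool.Agent.H.MP_ac3185_nt

universe u

variable {K : Type u} [Field K]

/-- Ranks in an even relation.

Proof. Let `M'` be the subspace spanned by all `ρ g x` with `x` in one of the spaces `fixedVec ρ H_j`
(which have finite dimension `r j`). `M'` is finite dimensional and stable under the finite group; its
vectors fixed by `H_j` are those of `M`. Apply the relation to `M'`. -/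
theorem rank_even_of_relation (F : IntermediateField K (AlgebraicClosure K))
    [FiniteDimensional K F] {J : Type*} [Fintype J]
    (L : J → IntermediateField K (AlgebraicClosure K)) (hE : EvenRelation F L)
    (M : Type u) [AddCommGroup M] [Module ℚ M] (ρ : Representation ℚ (F ≃ₐ[K] F) M) (r : J → ℕ)
    (hr : ∀ j, Module.rank ℚ (fixedVec ρ (relGal F (L j) : Set (F ≃ₐ[K] F))) = r j) :
    Even (∑ j, r j) := by
  classical
  set V : J → Submodule ℚ M := fun j => fixedVec ρ (relGal F (L j) : Set (F ≃ₐ[K] F)) with hV
  haveI hfin : ∀ j, FiniteDimensional ℚ (V j) := by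
    intro j
    apply Module.rank_lt_aleph0_iff.mp
    rw [hV]
    simp only
    rw [hr j]
    exact Cardinal.natCast_lt_aleph0
  have hfr : ∀ j, Module.finrank ℚ (V j) = r j := fun j => Module.finrank_eq_of_rank_eq (hr j)
  haveI : Finite (F ≃ₐ[K] F) := inferInstance
  set W : Submodule ℚ M := ⨆ g : F ≃ₐ[K] F, ⨆ j, (V j).map (ρ g) with hW
  haveI hWf : FiniteDimensional ℚ W := by
    haveI : ∀ g : F ≃ₐ[K] F, FiniteDimensional ℚ ((⨆ j, (V j).map (ρ g) : Submodule ℚ M)) := by
      intro g
      exact Submodule.finiteDimensional_iSup _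
    exact Submodule.finiteDimensional_iSup _
  have hVW : ∀ j, V j ≤ W := by
    intro j
    have h1 : (V j).map (ρ 1) = V j := by
      rw [map_one]
      exact Submodule.map_id _
    calc V j = (V j).map (ρ 1) := h1.symm
      _ ≤ ⨆ j, (V j).map (ρ 1) := le_iSup (fun j => (V j).map (ρ 1)) j
      _ ≤ W := le_iSup (fun g : F ≃ₐ[K] F => ⨆ j, (V j).map (ρ g)) 1
  have hst : ∀ g, W ≤ W.comap (ρ g) := by
    intro g
    rw [← Submodule.map_le_iff_le_comap]
    conv_lhs => rw [hW]
    rw [Submodule.map_iSup]
    apply iSup_le
    intro g'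
    rw [Submodule.map_iSup]
    apply iSup_le
    intro j
    rw [← Submodule.map_comp, ← Module.End.mul_eq_comp, ← map_mul]
    exact (le_iSup (fun j => (V j).map (ρ (g * g'))) j).trans
      (le_iSup (fun g : F ≃ₐ[K] F => ⨆ j, (V j).map (ρ g)) (g * g'))
  have hE' := hE W (Representation.subrepresentation ρ W hst)
  have hsum : ∑ i, Module.finrank ℚ (fixedVec (Representation.subrepresentation ρ W hst)
      (relGal F (L i) : Set (F ≃ₐ[K] F))) = ∑ j, r j := by
    apply Finset.sum_congr rfl
    intro j _
    have h2 : Submodule.map W.subtype (fixedVec (Representation.subrepresentation ρ W hst)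
        (relGal F (L j) : Set (F ≃ₐ[K] F))) = V j := by
      ext x
      simp only [Submodule.mem_map, Submodule.subtype_apply]
      constructor
      · rintro ⟨y, hy, rfl⟩
        intro h hh
        have := hy h hh
        have h3 := congrArg (fun z : W => (z : M)) this
        exact h3
      · intro hx
        refine ⟨⟨x, hVW j hx⟩, ?_, rfl⟩
        intro h hh
        apply Subtype.ext
        exact hx h hh
    rw [← hfr j, ← h2]
    exact (Submodule.finrank_map_subtype_eq W _).symm
  rw [hsum] at hE'
  exact hE'

end Pool.Agent.H.MP_ac3185_nt
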