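import Mathlib

/-! Characters of cyclic groups and relative indices. -/

set_option autoImplicit false

namespace Pool.Agent.H.MP_ac3185_nt

/-- a finite cyclic group of even order has a character which takes a generator to `-1` -/
theorem unra_exists_char {C : Type*} [Group C] [Finite C] (g : C) (hg : ∀ x, x ∈ Subgroup.zpowers g)
    (he : Even (Nat.card C)) : ∃ ε : C →* ℤˣ, ε g = -1 := by
  have ho : orderOf g = Nat.card C := orderOf_eq_card_of_forall_mem_zpowers hg
  have hk : ∀ x : C, ∃ k : ℕ, g ^ k = x := by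
    intro x
    have := hg x
    rw [← mem_powers_iff_mem_zpowers] at this
    obtain ⟨k, hk⟩ := this
    exact ⟨k, hk⟩
  choose k hk using hk
  have hpar : ∀ a b : ℕ, g ^ a = g ^ b → ((-1 : ℤˣ)) ^ a = (-1) ^ b := by
    intro a b hab
    rw [pow_eq_pow_iff_modEq, ho] at hab
    obtain ⟨c, hc⟩ := he.two_dvd
    have h2 : a ≡ b [MOD 2] := hab.of_dvd ⟨c, hc⟩
    have h3 : orderOf (-1 : ℤˣ) ∣ 2 := orderOf_dvd_of_pow_eq_one (by simp)
    exact pow_eq_pow_iff_modEq.2 (h2.of_dvd h3)
  refine ⟨{ toFun := fun x => (-1) ^ (k x), map_one' := ?_, map_mul' := ?_ }, ?_⟩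
  · have h := hpar (k 1) 0 (by rw [hk, pow_zero])
    simpa using h
  · intro x y
    have h := hpar (k (x * y)) (k x + k y) (by rw [hk, pow_add, hk, hk])
    rw [pow_add] at h
    exact h
  · have h := hpar (k g) 1 (by rw [hk, pow_one])
    simpa using h

theorem unra_char_eq {C : Type*} [Group C] (g : C) (hg : ∀ x, x ∈ Subgroup.zpowers g)
    (ε ε' : C →* ℤˣ) (h : ε g = ε' g) : ε = ε' := by
  ext x
  obtain ⟨k, hk⟩ := Subgroup.mem_zpowers_iff.1 (hg x)
  rw [← hk, map_zpow, map_zpow, h]

/-- the character is trivial on the subgroups of even index -/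
theorem unra_triv {C : Type*} [Group C] [Finite C] (g : C) (hg : ∀ x, x ∈ Subgroup.zpowers g)
    (ε : C →* ℤˣ) (S : Subgroup C) (hS : Even S.index) : ∀ s ∈ S, ε s = 1 := by
  intro s hs
  have ho : orderOf g = Nat.card C := orderOf_eq_card_of_forall_mem_zpowers hg
  have := hg s
  rw [← mem_powers_iff_mem_zpowers] at this
  obtain ⟨k, hk⟩ := this
  have hk : g ^ k = s := hk
  have h1 : s ^ Nat.card S = 1 := by
    have h0 := congrArg Subtype.val (pow_card_eq_one' (G := S) (x := ⟨s, hs⟩))
    rwa [Subgroup.coe_pow, Subgroup.coe_one] at h0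
  rw [← hk, ← pow_mul] at h1
  have h2 := orderOf_dvd_of_pow_eq_one h1
  rw [ho, ← S.card_mul_index, mul_comm k] at h2
  have h3 : S.index ∣ k := Nat.dvd_of_mul_dvd_mul_left Nat.card_pos h2
  have h4 : Even k := (even_iff_two_dvd.2 (hS.two_dvd.trans h3))
  obtain ⟨j, hj⟩ := h4
  rw [← hk, map_pow, hj, pow_add, ← mul_pow, ← sq, Int.units_sq, one_pow]

/-- the character is not trivial on the subgroups of odd index -/
theorem unra_not_triv {C : Type*} [Group C] [Finite C] (g : C)
    (ε : C →* ℤˣ) (hε : ε g = -1) (S : Subgroup C) (hS : Odd S.index) : ¬ ∀ s ∈ S, ε s = 1 := by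
  intro h
  have h1 : S ≤ ε.ker := fun s hs => by rw [MonoidHom.mem_ker]; exact h s hs
  have h2 : ε.ker.index ∣ S.index := Subgroup.index_dvd_of_le h1
  have h3 : ε.ker.index = 2 := by
    rw [Subgroup.index_ker]
    have hsurj : ε.range = ⊤ := by
      rw [MonoidHom.range_eq_top]
      intro u
      rcases Int.units_eq_one_or u with rfl | rfl
      · exact ⟨1, map_one ε⟩
      · exact ⟨g, hε⟩
    rw [hsurj, Subgroup.card_top]
    simp
  rw [h3] at h2
  exact (Nat.not_even_iff_odd.2 hS) (even_iff_two_dvd.2 h2)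

/-- In a finite cyclic group the parity of the index of a subgroup is detected by the characters
with values `±1`.

Proof. Let `a = (-1)^α`, `b = (-1)^β`. If the order of `C` is odd then all indices are odd and the only
`ε` is `1`: `w 1 = α`. If the order is even there are exactly two homomorphisms `1` and `ε₀`
(`ε₀` of a generator is `-1`), and the index of `S` is even if and only if `ε₀ = 1` on `S`
(`S` is generated by `c ^ m`, `m` the index, `ε₀ (c ^ m) = (-1) ^ m`): `w 1 = α`, `w ε₀ = α + β`. -/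
theorem cyclic_parity {C : Type*} [Group C] [Finite C] [IsCyclic C] (a b : ℤ)
    (ha : a = 1 ∨ a = -1) (hb : b = 1 ∨ b = -1) :
    ∃ w : (C →* ℤˣ) → ℕ, ∀ S : Subgroup C,
      (Odd S.index → a = (-1) ^ (∑ᶠ ε : C →* ℤˣ,
        (open Classical in if ∀ s ∈ S, ε s = 1 then w ε else 0))) ∧
      (Even S.index → b = (-1) ^ (∑ᶠ ε : C →* ℤˣ,
        (open Classical in if ∀ s ∈ S, ε s = 1 then w ε else 0))) := by
  classical
  obtain ⟨g, hg⟩ := IsCyclic.exists_generator (α := C)
  obtain ⟨α, hα⟩ : ∃ α : ℕ, a = (-1) ^ α := by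
    rcases ha with rfl | rfl
    · exact ⟨0, by simp⟩
    · exact ⟨1, by simp⟩
  obtain ⟨β, hβ⟩ : ∃ β : ℕ, b = (-1) ^ β := by
    rcases hb with rfl | rfl
    · exact ⟨0, by simp⟩
    · exact ⟨1, by simp⟩
  rcases Nat.even_or_odd (Nat.card C) with he | hodd
  · obtain ⟨ε₀, hε₀⟩ := unra_exists_char g hg he
    have hne : (1 : C →* ℤˣ) ≠ ε₀ := by
      intro h
      have := congrArg (fun f : C →* ℤˣ => f g) h
      simp only [MonoidHom.one_apply, hε₀] at this
      exact absurd this (by decide)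
    have hall : ∀ ε : C →* ℤˣ, ε = 1 ∨ ε = ε₀ := by
      intro ε
      rcases Int.units_eq_one_or (ε g) with h | h
      · left
        exact unra_char_eq g hg _ _ (by rw [h, MonoidHom.one_apply])
      · right
        exact unra_char_eq g hg _ _ (by rw [h, hε₀])
    refine ⟨fun ε => if ε = 1 then α else α + β, fun S => ?_⟩
    have hsum : ∀ f : (C →* ℤˣ) → ℕ, ∑ᶠ ε, f ε = f 1 + f ε₀ := by
      intro f
      have hsub : Function.support f ⊆ (({1, ε₀} : Finset (C →* ℤˣ)) : Set (C →* ℤˣ)) := by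
        intro ε _
        rcases hall ε with h | h
        · simp [h]
        · simp [h]
      rw [finsum_eq_sum_of_support_subset f hsub, Finset.sum_pair hne]
    rw [hsum]
    have h1 : ∀ s ∈ S, (1 : C →* ℤˣ) s = 1 := fun s _ => MonoidHom.one_apply s
    constructor
    · intro hS
      rw [if_pos h1, if_neg (unra_not_triv g ε₀ hε₀ S hS), add_zero]
      simp only [if_true]
      exact hα
    · intro hS
      rw [if_pos h1, if_pos (unra_triv g hg ε₀ S hS)]
      simp only [if_true]
      rw [if_neg hne.symm, ← add_assoc, pow_add, ← two_mul, pow_mul, hβ]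
      simp
  · have hall : ∀ ε : C →* ℤˣ, ε = 1 := by
      intro ε
      refine unra_char_eq g hg _ _ ?_
      rw [MonoidHom.one_apply]
      rcases Int.units_eq_one_or (ε g) with h | h
      · exact h
      · exfalso
        have h1 : ε g ^ Nat.card C = 1 := by rw [← map_pow, pow_card_eq_one', map_one]
        rw [h, hodd.neg_one_pow] at h1
        exact absurd h1 (by decide)
    refine ⟨fun _ => α, fun S => ?_⟩
    constructor
    · intro _
      rw [finsum_eq_single _ (1 : C →* ℤˣ) (fun ε hε => absurd (hall ε) hε),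
        if_pos (fun s _ => MonoidHom.one_apply s)]
      exact hα
    · intro hS
      exfalso
      have h2 : S.index ∣ Nat.card C := S.index_dvd_card
      have h3 : Even (Nat.card C) := even_iff_two_dvd.2 (hS.two_dvd.trans h2)
      exact (Nat.not_even_iff_odd.2 hodd) h3

/-- Relative indices and quotients. Proof: `(D.map π) / S ≅ D / (D ∩ σ⁻¹ Δ σ)`, conjugate by `σ`. -/
theorem relIndex_eq {Γ G : Type*} [Group Γ] [Group G] (π : Γ →* G) (D Δ : Subgroup Γ)
    (hΔ : π.ker ≤ Δ) (σ : Γ) (D' : Subgroup Γ) (hD' : ∀ g, g ∈ D' ↔ σ⁻¹ * g * σ ∈ D)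
    (S : Subgroup (D.map π)) (hS : ∀ d : D.map π, d ∈ S ↔ π σ * d * (π σ)⁻¹ ∈ Δ.map π) :
    Δ.relIndex D' = S.index := by
  let f : D' →* D.map π :=
    { toFun := fun g => ⟨π (σ⁻¹ * g * σ), ⟨_, (hD' g).1 g.2, rfl⟩⟩
      map_one' := by
        apply Subtype.ext
        simp
      map_mul' := by
        intro x y
        apply Subtype.ext
        simp [mul_assoc] }
  have hf : Function.Surjective f := by
    rintro ⟨_, d, hd, rfl⟩
    refine ⟨⟨σ * d * σ⁻¹, (hD' _).2 ?_⟩, ?_⟩
    · have : σ⁻¹ * (σ * d * σ⁻¹) * σ = d := by group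
      rw [this]
      exact hd
    · apply Subtype.ext
      change π (σ⁻¹ * (σ * d * σ⁻¹) * σ) = π d
      congr 1
      group
  have hc : S.comap f = Δ.subgroupOf D' := by
    ext g
    rw [Subgroup.mem_comap, hS, Subgroup.mem_subgroupOf]
    have h1 : π σ * (f g : G) * (π σ)⁻¹ = π g := by
      change π σ * π (σ⁻¹ * g * σ) * (π σ)⁻¹ = π g
      rw [← map_inv, ← map_mul, ← map_mul]
      congr 1
      group
    rw [h1]
    constructor
    · rintro ⟨x, hx, hxg⟩
      have h2 : x⁻¹ * (g : Γ) ∈ π.ker := by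
        rw [MonoidHom.mem_ker, map_mul, map_inv, hxg, inv_mul_cancel]
      have h3 := Δ.mul_mem hx (hΔ h2)
      rwa [mul_inv_cancel_left] at h3
    · intro hg
      exact ⟨g, hg, rfl⟩
  rw [Subgroup.relIndex, ← hc, Subgroup.index_comap_of_surjective S hf]

end Pool.Agent.H.MP_ac3185_nt
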